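import Mathlib
import Pool.Agent.Helper602.MK.J5b

/-! Discrete Fourier analysis for the correlation inequality. -/

namespace Pool.Agent.V11293.E70
open Finset
open Pool.Agent.Helper602.MK (ee)
open Pool.Agent.Helper602.MK.N_J5b (ee_add ee_zero ee_conj norm_ee ee_int ee_nat_mul ee_eq_one_iff
  normsq_sum)

lemma orth (K : ℕ) (hK : 1 ≤ K) (n : ℤ) :
    ∑ k ∈ range K, ee ((n : ℝ) * (k / K)) = if (K : ℤ) ∣ n then (K : ℂ) else 0 := by
  have hK0 : (K : ℝ) ≠ 0 := by positivity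
  split_ifs with h
  · obtain ⟨c, rfl⟩ := h
    rw [sum_congr rfl (g := fun _ => (1 : ℂ))]
    · simp
    · intro k _
      have : (((K * c : ℤ) : ℝ)) * ((k : ℝ) / K) = ((c * k : ℤ) : ℝ) := by
        push_cast; field_simp
      rw [this, ee_int]
  · have h1 : ∀ k ∈ range K, ee ((n : ℝ) * (k / K)) = ee ((n : ℝ) / K) ^ k := by
      intro k _
      rw [← ee_nat_mul]; congr 1; ring
    rw [sum_congr rfl h1]
    have hne : ee ((n : ℝ) / K) ≠ 1 := by
      intro h2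
      rw [ee_eq_one_iff] at h2
      obtain ⟨m, hm⟩ := h2
      apply h
      refine ⟨m, ?_⟩
      have : (n : ℝ) = K * m := by rw [← hm]; field_simp
      exact_mod_cast this
    rw [geom_sum_eq hne]
    have : ee ((n : ℝ) / K) ^ K = 1 := by
      rw [← ee_nat_mul]
      have h3 : (K : ℝ) * ((n : ℝ) / K) = n := by field_simp
      rw [h3, ee_int]
    rw [this, sub_self, zero_div]

lemma orth_small (K : ℕ) (n : ℤ) (hn : |n| < K) :
    ∑ k ∈ range K, ee ((n : ℝ) * (k / K)) = if n = 0 then (K : ℂ) else 0 := by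
  have hK : 1 ≤ K := by
    have := abs_nonneg n
    omega
  rw [orth K hK n]
  by_cases h : n = 0
  · simp [h]
  · rw [if_neg h, if_neg]
    intro h2
    exact h (Int.eq_zero_of_abs_lt_dvd h2 hn)

/-- averaged correlation identity -/
lemma corr_id (S TW : Finset ℤ) (v W : ℤ → ℝ) (K : ℕ)
    (hK : ∀ t ∈ TW, ∀ x ∈ S, ∀ y ∈ S, |t - x + y| < K) :
    ∑ k ∈ range K, (∑ t ∈ TW, (W t : ℂ) * ee ((t : ℝ) * (k / K))) *
      ((‖∑ x ∈ S, (v x : ℂ) * ee (-((x : ℝ) * (k / K)))‖ ^ 2 : ℝ) : ℂ) =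
      (K : ℂ) * ∑ t ∈ TW, (W t : ℂ) * ∑ y ∈ S, ∑ x ∈ S, if x = y + t then (v x : ℂ) * v y else 0 := by
  simp_rw [normsq_sum, map_mul, ee_conj, Complex.conj_ofReal, neg_neg]
  have h1 : ∀ k ∈ range K, (∑ t ∈ TW, (W t : ℂ) * ee ((t : ℝ) * (k / K))) *
      (∑ x ∈ S, ∑ y ∈ S, (v x : ℂ) * ee (-((x : ℝ) * (k / K))) * ((v y : ℂ) * ee ((y : ℝ) * (k / K)))) =
      ∑ t ∈ TW, ∑ y ∈ S, ∑ x ∈ S, ((W t : ℂ) * ((v x : ℂ) * v y)) * ee (((t - x + y : ℤ) : ℝ) * (k / K)) := by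
    intro k _
    rw [sum_mul]
    apply sum_congr rfl; intro t _
    rw [sum_comm, mul_sum]
    apply sum_congr rfl; intro y _
    rw [mul_sum]
    apply sum_congr rfl; intro x _
    have : ((t - x + y : ℤ) : ℝ) * ((k : ℝ) / K) = (t : ℝ) * (k / K) + (-((x : ℝ) * (k / K)) + (y : ℝ) * (k / K)) := by
      push_cast; ring
    rw [this, ee_add, ee_add]; ring
  rw [sum_congr rfl h1, sum_comm, mul_sum]
  apply sum_congr rfl; intro t ht
  rw [sum_comm, mul_sum, mul_sum]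
  apply sum_congr rfl; intro y hy
  rw [sum_comm, mul_sum, mul_sum]
  apply sum_congr rfl; intro x hx
  rw [← mul_sum, orth_small K _ (hK t ht x hx y hy)]
  by_cases h : x = y + t
  · rw [if_pos h, if_pos (by omega)]; ring
  · rw [if_neg h, if_neg (by omega)]; ring

/-- Parseval -/
lemma parseval (S : Finset ℤ) (u : ℤ → ℝ) (K : ℕ) (hK : ∀ x ∈ S, ∀ y ∈ S, |x - y| < K) :
    ∑ k ∈ range K, ‖∑ x ∈ S, (u x : ℂ) * ee (-((x : ℝ) * (k / K)))‖ ^ 2 = K * ∑ x ∈ S, u x ^ 2 := by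
  have h := corr_id S {0} u (fun _ => 1) K (by
    intro t ht x hx y hy
    rw [mem_singleton] at ht
    rw [ht]
    have := hK y hy x hx
    rwa [show (0 : ℤ) - x + y = y - x by ring])
  simp only [sum_singleton, Int.cast_zero, zero_mul, ee_zero, Complex.ofReal_one, one_mul, add_zero] at h
  have h2 : ∀ y ∈ S, ∑ x ∈ S, (if x = y then (u x : ℂ) * u y else 0) = (u y : ℂ) ^ 2 := by
    intro y hy
    rw [sum_ite_eq' S y, if_pos hy]; ring
  rw [sum_congr rfl h2] at h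
  exact_mod_cast h

/-- the normalised Dirichlet kernel, squared -/
noncomputable def DD (R L : ℕ) (θ : ℝ) : ℝ := ‖(1 / (L : ℂ)) * ∑ i ∈ range L, ee ((R * i : ℕ) * θ)‖ ^ 2

/-- the correlation inequality for finitely supported functions -/
lemma star (N R L : ℕ) (TW : Finset ℤ) (v W : ℤ → ℝ) (ε : ℝ)
    (hv : ∀ x, x ∉ Icc (1 : ℤ) N → v x = 0)
    (hW : ∀ t ∈ TW, 0 ≤ W t) (hW1 : ∑ t ∈ TW, W t = 1) (hε : 0 ≤ ε)
    (hWθ : ∀ θ : ℝ, ‖∑ t ∈ TW, (W t : ℂ) * ee ((t : ℝ) * θ)‖ ≤ ε ∨ 1 / 2 ≤ DD R L θ) :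
    |∑ t ∈ TW, W t * ∑ y ∈ Icc (1 : ℤ) N, v y * v (y + t)| ≤
      ε * ∑ y ∈ Icc (1 : ℤ) N, v y ^ 2 +
        2 * ∑ z ∈ Icc (1 - (R * L : ℤ)) N, ((1 / (L : ℝ)) * ∑ i ∈ range L, v (z + (R * i : ℕ))) ^ 2 := by
  classical
  set S : Finset ℤ := Icc (1 : ℤ) N with hS
  set S' : Finset ℤ := Icc (1 - (R * L : ℤ)) N with hS'
  obtain ⟨B, hB⟩ : ∃ B : ℕ, ∀ t ∈ TW, |t| ≤ B := by
    refine ⟨∑ t ∈ TW, t.natAbs, fun t ht => ?_⟩
    have h1 : t.natAbs ≤ ∑ t ∈ TW, t.natAbs := single_le_sum (f := fun t : ℤ => t.natAbs) (fun _ _ => Nat.zero_le _) ht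
    rw [Int.abs_eq_natAbs]; exact_mod_cast h1
  set K : ℕ := B + 2 * N + R * L + 2 with hK
  have hKpos : (0 : ℝ) < K := by rw [hK]; positivity
  have hKS : ∀ x ∈ S, ∀ y ∈ S, |x - y| < K := by
    intro x hx y hy
    rw [hS, mem_Icc] at hx hy
    rw [abs_lt, hK]; push_cast; constructor
    · have : (0 : ℤ) ≤ (R : ℤ) * L := by positivity
      omega
    · have : (0 : ℤ) ≤ (R : ℤ) * L := by positivity
      omega
  have hKS' : ∀ x ∈ S', ∀ y ∈ S', |x - y| < K := by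
    intro x hx y hy
    rw [hS', mem_Icc] at hx hy
    rw [abs_lt, hK]; push_cast; constructor
    · have : (0 : ℤ) ≤ (R : ℤ) * L := by positivity
      omega
    · have : (0 : ℤ) ≤ (R : ℤ) * L := by positivity
      omega
  have hKT : ∀ t ∈ TW, ∀ x ∈ S, ∀ y ∈ S, |t - x + y| < K := by
    intro t ht x hx y hy
    have h1 := hB t ht
    rw [hS, mem_Icc] at hx hy
    rw [abs_le] at h1
    rw [abs_lt, hK]; push_cast; constructor
    · have : (0 : ℤ) ≤ (R : ℤ) * L := by positivity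
      omega
    · have : (0 : ℤ) ≤ (R : ℤ) * L := by positivity
      omega
  -- the function V
  set V : ℕ → ℂ := fun k => ∑ x ∈ S, (v x : ℂ) * ee (-((x : ℝ) * (k / K))) with hV
  set u : ℤ → ℝ := fun z => (1 / (L : ℝ)) * ∑ i ∈ range L, v (z + (R * i : ℕ)) with hu
  have hc := corr_id S TW v W K hKT
  -- the right-hand side of corr_id
  have hsimp : ∀ t ∈ TW, ∀ y ∈ S, ∑ x ∈ S, (if x = y + t then (v x : ℂ) * v y else 0) = ((v y * v (y + t) : ℝ) : ℂ) := by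
    intro t _ y _
    rw [sum_ite_eq' S (y + t)]
    split_ifs with h
    · push_cast; ring
    · rw [hv _ h]; simp
  have hc2 : (K : ℂ) * ∑ t ∈ TW, (W t : ℂ) * ∑ y ∈ S, ∑ x ∈ S, (if x = y + t then (v x : ℂ) * v y else 0) =
      ((K * ∑ t ∈ TW, W t * ∑ y ∈ S, v y * v (y + t) : ℝ) : ℂ) := by
    push_cast
    congr 1
    apply sum_congr rfl; intro t ht
    congr 1
    apply sum_congr rfl; intro y hy
    rw [hsimp t ht y hy]; push_cast; ring
  rw [hc2] at hc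
  have hnorm := congrArg norm hc
  rw [Complex.norm_real, Real.norm_eq_abs, abs_mul, abs_of_pos hKpos] at hnorm
  have hDD : ∀ k ∈ range K, DD R L ((k : ℝ) / K) * ‖V k‖ ^ 2 = ‖∑ z ∈ S', (u z : ℂ) * ee (-((z : ℝ) * (k / K)))‖ ^ 2 := by
    intro k _
    rw [DD, ← mul_pow, ← norm_mul]
    congr 2
    have h1 : ∀ i ∈ range L, ee (((R * i : ℕ) : ℝ) * ((k : ℝ) / K)) * V k =
        ∑ z ∈ S', (v (z + (R * i : ℕ)) : ℂ) * ee (-((z : ℝ) * (k / K))) := by
      intro i hi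
      rw [mem_range] at hi
      rw [hV]; simp only
      rw [mul_sum]
      have hRi : (R : ℤ) * i ≤ R * L := by
        have : (i : ℤ) ≤ L := by exact_mod_cast hi.le
        exact mul_le_mul_of_nonneg_left this (by positivity)
      have hRi0 : (0 : ℤ) ≤ (R : ℤ) * i := by positivity
      have hsub : S.image (fun x => x - ((R * i : ℕ) : ℤ)) ⊆ S' := by
        intro z hz
        rw [mem_image] at hz
        obtain ⟨x, hx, rfl⟩ := hz
        rw [hS, mem_Icc] at hx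
        rw [hS', mem_Icc]
        push_cast
        constructor <;> omega
      rw [← sum_subset hsub]
      · rw [sum_image (by intro a _ b _ h; simpa using h)]
        apply sum_congr rfl; intro x _
        rw [sub_add_cancel, mul_comm, mul_assoc, ← ee_add]
        congr 2
        push_cast; ring
      · intro z _ hz
        have : v (z + (R * i : ℕ)) = 0 := by
          apply hv
          intro h
          apply hz
          rw [mem_image]
          exact ⟨_, h, by ring⟩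
        rw [this]; simp
    rw [mul_assoc, sum_mul, sum_congr rfl h1, sum_comm, mul_sum]
    apply sum_congr rfl; intro z _
    rw [hu]; simp only
    push_cast
    rw [← sum_mul]; ring
  have hpt : ∀ k ∈ range K, ‖(∑ t ∈ TW, (W t : ℂ) * ee ((t : ℝ) * (k / K))) *
      ((‖V k‖ ^ 2 : ℝ) : ℂ)‖ ≤ ε * ‖V k‖ ^ 2 + 2 * ‖∑ z ∈ S', (u z : ℂ) * ee (-((z : ℝ) * (k / K)))‖ ^ 2 := by
    intro k hk
    rw [norm_mul, Complex.norm_real, Real.norm_eq_abs, abs_of_nonneg (by positivity), ← hDD k hk]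
    rcases hWθ ((k : ℝ) / K) with h | h
    · have h1 : 0 ≤ DD R L ((k : ℝ) / K) * ‖V k‖ ^ 2 := by unfold DD; positivity
      have h2 := mul_le_mul_of_nonneg_right h (sq_nonneg ‖V k‖)
      linarith
    · have h3 : ‖∑ t ∈ TW, (W t : ℂ) * ee ((t : ℝ) * (k / K))‖ ≤ 1 := by
        refine (norm_sum_le _ _).trans ?_
        rw [← hW1]
        apply sum_le_sum; intro t ht
        rw [norm_mul, norm_ee, mul_one, Complex.norm_real, Real.norm_eq_abs, abs_of_nonneg (hW t ht)]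
      have h4 := mul_le_mul_of_nonneg_right h3 (sq_nonneg ‖V k‖)
      have h5 := mul_le_mul_of_nonneg_right h (sq_nonneg ‖V k‖)
      have h6 : 0 ≤ ε * ‖V k‖ ^ 2 := by positivity
      linarith
  have hfin : (K : ℝ) * |∑ t ∈ TW, W t * ∑ y ∈ S, v y * v (y + t)| ≤
      ε * (K * ∑ y ∈ S, v y ^ 2) + 2 * (K * ∑ z ∈ S', u z ^ 2) := by
    rw [← hnorm, ← parseval S v K hKS, ← parseval S' u K hKS', mul_sum, mul_sum, ← sum_add_distrib]
    exact (norm_sum_le _ _).trans (sum_le_sum hpt)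
  have : (K : ℝ) * |∑ t ∈ TW, W t * ∑ y ∈ S, v y * v (y + t)| ≤
      K * (ε * ∑ y ∈ S, v y ^ 2 + 2 * ∑ z ∈ S', u z ^ 2) := by linarith
  exact le_of_mul_le_mul_left this hKpos

end Pool.Agent.V11293.E70
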