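import Mathlib
import Pool.Agent.V11293.E70.Fourier

/-! Invariant means on bounded functions on the integers. -/

namespace Pool.Agent.V11293.E70
open Finset Filter Topology
open Pool.Agent.Helper602.MK (ee)

/-- bounded real functions on the integers -/
abbrev BF := BoundedContinuousFunction ℤ ℝ

/-- translation -/
noncomputable def sh (t : ℤ) (F : BF) : BF :=
  F.compContinuous ⟨fun x => x + t, continuous_of_discreteTopology⟩

@[simp] lemma sh_apply (t : ℤ) (F : BF) (x : ℤ) : sh t F x = F (x + t) := rfl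

/-- averages of translates by multiples of `R` -/
noncomputable def A (R L : ℕ) (v : BF) : BF := (1 / (L : ℝ)) • ∑ i ∈ range L, sh ((R * i : ℕ) : ℤ) v

lemma bf_sum_apply {ι : Type*} (s : Finset ι) (f : ι → BF) (x : ℤ) :
    (∑ i ∈ s, f i) x = ∑ i ∈ s, f i x := by
  classical
  induction s using Finset.induction_on with
  | empty => simp
  | insert a s ha ih => rw [sum_insert ha, sum_insert ha, BoundedContinuousFunction.add_apply, ih]

lemma A_apply (R L : ℕ) (v : BF) (x : ℤ) :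
    A R L v x = (1 / (L : ℝ)) * ∑ i ∈ range L, v (x + (R * i : ℕ)) := by
  unfold A
  rw [BoundedContinuousFunction.smul_apply, bf_sum_apply, smul_eq_mul]
  rfl

/-- the properties of a mean that are used -/
structure IsMean (M : BF →ₗ[ℝ] ℝ) : Prop where
  pos : ∀ F : BF, (∀ x, 0 ≤ F x) → 0 ≤ M F
  one : M 1 = 1
  shift : ∀ (t : ℤ) (F : BF), M (sh t F) = M F
  star : ∀ (R L : ℕ) (TW : Finset ℤ) (W : ℤ → ℝ) (ε : ℝ) (v : BF),
    (∀ t ∈ TW, 0 ≤ W t) → ∑ t ∈ TW, W t = 1 → 0 ≤ ε →
    (∀ θ : ℝ, ‖∑ t ∈ TW, (W t : ℂ) * ee ((t : ℝ) * θ)‖ ≤ ε ∨ 1 / 2 ≤ DD R L θ) →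
    |∑ t ∈ TW, W t * M (v * sh t v)| ≤ ε * M (v * v) + 2 * M (A R L v * A R L v)

/-- averages over `1, ..., N` -/
noncomputable def avg (N : ℕ) (F : BF) : ℝ := (1 / (N : ℝ)) * ∑ n ∈ range N, F ((n : ℤ) + 1)

lemma sum_Icc_range (N : ℕ) (f : ℤ → ℝ) : ∑ y ∈ Icc (1 : ℤ) N, f y = ∑ n ∈ range N, f ((n : ℤ) + 1) := by
  symm
  apply sum_bij (fun (n : ℕ) _ => (n : ℤ) + 1)
  · intro n hn; rw [mem_range] at hn; rw [mem_Icc]; omega
  · intro a _ b _ h; simpa using h
  · intro b hb
    rw [mem_Icc] at hb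
    exact ⟨(b - 1).toNat, by rw [mem_range]; omega, by omega⟩
  · intro n _; rfl

lemma avg_abs_le (N : ℕ) (F : BF) : |avg N F| ≤ ‖F‖ := by
  unfold avg
  rcases Nat.eq_zero_or_pos N with h | h
  · subst h; simp
  · have hN : (0 : ℝ) < N := by exact_mod_cast h
    rw [abs_mul, abs_of_nonneg (by positivity)]
    have : |∑ n ∈ range N, F ((n : ℤ) + 1)| ≤ N * ‖F‖ := by
      refine (abs_sum_le_sum_abs _ _).trans ?_
      calc ∑ n ∈ range N, |F ((n : ℤ) + 1)| ≤ ∑ _n ∈ range N, ‖F‖ := by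
            apply sum_le_sum; intro n _
            exact F.norm_coe_le_norm _
        _ = N * ‖F‖ := by simp
    calc 1 / (N : ℝ) * |∑ n ∈ range N, F ((n : ℤ) + 1)| ≤ 1 / (N : ℝ) * (N * ‖F‖) :=
          mul_le_mul_of_nonneg_left this (by positivity)
      _ = ‖F‖ := by field_simp

lemma avg_add (N : ℕ) (F G : BF) : avg N (F + G) = avg N F + avg N G := by
  unfold avg
  simp only [BoundedContinuousFunction.add_apply, sum_add_distrib]
  ring

lemma avg_smul (N : ℕ) (c : ℝ) (F : BF) : avg N (c • F) = c * avg N F := by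
  unfold avg
  simp only [BoundedContinuousFunction.smul_apply, smul_eq_mul, ← mul_sum]
  ring

/-- the finite version of the correlation inequality -/
lemma star_avg (R L : ℕ) (TW : Finset ℤ) (W : ℤ → ℝ) (ε : ℝ) (v : BF)
    (hW : ∀ t ∈ TW, 0 ≤ W t) (hW1 : ∑ t ∈ TW, W t = 1) (hε : 0 ≤ ε)
    (hWθ : ∀ θ : ℝ, ‖∑ t ∈ TW, (W t : ℂ) * ee ((t : ℝ) * θ)‖ ≤ ε ∨ 1 / 2 ≤ DD R L θ) (N : ℕ) (hN : 1 ≤ N) :
    |∑ t ∈ TW, W t * avg N (v * sh t v)| ≤ ε * avg N (v * v) + 2 * avg N (A R L v * A R L v) +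
      ((∑ t ∈ TW, W t * |(t : ℝ)|) + 4 * R * L) * ‖v‖ ^ 2 / N := by
  classical
  have hN0 : (0 : ℝ) < N := by exact_mod_cast hN
  set B := ‖v‖ with hB
  have hvB : ∀ x, |v x| ≤ B := fun x => v.norm_coe_le_norm x
  have hB0 : 0 ≤ B := norm_nonneg _
  set vN : ℤ → ℝ := fun x => if x ∈ Icc (1 : ℤ) N then v x else 0 with hvN
  have hvNB : ∀ x, |vN x| ≤ B := by
    intro x
    simp only [hvN]
    split_ifs
    · exact hvB x
    · simpa using hB0
  have hs := star N R L TW vN W ε (by intro x hx; simp only [hvN]; rw [if_neg hx]) hW hW1 hε hWθ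
  -- first term
  have h1 : ∀ t ∈ TW, |∑ y ∈ Icc (1 : ℤ) N, vN y * vN (y + t) - N * avg N (v * sh t v)| ≤ |(t : ℝ)| * B ^ 2 := by
    intro t _
    have e1 : (N : ℝ) * avg N (v * sh t v) = ∑ y ∈ Icc (1 : ℤ) N, v y * v (y + t) := by
      unfold avg
      rw [sum_Icc_range N (fun y => v y * v (y + t)), ← mul_assoc, mul_one_div_cancel hN0.ne', one_mul]
      rfl
    rw [e1, ← sum_sub_distrib]
    have e2 : ∀ y ∈ Icc (1 : ℤ) N, |vN y * vN (y + t) - v y * v (y + t)| ≤
        if y ∈ Icc 1 (-t) ∪ Icc (N - t + 1) (N : ℤ) then B ^ 2 else 0 := by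
      intro y hy
      have hvy : vN y = v y := by simp only [hvN]; rw [if_pos hy]
      rw [hvy]
      by_cases h : y ∈ Icc 1 (-t) ∪ Icc (N - t + 1) (N : ℤ)
      swap
      · rw [if_neg h]
        have : y + t ∈ Icc (1 : ℤ) N := by
          rw [mem_union, mem_Icc, mem_Icc, not_or] at h
          rw [mem_Icc] at hy ⊢
          omega
        have : vN (y + t) = v (y + t) := by simp only [hvN]; rw [if_pos this]
        rw [this]; simp
      · rw [if_pos h]
        by_cases h2 : y + t ∈ Icc (1 : ℤ) N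
        · have : vN (y + t) = v (y + t) := by simp only [hvN]; rw [if_pos h2]
          rw [this, sub_self, abs_zero]; positivity
        · have : vN (y + t) = 0 := by simp only [hvN]; rw [if_neg h2]
          rw [this, mul_zero, zero_sub, abs_neg, abs_mul, sq]
          exact mul_le_mul (hvB _) (hvB _) (abs_nonneg _) hB0
    refine (abs_sum_le_sum_abs _ _).trans ((sum_le_sum e2).trans ?_)
    rw [← sum_filter, sum_const, nsmul_eq_mul]
    apply mul_le_mul_of_nonneg_right _ (by positivity)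
    have e3 : ((Icc (1 : ℤ) N).filter (fun y => y ∈ Icc 1 (-t) ∪ Icc (N - t + 1) (N : ℤ))).card ≤ t.natAbs := by
      calc _ ≤ (Icc 1 (-t) ∪ Icc (N - t + 1) (N : ℤ)).card := card_le_card (by
              intro y hy; rw [mem_filter] at hy; exact hy.2)
        _ ≤ (Icc 1 (-t)).card + (Icc (N - t + 1) (N : ℤ)).card := card_union_le _ _
        _ ≤ t.natAbs := by rw [Int.card_Icc, Int.card_Icc]; omega
    have e4 : |(t : ℝ)| = (t.natAbs : ℝ) := by
      rw [Nat.cast_natAbs]; push_cast; rfl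
    rw [e4]; exact_mod_cast e3
  -- second
  have h2 : ∑ y ∈ Icc (1 : ℤ) N, vN y ^ 2 = N * avg N (v * v) := by
    unfold avg
    rw [← mul_assoc, mul_one_div_cancel hN0.ne', one_mul, sum_Icc_range N (fun y => vN y ^ 2)]
    apply sum_congr rfl; intro n hn
    rw [mem_range] at hn
    have : vN ((n : ℤ) + 1) = v ((n : ℤ) + 1) := by
      simp only [hvN]; rw [if_pos]; rw [mem_Icc]; omega
    rw [this, sq]; rfl
  -- third
  have h3 : ∑ z ∈ Icc (1 - (R * L : ℤ)) N, ((1 / (L : ℝ)) * ∑ i ∈ range L, vN (z + (R * i : ℕ))) ^ 2 ≤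
      N * avg N (A R L v * A R L v) + 2 * R * L * B ^ 2 := by
    have e0 : (N : ℝ) * avg N (A R L v * A R L v) = ∑ z ∈ Icc (1 : ℤ) N, (A R L v z) ^ 2 := by
      unfold avg
      rw [← mul_assoc, mul_one_div_cancel hN0.ne', one_mul, sum_Icc_range N (fun y => (A R L v y) ^ 2)]
      apply sum_congr rfl; intro n _
      rw [sq]; rfl
    rw [e0]
    have e1 : ∀ z, ((1 / (L : ℝ)) * ∑ i ∈ range L, vN (z + (R * i : ℕ))) ^ 2 ≤ B ^ 2 := by
      intro z
      apply sq_le_sq'
      · have := abs_le.1 (show |(1 / (L : ℝ)) * ∑ i ∈ range L, vN (z + (R * i : ℕ))| ≤ B from ?_)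
        · exact this.1
        · rw [abs_mul, abs_of_nonneg (by positivity)]
          rcases Nat.eq_zero_or_pos L with h | h
          · subst h; simpa using hB0
          · have hL : (0 : ℝ) < L := by exact_mod_cast h
            calc 1 / (L : ℝ) * |∑ i ∈ range L, vN (z + (R * i : ℕ))| ≤ 1 / (L : ℝ) * ∑ i ∈ range L, B := by
                  apply mul_le_mul_of_nonneg_left _ (by positivity)
                  exact (abs_sum_le_sum_abs _ _).trans (sum_le_sum fun i _ => hvNB _)
              _ = B := by rw [sum_const, card_range, nsmul_eq_mul]; field_simp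
      · have := abs_le.1 (show |(1 / (L : ℝ)) * ∑ i ∈ range L, vN (z + (R * i : ℕ))| ≤ B from ?_)
        · exact this.2
        · rw [abs_mul, abs_of_nonneg (by positivity)]
          rcases Nat.eq_zero_or_pos L with h | h
          · subst h; simpa using hB0
          · have hL : (0 : ℝ) < L := by exact_mod_cast h
            calc 1 / (L : ℝ) * |∑ i ∈ range L, vN (z + (R * i : ℕ))| ≤ 1 / (L : ℝ) * ∑ i ∈ range L, B := by
                  apply mul_le_mul_of_nonneg_left _ (by positivity)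
                  exact (abs_sum_le_sum_abs _ _).trans (sum_le_sum fun i _ => hvNB _)
              _ = B := by rw [sum_const, card_range, nsmul_eq_mul]; field_simp
    have e2 : ∀ z ∈ Icc (1 - (R * L : ℤ)) N, ((1 / (L : ℝ)) * ∑ i ∈ range L, vN (z + (R * i : ℕ))) ^ 2 ≤
        (if z ∈ Icc (1 : ℤ) N then (A R L v z) ^ 2 else 0) +
        (if z ∈ Icc (1 - (R * L : ℤ)) 0 ∪ Icc (N - R * L + 1 : ℤ) N then B ^ 2 else 0) := by
      intro z hz
      by_cases hz2 : z ∈ Icc (1 - (R * L : ℤ)) 0 ∪ Icc (N - R * L + 1 : ℤ) N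
      · rw [if_pos hz2]
        have := e1 z
        split_ifs
        · have := sq_nonneg (A R L v z); linarith
        · linarith
      · rw [if_neg hz2, add_zero]
        rw [mem_union, mem_Icc, mem_Icc, not_or] at hz2
        rw [mem_Icc] at hz
        rw [if_pos (by rw [mem_Icc]; omega), A_apply]
        apply le_of_eq
        congr 2
        apply sum_congr rfl; intro i hi
        rw [mem_range] at hi
        have hRi : (R : ℤ) * i ≤ R * L := by
          have : (i : ℤ) ≤ L := by exact_mod_cast hi.le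
          exact mul_le_mul_of_nonneg_left this (by positivity)
        have hRi0 : (0 : ℤ) ≤ (R : ℤ) * i := by positivity
        simp only [hvN]
        rw [if_pos]
        rw [mem_Icc]; push_cast; constructor <;> omega
    refine (sum_le_sum e2).trans ?_
    rw [sum_add_distrib]
    apply add_le_add
    · rw [← sum_filter]
      apply sum_le_sum_of_subset_of_nonneg
      · intro z hz; rw [mem_filter] at hz; exact hz.2
      · intro z _ _; positivity
    · rw [← sum_filter, sum_const, nsmul_eq_mul]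
      apply mul_le_mul_of_nonneg_right _ (by positivity)
      have e3 : ((Icc (1 - (R * L : ℤ)) N).filter (fun z => z ∈ Icc (1 - (R * L : ℤ)) 0 ∪ Icc (N - R * L + 1 : ℤ) N)).card ≤ 2 * (R * L) := by
        calc _ ≤ (Icc (1 - (R * L : ℤ)) 0 ∪ Icc (N - R * L + 1 : ℤ) N).card := card_le_card (by
                intro y hy; rw [mem_filter] at hy; exact hy.2)
          _ ≤ (Icc (1 - (R * L : ℤ)) 0).card + (Icc (N - R * L + 1 : ℤ) N).card := card_union_le _ _
          _ ≤ 2 * (R * L) := by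
            rw [Int.card_Icc, Int.card_Icc]
            have : ((R * L : ℕ) : ℤ) = (R : ℤ) * L := by push_cast; ring
            omega
      calc _ ≤ ((2 * (R * L) : ℕ) : ℝ) := Nat.cast_le.2 e3
        _ = _ := by push_cast; ring
  -- conclusion
  have h4 : |∑ t ∈ TW, W t * (N * avg N (v * sh t v))| ≤
      |∑ t ∈ TW, W t * ∑ y ∈ Icc (1 : ℤ) N, vN y * vN (y + t)| + (∑ t ∈ TW, W t * |(t : ℝ)|) * B ^ 2 := by
    have e1 : ∑ t ∈ TW, W t * (N * avg N (v * sh t v)) = ∑ t ∈ TW, W t * ∑ y ∈ Icc (1 : ℤ) N, vN y * vN (y + t) -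
        ∑ t ∈ TW, W t * (∑ y ∈ Icc (1 : ℤ) N, vN y * vN (y + t) - N * avg N (v * sh t v)) := by
      rw [← sum_sub_distrib]
      apply sum_congr rfl; intro t _; ring
    rw [e1]
    refine (abs_sub _ _).trans ?_
    apply add_le_add le_rfl
    rw [sum_mul]
    refine (abs_sum_le_sum_abs _ _).trans (sum_le_sum fun t ht => ?_)
    rw [abs_mul, abs_of_nonneg (hW t ht), mul_assoc]
    exact mul_le_mul_of_nonneg_left (h1 t ht) (hW t ht)
  have h5 : (N : ℝ) * |∑ t ∈ TW, W t * avg N (v * sh t v)| = |∑ t ∈ TW, W t * (N * avg N (v * sh t v))| := by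
    rw [← abs_of_pos hN0, ← abs_mul, abs_of_pos hN0, mul_sum]
    congr 1
    apply sum_congr rfl; intro t _; ring
  rw [h2] at hs
  have h6 : (N : ℝ) * |∑ t ∈ TW, W t * avg N (v * sh t v)| ≤
      N * (ε * avg N (v * v) + 2 * avg N (A R L v * A R L v) +
      ((∑ t ∈ TW, W t * |(t : ℝ)|) + 4 * R * L) * B ^ 2 / N) := by
    have e1 : N * (ε * avg N (v * v) + 2 * avg N (A R L v * A R L v) +
      ((∑ t ∈ TW, W t * |(t : ℝ)|) + 4 * R * L) * B ^ 2 / N) =
        ε * (N * avg N (v * v)) + 2 * (N * avg N (A R L v * A R L v)) + ((∑ t ∈ TW, W t * |(t : ℝ)|) + 4 * R * L) * B ^ 2 := by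
      field_simp
    rw [e1, h5]
    linarith
  exact le_of_mul_le_mul_left h6 hN0

end Pool.Agent.V11293.E70
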