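import Mathlib
import Pool.Agent.V11293.E70.Mean

/-! Energies of a bounded function along the multiples of `Q`, and the key correlation estimate. -/

namespace Pool.Agent.V11293.E70
open Finset Filter Topology
open Pool.Agent.Helper602.MK (ee)

/-- the class of `c` modulo `Q` is rich in `X`: it carries weights with small Fourier
coefficients away from the rationals with denominator `R` -/
def Rich (X : Set ℤ) (Q : ℕ) (c : ℤ) : Prop := ∀ ε : ℝ, 0 < ε → ∃ R : ℕ, 1 ≤ R ∧ Q ∣ R ∧ ∀ L₀ : ℕ, ∃ L : ℕ,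
  L₀ ≤ L ∧ ∃ (TW : Finset ℤ) (W : ℤ → ℝ), (∀ t ∈ TW, 0 ≤ W t) ∧ ∑ t ∈ TW, W t = 1 ∧
    (∀ t ∈ TW, t ∈ X ∧ t ≠ 0 ∧ (Q : ℤ) ∣ t - c) ∧
    ∀ θ : ℝ, ‖∑ t ∈ TW, (W t : ℂ) * ee ((t : ℝ) * θ)‖ ≤ ε ∨ 1 / 2 ≤ DD R L θ

/-- convex combinations of translates by multiples of `Q` -/
def CH (Q : ℕ) (a : BF) : Set BF := convexHull ℝ (Set.range (fun j : ℕ => sh ((Q * j : ℕ) : ℤ) a))

/-- energy -/
noncomputable def en (M : BF →ₗ[ℝ] ℝ) (a : BF) (Q : ℕ) : ℝ := sInf ((fun v => M (v * v)) '' CH Q a)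

lemma sh_add (t : ℤ) (F G : BF) : sh t (F + G) = sh t F + sh t G := by ext x; simp
lemma sh_sub (t : ℤ) (F G : BF) : sh t (F - G) = sh t F - sh t G := by ext x; simp
lemma sh_mul (t : ℤ) (F G : BF) : sh t (F * G) = sh t F * sh t G := by ext x; simp
lemma sh_smul (t : ℤ) (c : ℝ) (F : BF) : sh t (c • F) = c • sh t F := by ext x; simp
lemma sh_sh (s t : ℤ) (F : BF) : sh s (sh t F) = sh (s + t) F := by
  ext x; simp only [sh_apply]; congr 1; ring
lemma sh_zero (F : BF) : sh 0 F = F := by ext x; simp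

lemma A_add (R L : ℕ) (F G : BF) : A R L (F + G) = A R L F + A R L G := by
  ext x; simp only [A_apply, BoundedContinuousFunction.add_apply, sum_add_distrib]; ring
lemma A_sub (R L : ℕ) (F G : BF) : A R L (F - G) = A R L F - A R L G := by
  ext x; simp only [A_apply, BoundedContinuousFunction.sub_apply, sum_sub_distrib]; ring

variable {M : BF →ₗ[ℝ] ℝ}

lemma IsMean.mono (hM : IsMean M) {F G : BF} (h : ∀ x, F x ≤ G x) : M F ≤ M G := by
  have := hM.pos (G - F) (fun x => by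
    rw [BoundedContinuousFunction.sub_apply]; linarith [h x])
  rw [map_sub] at this; linarith

lemma IsMean.sq_nonneg (hM : IsMean M) (F : BF) : 0 ≤ M (F * F) :=
  hM.pos _ (fun x => mul_self_nonneg _)

lemma IsMean.sh_mul_sh (hM : IsMean M) (t : ℤ) (F G : BF) : M (sh t F * sh t G) = M (F * G) := by
  rw [← sh_mul, hM.shift]

/-- Cauchy-Schwarz -/
lemma IsMean.cs (hM : IsMean M) (F G : BF) : M (F * G) ^ 2 ≤ M (F * F) * M (G * G) := by
  have h : ∀ t : ℝ, 0 ≤ M (G * G) * (t * t) + (2 * M (F * G)) * t + M (F * F) := by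
    intro t
    have h1 := hM.sq_nonneg (t • G + F)
    have h2 : (t • G + F) * (t • G + F) = (t * t) • (G * G) + (2 * t) • (F * G) + F * F := by
      ext x
      simp only [BoundedContinuousFunction.mul_apply, BoundedContinuousFunction.add_apply,
        BoundedContinuousFunction.smul_apply, smul_eq_mul]
      ring
    rw [h2, map_add, map_add, map_smul, map_smul, smul_eq_mul, smul_eq_mul] at h1
    linarith
  have := discrim_le_zero h
  unfold discrim at this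
  nlinarith

lemma IsMean.cs_le (hM : IsMean M) {F G : BF} {ρ : ℝ} (hρ : 0 ≤ ρ) (hF : M (F * F) ≤ ρ ^ 2)
    (hG : M (G * G) ≤ 1) : |M (F * G)| ≤ ρ := by
  apply abs_le_of_sq_le_sq _ hρ
  refine (hM.cs F G).trans ?_
  calc M (F * F) * M (G * G) ≤ ρ ^ 2 * 1 := mul_le_mul hF hG (hM.sq_nonneg _) (by positivity)
    _ = ρ ^ 2 := mul_one _

lemma IsMean.le_one (hM : IsMean M) {F : BF} (h : ∀ x, F x ≤ 1) : M F ≤ 1 := by
  rw [← hM.one]; exact hM.mono (fun x => by simpa using h x)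

lemma IsMean.parallelogram (_hM : IsMean M) (u v : BF) :
    M ((u - v) * (u - v)) = 2 * M (u * u) + 2 * M (v * v) - M ((u + v) * (u + v)) := by
  have h2 : (u - v) * (u - v) = (2 : ℝ) • (u * u) + (2 : ℝ) • (v * v) - (u + v) * (u + v) := by
    ext x
    simp only [BoundedContinuousFunction.mul_apply, BoundedContinuousFunction.add_apply,
      BoundedContinuousFunction.sub_apply, BoundedContinuousFunction.smul_apply, smul_eq_mul]
    ring
  rw [h2, map_sub, map_add, map_smul, map_smul, smul_eq_mul, smul_eq_mul]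

lemma IsMean.sq_add_le (hM : IsMean M) (u v : BF) :
    M ((u + v) * (u + v)) ≤ 2 * M (u * u) + 2 * M (v * v) := by
  have := hM.parallelogram u v
  have := hM.sq_nonneg (u - v)
  linarith

section
variable {a : BF}

lemma CH_bd (ha : ∀ x, 0 ≤ a x ∧ a x ≤ 1) {Q : ℕ} {w : BF} (hw : w ∈ CH Q a) :
    ∀ x, 0 ≤ w x ∧ w x ≤ 1 := by
  have h : CH Q a ⊆ {w : BF | ∀ x, 0 ≤ w x ∧ w x ≤ 1} := by
    apply convexHull_min
    · rintro _ ⟨j, rfl⟩ x
      exact ha _
    · intro u hu v hv s t hs ht hst x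
      simp only [BoundedContinuousFunction.add_apply, BoundedContinuousFunction.smul_apply, smul_eq_mul]
      obtain ⟨h1, h2⟩ := hu x
      obtain ⟨h3, h4⟩ := hv x
      constructor
      · positivity
      · calc s * u x + t * v x ≤ s * 1 + t * 1 := by gcongr
          _ = 1 := by linarith
  exact h hw

lemma CH_convex (Q : ℕ) (a : BF) : Convex ℝ (CH Q a) := convex_convexHull _ _

lemma mem_CH (Q : ℕ) (a : BF) (j : ℕ) : sh ((Q * j : ℕ) : ℤ) a ∈ CH Q a :=
  subset_convexHull _ _ ⟨j, rfl⟩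

lemma CH_mono {Q R : ℕ} (h : Q ∣ R) (a : BF) : CH R a ⊆ CH Q a := by
  apply convexHull_mono
  rintro _ ⟨j, rfl⟩
  obtain ⟨c, rfl⟩ := h
  exact ⟨c * j, by simp only [mul_assoc]⟩

lemma sh_mem_CH {Q : ℕ} {w : BF} (i : ℕ) (hw : w ∈ CH Q a) : sh ((Q * i : ℕ) : ℤ) w ∈ CH Q a := by
  have h : CH Q a ⊆ {w : BF | sh ((Q * i : ℕ) : ℤ) w ∈ CH Q a} := by
    apply convexHull_min
    · rintro _ ⟨j, rfl⟩
      simp only [Set.mem_ofPred_eq]
      rw [sh_sh]
      have := mem_CH Q a (i + j)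
      convert this using 2
      push_cast; ring
    · intro u hu v hv s t hs ht hst
      simp only [Set.mem_ofPred_eq] at hu hv ⊢
      rw [sh_add, sh_smul, sh_smul]
      exact CH_convex Q a hu hv hs ht hst
  exact h hw

lemma A_mem_CH {Q R L : ℕ} (hL : 1 ≤ L) (h : Q ∣ R) {w : BF} (hw : w ∈ CH Q a) : A R L w ∈ CH Q a := by
  unfold A
  rw [smul_sum]
  have hL0 : (0 : ℝ) < L := by exact_mod_cast hL
  apply (CH_convex Q a).sum_mem
  · intro i _; positivity
  · rw [sum_const, card_range, nsmul_eq_mul]; field_simp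
  · intro i _
    obtain ⟨c, rfl⟩ := h
    have := sh_mem_CH (a := a) (c * i) hw
    rwa [← mul_assoc] at this

lemma self_mem_CH (Q : ℕ) (a : BF) : a ∈ CH Q a := by
  have := mem_CH Q a 0
  simpa [sh_zero] using this

lemma A_mem (Q : ℕ) {L : ℕ} (hL : 1 ≤ L) (a : BF) : A Q L a ∈ CH Q a :=
  A_mem_CH hL dvd_rfl (self_mem_CH Q a)

lemma en_le (hM : IsMean M) {Q : ℕ} {w : BF} (hw : w ∈ CH Q a) : en M a Q ≤ M (w * w) := by
  apply csInf_le
  · refine ⟨0, ?_⟩
    rintro _ ⟨v, _, rfl⟩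
    exact hM.sq_nonneg v
  · exact ⟨w, hw, rfl⟩

lemma en_nonneg (hM : IsMean M) (Q : ℕ) : 0 ≤ en M a Q := by
  apply Real.sInf_nonneg
  rintro _ ⟨v, _, rfl⟩
  exact hM.sq_nonneg v

lemma en_mono (hM : IsMean M) {Q R : ℕ} (h : Q ∣ R) : en M a Q ≤ en M a R := by
  apply csInf_le_csInf
  · refine ⟨0, ?_⟩
    rintro _ ⟨v, _, rfl⟩
    exact hM.sq_nonneg v
  · exact ⟨_, a, self_mem_CH R a, rfl⟩
  · exact Set.image_mono (CH_mono h a)

lemma en_le_one (hM : IsMean M) (ha : ∀ x, 0 ≤ a x ∧ a x ≤ 1) (Q : ℕ) : en M a Q ≤ 1 := by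
  refine (en_le hM (self_mem_CH Q a)).trans (hM.le_one fun x => ?_)
  have := ha x
  simp only [BoundedContinuousFunction.mul_apply]
  nlinarith

lemma A_sq_le (hM : IsMean M) (R : ℕ) {L : ℕ} (hL : 1 ≤ L) (w : BF) :
    M (A R L w * A R L w) ≤ M (w * w) := by
  have hL0 : (0 : ℝ) < L := by exact_mod_cast hL
  have h1 : M (A R L (w * w)) = M (w * w) := by
    unfold A
    rw [map_smul, map_sum]
    simp_rw [hM.shift]
    rw [sum_const, card_range, nsmul_eq_mul, smul_eq_mul]; field_simp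
  rw [← h1]
  apply hM.mono
  intro x
  simp only [BoundedContinuousFunction.mul_apply, A_apply]
  have h2 := sq_sum_le_card_mul_sum_sq (s := range L) (f := fun i => w (x + (R * i : ℕ)))
  rw [card_range] at h2
  calc (1 / (L : ℝ) * ∑ i ∈ range L, w (x + (R * i : ℕ))) * (1 / (L : ℝ) * ∑ i ∈ range L, w (x + (R * i : ℕ)))
      = (1 / (L : ℝ)) ^ 2 * (∑ i ∈ range L, w (x + (R * i : ℕ))) ^ 2 := by ring
    _ ≤ (1 / (L : ℝ)) ^ 2 * (L * ∑ i ∈ range L, w (x + (R * i : ℕ)) ^ 2) := by gcongr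
    _ = 1 / (L : ℝ) * ∑ i ∈ range L, w (x + (R * i : ℕ)) * w (x + (R * i : ℕ)) := by
        simp_rw [sq]
        field_simp

/-- averages of elements of the convex hull are asymptotically the averages of `a` -/
lemma A_close (ha : ∀ x, 0 ≤ a x ∧ a x ≤ 1) {Q : ℕ} {w : BF} (hw : w ∈ CH Q a) :
    ∀ ε : ℝ, 0 < ε → ∃ N₀ : ℕ, ∀ L : ℕ, N₀ ≤ L → ∀ x, |A Q L a x - A Q L w x| ≤ ε := by
  have h : CH Q a ⊆ {w : BF | ∀ ε : ℝ, 0 < ε → ∃ N₀ : ℕ, ∀ L : ℕ, N₀ ≤ L → ∀ x, |A Q L a x - A Q L w x| ≤ ε} := by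
    apply convexHull_min
    · rintro _ ⟨j, rfl⟩ ε hε
      obtain ⟨N₀, hN₀⟩ := exists_nat_gt (2 * j / ε)
      refine ⟨N₀ + 1, fun L hL x => ?_⟩
      have hL0 : (0 : ℝ) < L := by exact_mod_cast (by omega : 0 < L)
      have hLε : 2 * j ≤ ε * L := by
        have h1 : (N₀ : ℝ) ≤ L := by exact_mod_cast (by omega : N₀ ≤ L)
        have h2 : 2 * (j : ℝ) / ε < L := by linarith
        rw [div_lt_iff₀ hε] at h2; linarith
      rw [A_apply, A_apply]
      simp only [sh_apply]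
      rw [← mul_sub, abs_mul, abs_of_nonneg (by positivity)]
      have key : ∀ j : ℕ, |∑ i ∈ range L, a (x + (Q * i : ℕ)) - ∑ i ∈ range L, a (x + (Q * i : ℕ) + ((Q * j : ℕ) : ℤ))| ≤ 2 * j := by
        intro j
        have e1 : ∑ i ∈ range L, a (x + (Q * i : ℕ) + ((Q * j : ℕ) : ℤ)) = ∑ i ∈ range L, a (x + (Q * (j + i) : ℕ)) := by
          apply sum_congr rfl; intro i _; congr 1; push_cast; ring
        rw [e1]
        have e2 := sum_range_add (fun i => a (x + (Q * i : ℕ))) j L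
        have e3 := sum_range_add (fun i => a (x + (Q * i : ℕ))) L j
        rw [add_comm L j] at e3
        have hb : ∀ (f : ℕ → ℤ), |∑ i ∈ range j, a (f i)| ≤ j := by
          intro f
          refine (abs_sum_le_sum_abs _ _).trans ?_
          calc ∑ i ∈ range j, |a (f i)| ≤ ∑ _i ∈ range j, (1 : ℝ) := by
                apply sum_le_sum; intro i _
                rw [abs_of_nonneg (ha _).1]; exact (ha _).2
            _ = j := by simp
        have h4 := hb (fun i => x + (Q * i : ℕ))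
        have h5 := hb (fun i => x + (Q * (L + i) : ℕ))
        have : ∑ i ∈ range L, a (x + (Q * i : ℕ)) - ∑ i ∈ range L, a (x + (Q * (j + i) : ℕ)) =
            ∑ i ∈ range j, a (x + (Q * i : ℕ)) - ∑ i ∈ range j, a (x + (Q * (L + i) : ℕ)) := by
          linarith
        rw [this]
        refine (abs_sub _ _).trans ?_
        linarith
      calc 1 / (L : ℝ) * |∑ i ∈ range L, a (x + (Q * i : ℕ)) - ∑ i ∈ range L, a (x + (Q * i : ℕ) + ((Q * j : ℕ) : ℤ))|
          ≤ 1 / (L : ℝ) * (2 * j) := mul_le_mul_of_nonneg_left (key j) (by positivity)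
        _ ≤ 1 / (L : ℝ) * (ε * L) := mul_le_mul_of_nonneg_left hLε (by positivity)
        _ = ε := by field_simp
    · intro u hu v hv s t hs ht hst ε hε
      obtain ⟨N1, h1⟩ := hu ε hε
      obtain ⟨N2, h2⟩ := hv ε hε
      refine ⟨max N1 N2, fun L hL x => ?_⟩
      have h1 := h1 L (le_trans (le_max_left _ _) hL) x
      have h2 := h2 L (le_trans (le_max_right _ _) hL) x
      have e : A Q L a x - A Q L (s • u + t • v) x = s * (A Q L a x - A Q L u x) + t * (A Q L a x - A Q L v x) := by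
        have e1 : A Q L (s • u + t • v) x = s * A Q L u x + t * A Q L v x := by
          simp only [A_apply, BoundedContinuousFunction.add_apply, BoundedContinuousFunction.smul_apply, smul_eq_mul,
            sum_add_distrib, ← mul_sum]
          ring
        rw [e1]
        have : A Q L a x = (s + t) * A Q L a x := by rw [hst, one_mul]
        linarith
      rw [e]
      refine (abs_add_le _ _).trans ?_
      rw [abs_mul, abs_mul, abs_of_nonneg hs, abs_of_nonneg ht]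
      calc s * |A Q L a x - A Q L u x| + t * |A Q L a x - A Q L v x| ≤ s * ε + t * ε := by gcongr
        _ = ε := by rw [← add_mul, hst, one_mul]
  exact h hw

lemma en_upper (hM : IsMean M) (ha : ∀ x, 0 ≤ a x ∧ a x ≤ 1) (Q : ℕ) (η : ℝ) (hη : 0 < η) :
    ∃ L₀ : ℕ, 1 ≤ L₀ ∧ ∀ L : ℕ, L₀ ≤ L → M (A Q L a * A Q L a) ≤ en M a Q + η := by
  obtain ⟨_, ⟨w, hw, rfl⟩, hw2⟩ := exists_lt_of_csInf_lt (s := (fun v => M (v * v)) '' CH Q a)
    ⟨_, a, self_mem_CH Q a, rfl⟩ (show sInf ((fun v => M (v * v)) '' CH Q a) < en M a Q + η / 2 by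
      unfold en; linarith)
  simp only at hw2
  obtain ⟨N₀, hN₀⟩ := A_close ha hw (η / 4) (by linarith)
  refine ⟨N₀ + 1, by omega, fun L hL => ?_⟩
  have hL1 : 1 ≤ L := by omega
  have h1 := hN₀ L (by omega)
  have h2 := A_sq_le hM Q hL1 w
  have h3 : M (A Q L a * A Q L a) ≤ M (A Q L w * A Q L w) + η / 2 := by
    have e : M (A Q L w * A Q L w) + η / 2 = M (A Q L w * A Q L w + (η / 2) • (1 : BF)) := by
      rw [map_add, map_smul, hM.one, smul_eq_mul, mul_one]
    rw [e]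
    apply hM.mono
    intro x
    simp only [BoundedContinuousFunction.mul_apply, BoundedContinuousFunction.add_apply,
      BoundedContinuousFunction.smul_apply, smul_eq_mul, BoundedContinuousFunction.coe_one, Pi.one_apply, mul_one]
    have h4 := h1 x
    obtain ⟨h5, h6⟩ := CH_bd ha (A_mem Q hL1 a) x
    obtain ⟨h7, h8⟩ := CH_bd ha (A_mem_CH hL1 dvd_rfl hw) x
    rw [abs_le] at h4
    nlinarith
  linarith

lemma near (hM : IsMean M) {Q : ℕ} {u v : BF} (hu : u ∈ CH Q a) (hv : v ∈ CH Q a) :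
    M ((u - v) * (u - v)) ≤ 2 * M (u * u) + 2 * M (v * v) - 4 * en M a Q := by
  have h1 : (1 / 2 : ℝ) • u + (1 / 2 : ℝ) • v ∈ CH Q a :=
    CH_convex Q a hu hv (by norm_num) (by norm_num) (by norm_num)
  have h2 := en_le hM h1
  have h3 : ((1 / 2 : ℝ) • u + (1 / 2 : ℝ) • v) * ((1 / 2 : ℝ) • u + (1 / 2 : ℝ) • v) = (1 / 4 : ℝ) • ((u + v) * (u + v)) := by
    ext x
    simp only [BoundedContinuousFunction.mul_apply, BoundedContinuousFunction.add_apply,
      BoundedContinuousFunction.smul_apply, smul_eq_mul]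
    ring
  rw [h3, map_smul, smul_eq_mul] at h2
  have := hM.parallelogram u v
  linarith

lemma near_sh (hM : IsMean M) {Q : ℕ} {b : BF} (hb : b ∈ CH Q a) {ρ : ℝ}
    (hbe : M (b * b) ≤ en M a Q + ρ ^ 2 / 4) (t : ℤ) (ht : (Q : ℤ) ∣ t) :
    M ((sh t b - b) * (sh t b - b)) ≤ ρ ^ 2 := by
  have hnat : ∀ i : ℕ, M ((sh ((Q * i : ℕ) : ℤ) b - b) * (sh ((Q * i : ℕ) : ℤ) b - b)) ≤ ρ ^ 2 := by
    intro i
    have h1 := near hM (sh_mem_CH i hb) hb
    rw [hM.sh_mul_sh] at h1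
    linarith
  obtain ⟨c, rfl⟩ := ht
  rcases Int.eq_nat_or_neg c with ⟨n, rfl | rfl⟩
  · have := hnat n
    push_cast at this
    exact this
  · have h1 := hnat n
    rw [← hM.sh_mul_sh (-((Q * n : ℕ) : ℤ))] at h1
    rw [sh_sub, sh_sh, neg_add_cancel, sh_zero] at h1
    have e : (Q : ℤ) * -(n : ℤ) = -((Q * n : ℕ) : ℤ) := by push_cast; ring
    rw [e]
    have e2 : (sh (-((Q * n : ℕ) : ℤ)) b - b) * (sh (-((Q * n : ℕ) : ℤ)) b - b) =
      (b - sh (-((Q * n : ℕ) : ℤ)) b) * (b - sh (-((Q * n : ℕ) : ℤ)) b) := by ring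
    rw [e2]; exact h1

/-- the difference `a - b` is almost orthogonal to translates of `b` -/
lemma orth_b (hM : IsMean M) (ha : ∀ x, 0 ≤ a x ∧ a x ≤ 1) {Q L : ℕ} (hL : 1 ≤ L) {ρ : ℝ} (hρ : 0 ≤ ρ)
    (hbe : M (A Q L a * A Q L a) ≤ en M a Q + ρ ^ 2 / 4) (k : ℤ) :
    |M (sh k (A Q L a) * (a - A Q L a))| ≤ ρ := by
  set b := A Q L a with hb
  have hL0 : (0 : ℝ) < L := by exact_mod_cast hL
  have haa : M (a * a) ≤ 1 := hM.le_one fun x => by
    have := ha x
    simp only [BoundedContinuousFunction.mul_apply]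
    nlinarith
  have h1 : M (sh k b * b) = (1 / (L : ℝ)) * ∑ i ∈ range L, M (sh (k - ((Q * i : ℕ) : ℤ)) b * a) := by
    have e1 : sh k b * b = (1 / (L : ℝ)) • ∑ i ∈ range L, (sh k b * sh ((Q * i : ℕ) : ℤ) a) := by
      ext x
      rw [BoundedContinuousFunction.smul_apply, bf_sum_apply, smul_eq_mul, BoundedContinuousFunction.mul_apply]
      nth_rewrite 2 [hb]
      rw [A_apply, mul_left_comm, mul_sum]
      rfl
    rw [e1, map_smul, map_sum, smul_eq_mul]
    congr 1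
    apply sum_congr rfl; intro i _
    rw [← hM.sh_mul_sh (((Q * i : ℕ) : ℤ)) (sh (k - ((Q * i : ℕ) : ℤ)) b) a, sh_sh]
    congr 3; ring
  have h2 : M (sh k b * (a - b)) = (1 / (L : ℝ)) * ∑ i ∈ range L, (M (sh k b * a) - M (sh (k - ((Q * i : ℕ) : ℤ)) b * a)) := by
    rw [mul_sub, map_sub, h1, sum_sub_distrib, sum_const, card_range, nsmul_eq_mul]
    field_simp
  rw [h2, abs_mul, abs_of_nonneg (by positivity)]
  have h3 : ∀ i ∈ range L, |M (sh k b * a) - M (sh (k - ((Q * i : ℕ) : ℤ)) b * a)| ≤ ρ := by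
    intro i _
    rw [← map_sub, ← sub_mul]
    apply hM.cs_le hρ _ haa
    have e : sh k b - sh (k - ((Q * i : ℕ) : ℤ)) b = sh (k - ((Q * i : ℕ) : ℤ)) (sh ((Q * i : ℕ) : ℤ) b - b) := by
      rw [sh_sub, sh_sh]; congr 2; ring
    rw [e, hM.sh_mul_sh]
    exact near_sh hM (A_mem Q hL a) hbe _ ⟨i, by push_cast; ring⟩
  calc 1 / (L : ℝ) * |∑ i ∈ range L, (M (sh k b * a) - M (sh (k - ((Q * i : ℕ) : ℤ)) b * a))|
      ≤ 1 / (L : ℝ) * ∑ i ∈ range L, ρ := by
        apply mul_le_mul_of_nonneg_left _ (by positivity)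
        exact (abs_sum_le_sum_abs _ _).trans (sum_le_sum h3)
    _ = ρ := by rw [sum_const, card_range, nsmul_eq_mul]; field_simp

/-- **Key lemma**: the averages `b` along `Q` have small correlations at the rich classes. -/
theorem key (hM : IsMean M) (ha : ∀ x, 0 ≤ a x ∧ a x ≤ 1) (X : Set ℤ)
    (hav : ∀ t ∈ X, t ≠ 0 → M (a * sh t a) = 0) (σ : ℝ) (hσ : ∀ R, 1 ≤ R → en M a R ≤ σ)
    (Q : ℕ) (c : ℤ) (hc : Rich X Q c) (t : ℤ) (ht : (Q : ℤ) ∣ t - c) (η : ℝ) (hη : 0 < η) :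
    ∃ L₀ : ℕ, 1 ≤ L₀ ∧ ∀ L : ℕ, L₀ ≤ L → M (A Q L a * sh t (A Q L a)) ≤ 8 * (σ - en M a Q) + η := by
  set ρ : ℝ := min 1 (η / 22) with hρdef
  have hρ0 : 0 < ρ := by rw [hρdef]; positivity
  have hρ1 : ρ ≤ 1 := min_le_left _ _
  have hρη : ρ ≤ η / 22 := min_le_right _ _
  have hρη2 : 3 * ρ + 8 * ρ ^ 2 ≤ η / 2 := by nlinarith
  obtain ⟨L₁, hL₁1, hL₁⟩ := en_upper hM ha Q (ρ ^ 2 / 4) (by positivity)
  refine ⟨L₁, hL₁1, fun L hL => ?_⟩
  have hLe := hL₁ L hL
  have hL1 : 1 ≤ L := hL₁1.trans hL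
  set b := A Q L a with hb
  have hbm : b ∈ CH Q a := A_mem Q hL1 a
  have hbd := CH_bd ha hbm
  obtain ⟨R, hR1, hQR, hR⟩ := hc (η / 2) (by linarith)
  obtain ⟨L₂, hL₂1, hL₂⟩ := en_upper hM ha R (ρ ^ 2 / 4) (by positivity)
  obtain ⟨l, hl, TW, W, hW, hW1, hWX, hWθ⟩ := hR L₂
  have hl1 : 1 ≤ l := hL₂1.trans hl
  have hle := hL₂ l hl
  set v := a - b with hv
  have hst := hM.star R l TW W (η / 2) v hW hW1 (by linarith) hWθ
  have hvv : M (v * v) ≤ 1 := hM.le_one fun x => by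
    have h1 := ha x
    have h2 := hbd x
    simp only [hv, BoundedContinuousFunction.mul_apply, BoundedContinuousFunction.sub_apply]
    nlinarith
  have hbb : M (b * b) ≤ 1 := hM.le_one fun x => by
    have h2 := hbd x
    simp only [BoundedContinuousFunction.mul_apply]
    nlinarith
  have hAv : M (A R l v * A R l v) ≤ 4 * (σ - en M a Q) + 4 * ρ ^ 2 := by
    have e : A R l v = (A R l a - b) + (b - A R l b) := by rw [hv, A_sub]; ring
    rw [e]
    refine (hM.sq_add_le _ _).trans ?_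
    have h1 := near hM (CH_mono hQR a (A_mem R hl1 a)) hbm
    have h2 := near hM hbm (A_mem_CH hl1 hQR hbm)
    have h3 := A_sq_le hM R hl1 b
    have h4 := hσ R hR1
    linarith
  -- correlations of b
  have hexp : ∀ s ∈ TW, M (b * sh s b) = -(M (b * sh s v) + M (v * sh s b)) - M (v * sh s v) := by
    intro s hs
    obtain ⟨hsX, hs0, _⟩ := hWX s hs
    have h1 := hav s hsX hs0
    have e : a * sh s a = b * sh s b + b * sh s v + v * sh s b + v * sh s v := by
      rw [hv, sh_sub]; ring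
    rw [e, map_add, map_add, map_add] at h1
    linarith
  have hc1 : ∀ s ∈ TW, |M (b * sh s v)| ≤ ρ := by
    intro s _
    rw [← hM.sh_mul_sh (-s), sh_sh, neg_add_cancel, sh_zero]
    exact orth_b hM ha hL1 hρ0.le hLe (-s)
  have hc2 : ∀ s ∈ TW, |M (v * sh s b)| ≤ ρ := by
    intro s _
    rw [mul_comm]
    exact orth_b hM ha hL1 hρ0.le hLe s
  have hc3 : ∀ s ∈ TW, |M (b * sh t b) - M (b * sh s b)| ≤ ρ := by
    intro s hs
    obtain ⟨_, _, hsc⟩ := hWX s hs
    rw [← map_sub, ← mul_sub, mul_comm]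
    apply hM.cs_le hρ0.le _ hbb
    have e : sh t b - sh s b = sh s (sh (t - s) b - b) := by
      rw [sh_sub, sh_sh]; congr 2; ring
    rw [e, hM.sh_mul_sh]
    apply near_sh hM hbm hLe
    have : t - s = (t - c) - (s - c) := by ring
    rw [this]; exact dvd_sub ht hsc
  have h1 : M (b * sh t b) = ∑ s ∈ TW, W s * (M (b * sh t b) - M (b * sh s b)) -
      ∑ s ∈ TW, W s * (M (b * sh s v) + M (v * sh s b)) - ∑ s ∈ TW, W s * M (v * sh s v) := by
    rw [← sum_sub_distrib, ← sum_sub_distrib]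
    have : ∀ s ∈ TW, W s * (M (b * sh t b) - M (b * sh s b)) - W s * (M (b * sh s v) + M (v * sh s b)) -
        W s * M (v * sh s v) = W s * M (b * sh t b) := by
      intro s hs
      rw [hexp s hs]; ring
    rw [sum_congr rfl this, ← sum_mul, hW1, one_mul]
  have h2 : ∑ s ∈ TW, W s * (M (b * sh t b) - M (b * sh s b)) ≤ ρ := by
    calc ∑ s ∈ TW, W s * (M (b * sh t b) - M (b * sh s b)) ≤ ∑ s ∈ TW, W s * ρ := by
          apply sum_le_sum; intro s hs
          exact mul_le_mul_of_nonneg_left (abs_le.1 (hc3 s hs)).2 (hW s hs)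
      _ = ρ := by rw [← sum_mul, hW1, one_mul]
  have h3 : -∑ s ∈ TW, W s * (M (b * sh s v) + M (v * sh s b)) ≤ 2 * ρ := by
    rw [← sum_neg_distrib]
    calc ∑ s ∈ TW, -(W s * (M (b * sh s v) + M (v * sh s b))) ≤ ∑ s ∈ TW, W s * (2 * ρ) := by
          apply sum_le_sum; intro s hs
          have g1 := (abs_le.1 (hc1 s hs)).1
          have g2 := (abs_le.1 (hc2 s hs)).1
          have := mul_le_mul_of_nonneg_left (show -(M (b * sh s v) + M (v * sh s b)) ≤ 2 * ρ by linarith) (hW s hs)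
          linarith
      _ = 2 * ρ := by rw [← sum_mul, hW1, one_mul]
  have h4 := (abs_le.1 hst).1
  have h5 : η / 2 * M (v * v) ≤ η / 2 := by nlinarith
  linarith

end

end Pool.Agent.V11293.E70
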