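import Mathlib
import Pool.Agent.V11293.E70.Mean

/-! Existence of an invariant mean. -/

namespace Pool.Agent.V11293.E70
open Finset Filter Topology
open Pool.Agent.Helper602.MK (ee)

lemma avg_mono_zero (N : ℕ) (F : BF) (h : ∀ x, 0 ≤ F x) : 0 ≤ avg N F := by
  unfold avg
  exact mul_nonneg (by positivity) (sum_nonneg fun n _ => h _)

lemma avg_shift_one (N : ℕ) (F : BF) : |avg N (sh 1 F) - avg N F| ≤ 2 * ‖F‖ / N := by
  unfold avg
  rw [← mul_sub, ← sum_sub_distrib]
  have h1 : ∑ n ∈ range N, ((sh 1 F) ((n : ℤ) + 1) - F ((n : ℤ) + 1)) = F ((N : ℤ) + 1) - F ((0 : ℕ) + 1) := by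
    have := sum_range_sub (fun n : ℕ => F ((n : ℤ) + 1)) N
    rw [← this]
    apply sum_congr rfl; intro n _
    simp
  rw [h1, abs_mul, abs_of_nonneg (by positivity)]
  have h2 : |F ((N : ℤ) + 1) - F ((0 : ℕ) + 1)| ≤ ‖F‖ + ‖F‖ :=
    (abs_sub _ _).trans (add_le_add (F.norm_coe_le_norm _) (F.norm_coe_le_norm _))
  calc 1 / (N : ℝ) * |F ((N : ℤ) + 1) - F ((0 : ℕ) + 1)| ≤ 1 / (N : ℝ) * (‖F‖ + ‖F‖) :=
        mul_le_mul_of_nonneg_left h2 (by positivity)
    _ = _ := by ring

theorem exists_mean (a : BF) (δ : ℝ) (h : ∃ᶠ N in atTop, δ ≤ avg N a) :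
    ∃ M : BF →ₗ[ℝ] ℝ, IsMean M ∧ δ ≤ M a := by
  classical
  set f : Filter ℕ := atTop ⊓ 𝓟 {N | δ ≤ avg N a} with hf
  have : f.NeBot := by
    rw [hf]
    exact frequently_mem_iff_neBot.1 h
  set U : Ultrafilter ℕ := Ultrafilter.of f with hU
  have hUf : (U : Filter ℕ) ≤ f := Ultrafilter.of_le f
  have hUtop : (U : Filter ℕ) ≤ atTop := hUf.trans inf_le_left
  have hUa : ∀ᶠ N in (U : Filter ℕ), δ ≤ avg N a := by
    have : (U : Filter ℕ) ≤ 𝓟 {N | δ ≤ avg N a} := hUf.trans inf_le_right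
    exact le_principal_iff.1 this
  have hlim : ∀ F : BF, ∃ l : ℝ, Tendsto (fun N => avg N F) U (𝓝 l) := by
    intro F
    obtain ⟨l, _, hl⟩ := (isCompact_Icc (a := -‖F‖) (b := ‖F‖)).ultrafilter_le_nhds (U.map (fun N => avg N F)) (by
      rw [le_principal_iff]
      apply Filter.mem_map.2
      apply Filter.univ_mem'
      intro N
      exact abs_le.1 (avg_abs_le N F))
    exact ⟨l, hl⟩
  choose m hm using hlim
  have hadd : ∀ F G, m (F + G) = m F + m G := by
    intro F G
    apply tendsto_nhds_unique (hm (F + G))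
    have := (hm F).add (hm G)
    simpa only [avg_add] using this
  have hsmul : ∀ (c : ℝ) F, m (c • F) = c • m F := by
    intro c F
    apply tendsto_nhds_unique (hm (c • F))
    have := (hm F).const_mul c
    simpa only [avg_smul, smul_eq_mul] using this
  set M : BF →ₗ[ℝ] ℝ := { toFun := m, map_add' := hadd, map_smul' := hsmul } with hM
  have hMm : ∀ F, M F = m F := fun F => rfl
  have hsh1 : ∀ F, M (sh 1 F) = M F := by
    intro F
    rw [hMm, hMm]
    have h1 : Tendsto (fun N => avg N (sh 1 F) - avg N F) U (𝓝 (m (sh 1 F) - m F)) := (hm _).sub (hm _)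
    have h2 : Tendsto (fun N => avg N (sh 1 F) - avg N F) U (𝓝 0) := by
      apply squeeze_zero_norm (a := fun N : ℕ => 2 * ‖F‖ / N)
      · intro N; exact avg_shift_one N F
      · apply Tendsto.mono_left _ hUtop
        exact tendsto_const_nhds.div_atTop tendsto_natCast_atTop_atTop
    have := tendsto_nhds_unique h1 h2
    linarith
  refine ⟨M, ⟨?_, ?_, ?_, ?_⟩, ?_⟩
  · intro F hF
    rw [hMm]
    exact ge_of_tendsto' (hm F) (fun N => avg_mono_zero N F hF)
  · rw [hMm]
    apply tendsto_nhds_unique (hm 1)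
    apply Tendsto.congr' _ tendsto_const_nhds
    have : ∀ᶠ N : ℕ in (U : Filter ℕ), 1 ≤ N := hUtop (eventually_ge_atTop 1)
    filter_upwards [this] with N hN
    unfold avg
    have hN0 : (0 : ℝ) < N := by exact_mod_cast hN
    simp [hN0.ne']
  · intro t F
    have hnat : ∀ (n : ℕ) (F : BF), M (sh (n : ℤ) F) = M F := by
      intro n
      induction n with
      | zero => intro F; congr 1; ext x; simp
      | succ n ih =>
        intro F
        have : sh ((n + 1 : ℕ) : ℤ) F = sh 1 (sh (n : ℤ) F) := by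
          ext x; simp only [sh_apply]; congr 1; push_cast; ring
        rw [this, hsh1, ih]
    rcases Int.eq_nat_or_neg t with ⟨n, rfl | rfl⟩
    · exact hnat n F
    · rw [← hnat n (sh (-(n : ℤ)) F)]
      congr 1; ext x; simp
  · intro R L TW W ε v hW hW1 hε hWθ
    have h1 : Tendsto (fun N => |∑ t ∈ TW, W t * avg N (v * sh t v)|) U (𝓝 |∑ t ∈ TW, W t * M (v * sh t v)|) := by
      apply Tendsto.abs
      apply tendsto_finsetSum
      intro t _
      exact (hm _).const_mul _
    have h2 : Tendsto (fun N : ℕ => ε * avg N (v * v) + 2 * avg N (A R L v * A R L v) +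
      ((∑ t ∈ TW, W t * |(t : ℝ)|) + 4 * R * L) * ‖v‖ ^ 2 / N) U
        (𝓝 (ε * M (v * v) + 2 * M (A R L v * A R L v) + 0)) := by
      apply Tendsto.add
      · exact ((hm _).const_mul _).add ((hm _).const_mul _)
      · apply Tendsto.mono_left _ hUtop
        exact tendsto_const_nhds.div_atTop tendsto_natCast_atTop_atTop
    rw [add_zero] at h2
    apply le_of_tendsto_of_tendsto h1 h2
    have : ∀ᶠ N : ℕ in (U : Filter ℕ), 1 ≤ N := hUtop (eventually_ge_atTop 1)
    filter_upwards [this] with N hN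
    exact star_avg R L TW W ε v hW hW1 hε hWθ N hN
  · rw [hMm]
    exact ge_of_tendsto (hm a) hUa

end Pool.Agent.V11293.E70
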