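import Mathlib
import Pool.Agent.V11293.E70.Mean2
import Pool.Agent.V11293.E70.Energy

/-! The combinatorial part: from a mean to a periodic set. -/

namespace Pool.Agent.V11293.E70
open Finset Filter Topology
open Pool.Agent.Helper602.MK (ee)

lemma sum_blocks (m n : ℕ) (f : ℕ → ℝ) :
    ∑ z ∈ range (m * n), f z = ∑ r ∈ range m, ∑ i ∈ range n, f (r + m * i) := by
  induction n with
  | zero => simp
  | succ n ih =>
    rw [Nat.mul_succ, sum_range_add, ih, ← sum_add_distrib]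
    apply sum_congr rfl; intro r _
    rw [sum_range_succ, add_comm (m * n) r]

lemma mean_F3 {M : BF →ₗ[ℝ] ℝ} (hM : IsMean M) (m n : ℕ) (hm : 1 ≤ m) (hn : 1 ≤ n) (b : BF) :
    M ((1 / ((m * n : ℕ) : ℝ)) • ∑ r ∈ range m, ∑ i ∈ range n,
      ((sh ((r + m * i : ℕ) : ℤ) b - sh (r : ℤ) (A m n b)) * (sh ((r + m * i : ℕ) : ℤ) b - sh (r : ℤ) (A m n b)))) =
    M (b * b) - M (A m n b * A m n b) := by
  set g := A m n b with hg
  have hm0 : (0 : ℝ) < m := by exact_mod_cast hm
  have hn0 : (0 : ℝ) < n := by exact_mod_cast hn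
  have h1 : ∀ r ∈ range m, ∀ i ∈ range n, M ((sh ((r + m * i : ℕ) : ℤ) b - sh (r : ℤ) g) *
      (sh ((r + m * i : ℕ) : ℤ) b - sh (r : ℤ) g)) = M (b * b) - 2 * M (sh ((m * i : ℕ) : ℤ) b * g) + M (g * g) := by
    intro r _ i _
    have e : sh ((r + m * i : ℕ) : ℤ) b - sh (r : ℤ) g = sh (r : ℤ) (sh ((m * i : ℕ) : ℤ) b - g) := by
      rw [sh_sub, sh_sh]; congr 2
    rw [e, hM.sh_mul_sh]
    have e2 : (sh ((m * i : ℕ) : ℤ) b - g) * (sh ((m * i : ℕ) : ℤ) b - g) =
      sh ((m * i : ℕ) : ℤ) b * sh ((m * i : ℕ) : ℤ) b - (2 : ℝ) • (sh ((m * i : ℕ) : ℤ) b * g) + g * g := by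
      ext x
      simp only [BoundedContinuousFunction.mul_apply, BoundedContinuousFunction.add_apply,
        BoundedContinuousFunction.sub_apply, BoundedContinuousFunction.smul_apply, smul_eq_mul]
      ring
    rw [e2, map_add, map_sub, map_smul, hM.sh_mul_sh, smul_eq_mul]
  have h2 : M (g * g) = (1 / (n : ℝ)) * ∑ i ∈ range n, M (sh ((m * i : ℕ) : ℤ) b * g) := by
    have e : g * g = (1 / (n : ℝ)) • ∑ i ∈ range n, (sh ((m * i : ℕ) : ℤ) b * g) := by
      rw [← sum_mul]
      nth_rewrite 1 [hg]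
      unfold A
      rw [smul_mul_assoc]
    rw [e, map_smul, map_sum, smul_eq_mul]
  rw [map_smul, map_sum, smul_eq_mul]
  have h3 : ∑ r ∈ range m, M (∑ i ∈ range n, ((sh ((r + m * i : ℕ) : ℤ) b - sh (r : ℤ) g) *
      (sh ((r + m * i : ℕ) : ℤ) b - sh (r : ℤ) g))) = m * (n * M (b * b) - 2 * ∑ i ∈ range n, M (sh ((m * i : ℕ) : ℤ) b * g) + n * M (g * g)) := by
    rw [sum_congr rfl (g := fun _ => n * M (b * b) - 2 * ∑ i ∈ range n, M (sh ((m * i : ℕ) : ℤ) b * g) + n * M (g * g))]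
    · rw [sum_const, card_range, nsmul_eq_mul]
    · intro r hr
      rw [map_sum, sum_congr rfl (fun i hi => h1 r hr i hi), sum_add_distrib, sum_sub_distrib, sum_const, sum_const,
        card_range, nsmul_eq_mul, nsmul_eq_mul, ← mul_sum]
  rw [h3]
  have h4 : ∑ i ∈ range n, M (sh ((m * i : ℕ) : ℤ) b * g) = n * M (g * g) := by
    rw [h2]; field_simp
  rw [h4]
  push_cast
  field_simp
  ring

/-- pointwise analysis of one class -/
lemma class_mass (n : ℕ) (β : ℕ → ℝ) (hβ : ∀ i, 0 ≤ β i ∧ β i ≤ 1) (κ : ℝ) (hκ : 0 < κ) (g : ℝ)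
    (hR : 4 * ((range n).filter (fun i => κ ≤ β i)).card < 3 * n) :
    ∑ i ∈ range n, β i ≤ 3 * κ * n + 4 / κ ^ 2 * ∑ i ∈ range n, (β i - g) * (β i - g) := by
  have hκ2 : 0 < κ ^ 2 := by positivity
  have hsum0 : 0 ≤ ∑ i ∈ range n, (β i - g) * (β i - g) := sum_nonneg fun i _ => mul_self_nonneg _
  by_cases hg : 2 * κ ≤ g
  · have hcard : n ≤ 4 * ((range n).filter (fun i => ¬ κ ≤ β i)).card := by
      have := card_filter_add_card_filter_not (s := range n) (fun i => κ ≤ β i)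
      rw [card_range] at this
      omega
    have h1 : κ ^ 2 * (((range n).filter (fun i => ¬ κ ≤ β i)).card : ℝ) ≤ ∑ i ∈ range n, (β i - g) * (β i - g) := by
      calc κ ^ 2 * (((range n).filter (fun i => ¬ κ ≤ β i)).card : ℝ) =
            ∑ i ∈ (range n).filter (fun i => ¬ κ ≤ β i), κ ^ 2 := by
              rw [sum_const, nsmul_eq_mul, mul_comm]
        _ ≤ ∑ i ∈ (range n).filter (fun i => ¬ κ ≤ β i), (β i - g) * (β i - g) := by
              apply sum_le_sum; intro i hi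
              rw [mem_filter] at hi
              have := hi.2
              push Not at this
              nlinarith
        _ ≤ _ := sum_le_sum_of_subset_of_nonneg (filter_subset _ _) (fun i _ _ => mul_self_nonneg _)
    have h2 : ∑ i ∈ range n, β i ≤ n := by
      calc ∑ i ∈ range n, β i ≤ ∑ _i ∈ range n, (1 : ℝ) := sum_le_sum fun i _ => (hβ i).2
        _ = n := by simp
    have h3 : (n : ℝ) ≤ 4 * (((range n).filter (fun i => ¬ κ ≤ β i)).card : ℝ) := by exact_mod_cast hcard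
    have h4 : (n : ℝ) ≤ 4 / κ ^ 2 * ∑ i ∈ range n, (β i - g) * (β i - g) := by
      rw [div_mul_eq_mul_div, le_div_iff₀ hκ2]
      nlinarith
    have h5 : 0 ≤ 3 * κ * n := by positivity
    linarith
  · push Not at hg
    have h1 : ∀ i ∈ range n, β i ≤ 3 * κ + 4 / κ ^ 2 * ((β i - g) * (β i - g)) := by
      intro i _
      have h0 := mul_self_nonneg (β i - g)
      have h00 : 0 ≤ 4 / κ ^ 2 * ((β i - g) * (β i - g)) := by positivity
      by_cases h : β i ≤ 3 * κ
      · linarith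
      · push Not at h
        have h2 : 1 ≤ 4 / κ ^ 2 * ((β i - g) * (β i - g)) := by
          rw [div_mul_eq_mul_div, le_div_iff₀ hκ2]
          nlinarith
        have := (hβ i).2
        linarith
    calc ∑ i ∈ range n, β i ≤ ∑ i ∈ range n, (3 * κ + 4 / κ ^ 2 * ((β i - g) * (β i - g))) := sum_le_sum h1
      _ = _ := by
        rw [sum_add_distrib, sum_const, card_range, nsmul_eq_mul, ← mul_sum]; ring

end Pool.Agent.V11293.E70
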