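import Mathlib
import Pool.Agent.V11293.E70.Comb

/-! Extraction of a window and periodisation. -/

namespace Pool.Agent.V11293.E70
open Finset Filter Topology
open Pool.Agent.Helper602.MK (ee)

lemma M_A {M : BF →ₗ[ℝ] ℝ} (hM : IsMean M) (R : ℕ) {L : ℕ} (hL : 1 ≤ L) (w : BF) : M (A R L w) = M w := by
  have hL0 : (0 : ℝ) < L := by exact_mod_cast hL
  unfold A
  rw [map_smul, map_sum]
  simp_rw [hM.shift]
  rw [sum_const, card_range, nsmul_eq_mul, smul_eq_mul]; field_simp

/-- the shifted positions of a class: injectivity count -/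
lemma shift_count (m n r r' τ : ℕ) (hm : 1 ≤ m) (hr : r < m) (hr' : r' < m) (hτ : τ < m * n)
    (hmod : (m : ℤ) ∣ (r' : ℤ) - r - τ) (P : ℕ → Prop) [DecidablePred P]
    (h1 : 3 * n ≤ 4 * ((range n).filter (fun i => P (r + m * i))).card)
    (h2 : 3 * n ≤ 4 * ((range n).filter (fun i => P (r' + m * i))).card) :
    n ≤ 2 * ((range n).filter (fun i => P (r + m * i) ∧
      (P (r + m * i + τ) ∧ r + m * i + τ < m * n ∨ m * n ≤ r + m * i + τ ∧ P (r + m * i + τ - m * n)))).card := by
  classical
  set φ : ℕ → ℕ := fun i => (if r + m * i + τ < m * n then r + m * i + τ else r + m * i + τ - m * n) / m with hφ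
  have hlt : ∀ i ∈ range n, r + m * i < m * n := by
    intro i hi
    rw [mem_range] at hi
    calc r + m * i < m + m * i := by omega
      _ = m * (i + 1) := by ring
      _ ≤ m * n := Nat.mul_le_mul_left _ hi
  have hpos : ∀ i ∈ range n, (if r + m * i + τ < m * n then r + m * i + τ else r + m * i + τ - m * n) = r' + m * φ i := by
    intro i hi
    have hl := hlt i hi
    set y := (if r + m * i + τ < m * n then r + m * i + τ else r + m * i + τ - m * n) with hy
    have hymod : y % m = r' := by
      have e1 : (m : ℤ) ∣ (y : ℤ) - r' := by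
        obtain ⟨c, hc⟩ := hmod
        rw [hy]
        split_ifs with h
        · refine ⟨i - c, ?_⟩
          push_cast
          linear_combination -hc
        · refine ⟨i - c - n, ?_⟩
          push Not at h
          rw [Nat.cast_sub h]
          push_cast
          linear_combination -hc
      have e2 : (r' : ℤ) ≡ (y : ℤ) [ZMOD m] := (Int.modEq_iff_dvd).2 e1
      have e3 : r' ≡ y [MOD m] := (Int.natCast_modEq_iff).1 e2
      have e4 : r' % m = y % m := e3
      rw [← e4, Nat.mod_eq_of_lt hr']
    have : φ i = y / m := rfl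
    rw [this]
    have := Nat.mod_add_div y m
    omega
  have hφn : ∀ i ∈ range n, φ i ∈ range n := by
    intro i hi
    have hl := hlt i hi
    have h3 := hpos i hi
    rw [mem_range]
    by_contra h
    push Not at h
    have h4 : m * n ≤ m * φ i := Nat.mul_le_mul_left _ h
    split_ifs at h3 with h5 <;> omega
  have hinj : Set.InjOn φ (range n : Set ℕ) := by
    intro i hi i' hi' he
    rw [mem_coe] at hi hi'
    have h3 := hpos i hi
    have h4 := hpos i' hi'
    have hl := hlt i hi
    have hl' := hlt i' hi'
    rw [he, ← h4] at h3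
    have : m * i = m * i' := by
      split_ifs at h3 <;> omega
    exact Nat.eq_of_mul_eq_mul_left (by omega) this
  set I := (range n).filter (fun i => P (r + m * i)) with hI
  set I' := (range n).filter (fun i => P (r' + m * i)) with hI'
  have hc1 : (I.image φ).card = I.card := card_image_of_injOn (hinj.mono (by
    intro i hi; rw [mem_coe] at hi ⊢; exact (mem_filter.1 hi).1))
  have hc2 : (I.image φ ∪ I').card + (I.image φ ∩ I').card = I.card + I'.card := by
    rw [card_union_add_card_inter, hc1]
  have hc3 : (I.image φ ∪ I').card ≤ n := by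
    have : I.image φ ∪ I' ⊆ range n := by
      apply union_subset
      · intro y hy
        rw [mem_image] at hy
        obtain ⟨i, hi, rfl⟩ := hy
        exact hφn i (mem_filter.1 hi).1
      · exact filter_subset _ _
    calc _ ≤ (range n).card := card_le_card this
      _ = n := card_range n
  have hc4 : (I.image φ ∩ I').card ≤ ((range n).filter (fun i => P (r + m * i) ∧
      (P (r + m * i + τ) ∧ r + m * i + τ < m * n ∨ m * n ≤ r + m * i + τ ∧ P (r + m * i + τ - m * n)))).card := by
    have : I.image φ ∩ I' ⊆ ((range n).filter (fun i => P (r + m * i) ∧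
      (P (r + m * i + τ) ∧ r + m * i + τ < m * n ∨ m * n ≤ r + m * i + τ ∧ P (r + m * i + τ - m * n)))).image φ := by
      intro y hy
      rw [mem_inter, mem_image] at hy
      obtain ⟨⟨i, hi, rfl⟩, hy2⟩ := hy
      rw [mem_image]
      refine ⟨i, ?_, rfl⟩
      rw [mem_filter]
      have hi0 := mem_filter.1 hi
      have hy3 := (mem_filter.1 hy2).2
      rw [← hpos i hi0.1] at hy3
      refine ⟨hi0.1, hi0.2, ?_⟩
      split_ifs at hy3 with h5
      · left; exact ⟨hy3, h5⟩
      · right; exact ⟨by omega, hy3⟩
    exact (card_le_card this).trans card_image_le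
  omega

end Pool.Agent.V11293.E70
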