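import Mathlib
import Pool.Agent.V11293.E70.Window

/-! Extraction of a window and periodisation. -/

namespace Pool.Agent.V11293.E70
open Finset Filter Topology
open Pool.Agent.Helper602.MK (ee)

/-- deterministic part: from a good window to a periodic set -/
theorem periodise (X : Set ℤ) (a : BF) (ha01 : ∀ x, a x = 0 ∨ a x = 1)
    (hav : ∀ t ∈ X, t ≠ 0 → ∀ x, ¬ (a x = 1 ∧ a (x + t) = 1))
    (m n L B : ℕ) (hm : 1 ≤ m) (hn : 1 ≤ n) (hL : 1 ≤ L) (G : ℕ → Prop)
    (hXB : ∀ x ∈ X, x ≠ 0 → |x| ≤ B ∨ ∃ ρ : ℕ, ρ < m ∧ G ρ ∧ (m : ℤ) ∣ x - ρ)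
    (τ : ℕ → ℕ) (hτ : ∀ ρ, ρ < m → G ρ → τ ρ < m * n ∧ (m : ℤ) ∣ (τ ρ : ℤ) - ρ)
    (x : ℤ) (κ ε δ' : ℝ) (hκ : 0 < κ) (hε : 0 < ε)
    (h1 : δ' ≤ (1 / ((m * n : ℕ) : ℝ)) * ∑ j ∈ range (m * n), A (m * n) L a (x + j))
    (h2 : ∀ ρ, ρ < m → G ρ → (1 / ((m * n : ℕ) : ℝ)) * ∑ j ∈ range (m * n), A (m * n) L a (x + j) *
      (A (m * n) L a (x + j + τ ρ) + A (m * n) L a (x + j + τ ρ - (m * n : ℕ))) ≤ κ ^ 2 / (4 * m))
    (h3 : (1 / ((m * n : ℕ) : ℝ)) * ∑ r ∈ range m, ∑ i ∈ range n,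
      ((A (m * n) L a (x + (r + m * i : ℕ)) - A m n (A (m * n) L a) (x + r)) *
       (A (m * n) L a (x + (r + m * i : ℕ)) - A m n (A (m * n) L a) (x + r))) ≤ κ ^ 2 * ε / 64)
    (h4 : 3 * κ ≤ ε / 16) (h5 : (B : ℝ) ≤ ((m * n * L : ℕ) : ℝ) * (ε / 8)) :
    ∃ S : Finset (ZMod (m * n * L)), (∀ a' ∈ S, ∀ b' ∈ S, ∀ x ∈ X, x ≠ 0 → (x : ZMod (m * n * L)) ≠ a' - b') ∧
      (δ' - ε / 4) * ((m * n * L : ℕ) : ℝ) ≤ S.card := by
  classical
  have ha : ∀ x, 0 ≤ a x ∧ a x ≤ 1 := by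
    intro x; rcases ha01 x with h | h <;> rw [h] <;> norm_num
  have hm0 : (0 : ℝ) < m := by exact_mod_cast hm
  have hn0 : (0 : ℝ) < n := by exact_mod_cast hn
  have hL0 : (0 : ℝ) < L := by exact_mod_cast hL
  set b := A (m * n) L a with hb
  have hbd : ∀ x, 0 ≤ b x ∧ b x ≤ 1 := CH_bd ha (A_mem (m * n) hL a)
  set β : ℕ → ℝ := fun j => b (x + j) with hβ
  set R := (range m).filter (fun r => 3 * n ≤ 4 * ((range n).filter (fun i => κ ≤ β (r + m * i))).card) with hR
  have hmn0 : (0 : ℝ) < ((m * n : ℕ) : ℝ) := by push_cast; positivity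
  -- Claim 1
  have claim1 : ∀ ρ, ρ < m → G ρ → ∀ r ∈ R, ∀ r' ∈ R, ¬ (m : ℤ) ∣ (r' : ℤ) - r - ρ := by
    intro ρ hρ hGρ r hr r' hr' hdvd
    obtain ⟨hτ1, hτ2⟩ := hτ ρ hρ hGρ
    rw [hR, mem_filter, mem_range] at hr hr'
    have hmod : (m : ℤ) ∣ (r' : ℤ) - r - τ ρ := by
      have : (r' : ℤ) - r - τ ρ = ((r' : ℤ) - r - ρ) - ((τ ρ : ℤ) - ρ) := by ring
      rw [this]; exact dvd_sub hdvd hτ2
    have hc := shift_count m n r r' (τ ρ) hm hr.1 hr'.1 hτ1 hmod (fun j => κ ≤ β j) hr.2 hr'.2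
    have h6 := h2 ρ hρ hGρ
    set I := (range n).filter (fun i => (κ ≤ β (r + m * i)) ∧
      ((κ ≤ β (r + m * i + τ ρ)) ∧ r + m * i + τ ρ < m * n ∨ m * n ≤ r + m * i + τ ρ ∧ κ ≤ β (r + m * i + τ ρ - m * n))) with hI
    have h7 : κ ^ 2 * (I.card : ℝ) ≤ ∑ j ∈ range (m * n), b (x + j) * (b (x + j + τ ρ) + b (x + j + τ ρ - (m * n : ℕ))) := by
      have hnn : ∀ j : ℕ, 0 ≤ b (x + j) * (b (x + j + τ ρ) + b (x + j + τ ρ - (m * n : ℕ))) := fun j =>
        mul_nonneg (hbd _).1 (add_nonneg (hbd _).1 (hbd _).1)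
      rw [sum_blocks m n (fun j => b (x + j) * (b (x + j + τ ρ) + b (x + j + τ ρ - (m * n : ℕ))))]
      calc κ ^ 2 * (I.card : ℝ) = ∑ i ∈ I, κ ^ 2 := by rw [sum_const, nsmul_eq_mul, mul_comm]
        _ ≤ ∑ i ∈ I, b (x + (r + m * i : ℕ)) * (b (x + (r + m * i : ℕ) + τ ρ) + b (x + (r + m * i : ℕ) + τ ρ - (m * n : ℕ))) := by
            apply sum_le_sum; intro i hi
            rw [hI, mem_filter] at hi
            obtain ⟨_, hi1, hi2⟩ := hi
            have g1 : κ ≤ b (x + (r + m * i : ℕ)) := hi1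
            have g2 : κ ≤ b (x + (r + m * i : ℕ) + τ ρ) + b (x + (r + m * i : ℕ) + τ ρ - (m * n : ℕ)) := by
              rcases hi2 with ⟨h8, _⟩ | ⟨h8, h9⟩
              · have e : x + ((r + m * i : ℕ) : ℤ) + (τ ρ : ℤ) = x + ((r + m * i + τ ρ : ℕ) : ℤ) := by push_cast; ring
                rw [e]
                have g3 : κ ≤ b (x + ((r + m * i + τ ρ : ℕ) : ℤ)) := h8
                have g4 := (hbd (x + ((r + m * i + τ ρ : ℕ) : ℤ) - (m * n : ℕ))).1
                linarith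
              · have e : x + ((r + m * i : ℕ) : ℤ) + (τ ρ : ℤ) - ((m * n : ℕ) : ℤ) = x + ((r + m * i + τ ρ - m * n : ℕ) : ℤ) := by
                  rw [Nat.cast_sub h8]; push_cast; ring
                rw [e]
                have g3 : κ ≤ b (x + ((r + m * i + τ ρ - m * n : ℕ) : ℤ)) := h9
                have g4 := (hbd (x + ((r + m * i : ℕ) : ℤ) + (τ ρ : ℤ))).1
                linarith
            rw [sq]
            exact mul_le_mul g1 g2 hκ.le (hκ.le.trans g1)
        _ ≤ ∑ i ∈ range n, b (x + (r + m * i : ℕ)) * (b (x + (r + m * i : ℕ) + τ ρ) + b (x + (r + m * i : ℕ) + τ ρ - (m * n : ℕ))) :=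
            sum_le_sum_of_subset_of_nonneg (filter_subset _ _) (fun i _ _ => hnn _)
        _ ≤ _ := single_le_sum (f := fun r => ∑ i ∈ range n, b (x + (r + m * i : ℕ)) * (b (x + (r + m * i : ℕ) + τ ρ) + b (x + (r + m * i : ℕ) + τ ρ - (m * n : ℕ))))
            (fun r _ => sum_nonneg fun i _ => hnn _) (mem_range.2 hr.1)
    have h8 : (n : ℝ) ≤ 2 * (I.card : ℝ) := by exact_mod_cast hc
    have h9 : κ ^ 2 * (I.card : ℝ) ≤ ((m * n : ℕ) : ℝ) * (κ ^ 2 / (4 * m)) := by
      rw [one_div, inv_mul_le_iff₀ hmn0] at h6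
      exact h7.trans h6
    have h10 : ((m * n : ℕ) : ℝ) * (κ ^ 2 / (4 * m)) = n * κ ^ 2 / 4 := by
      push_cast; field_simp
    rw [h10] at h9
    have h11 : κ ^ 2 * (n / 2) ≤ κ ^ 2 * (I.card : ℝ) := mul_le_mul_of_nonneg_left (by linarith) (by positivity)
    have h12 : 0 < κ ^ 2 * n := by positivity
    linarith
  -- Claim 2: the mass outside R
  have claim2 : ∑ r ∈ range m, ∑ i ∈ range n, β (r + m * i) ≤
      ∑ r ∈ R, ∑ i ∈ range n, β (r + m * i) + (ε / 8) * ((m * n : ℕ) : ℝ) := by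
    set g := A m n b with hg
    set V : ℕ → ℝ := fun r => ∑ i ∈ range n, (β (r + m * i) - g (x + r)) * (β (r + m * i) - g (x + r)) with hV
    have hV0 : ∀ r, 0 ≤ V r := fun r => sum_nonneg fun i _ => mul_self_nonneg _
    have e1 : ∑ r ∈ range m, ∑ i ∈ range n, β (r + m * i) ≤ ∑ r ∈ range m, ((if r ∈ R then ∑ i ∈ range n, β (r + m * i) else 0) +
        (3 * κ * n + 4 / κ ^ 2 * V r)) := by
      apply sum_le_sum; intro r hr
      have hnn : 0 ≤ 3 * κ * n + 4 / κ ^ 2 * V r := by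
        have := hV0 r
        positivity
      split_ifs with hrR
      · linarith
      · rw [zero_add]
        apply class_mass n (fun i => β (r + m * i)) (fun i => hbd _) κ hκ
        rw [hR, mem_filter, not_and] at hrR
        have := hrR hr
        omega
    rw [sum_add_distrib, ← sum_filter, sum_add_distrib, sum_const, card_range, nsmul_eq_mul, ← mul_sum] at e1
    have e2 : (range m).filter (fun r => r ∈ R) = R := by
      ext r; rw [mem_filter]; constructor
      · exact fun h => h.2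
      · intro h; exact ⟨(mem_filter.1 h).1, h⟩
    rw [e2] at e1
    have e3 : ∑ r ∈ range m, V r ≤ ((m * n : ℕ) : ℝ) * (κ ^ 2 * ε / 64) := by
      rw [one_div, inv_mul_le_iff₀ hmn0] at h3
      exact h3
    have e4 : 4 / κ ^ 2 * ∑ r ∈ range m, V r ≤ ((m * n : ℕ) : ℝ) * (ε / 16) := by
      calc 4 / κ ^ 2 * ∑ r ∈ range m, V r ≤ 4 / κ ^ 2 * (((m * n : ℕ) : ℝ) * (κ ^ 2 * ε / 64)) :=
            mul_le_mul_of_nonneg_left e3 (by positivity)
        _ = ((m * n : ℕ) : ℝ) * (ε / 16) := by field_simp; ring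
    have e5 : (m : ℝ) * (3 * κ * n) ≤ ((m * n : ℕ) : ℝ) * (ε / 16) := by
      calc (m : ℝ) * (3 * κ * n) = ((m * n : ℕ) : ℝ) * (3 * κ) := by push_cast; ring
        _ ≤ _ := mul_le_mul_of_nonneg_left h4 hmn0.le
    linarith
  -- counting in the long window
  set q := m * n * L with hq
  have hqpos : 0 < q := by rw [hq]; positivity
  have : NeZero q := ⟨hqpos.ne'⟩
  have hcount : ∑ z ∈ range q, (if z % m ∈ R then a (x + z) else 0) = L * ∑ r ∈ R, ∑ i ∈ range n, β (r + m * i) := by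
    rw [hq, sum_blocks (m * n) L]
    have e1 : ∀ j ∈ range (m * n), ∑ l ∈ range L, (if (j + m * n * l) % m ∈ R then a (x + ((j + m * n * l : ℕ) : ℤ)) else 0) =
        L * (if j % m ∈ R then β j else 0) := by
      intro j _
      have e2 : ∀ l, (j + m * n * l) % m = j % m := by
        intro l; rw [mul_assoc, Nat.add_mul_mod_self_left]
      simp_rw [e2]
      split_ifs with h
      · simp only [hβ, hb, A_apply]
        rw [← mul_assoc, mul_one_div_cancel hL0.ne', one_mul]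
        apply sum_congr rfl; intro l _
        congr 1; push_cast; ring
      · simp
    rw [sum_congr rfl e1, ← mul_sum]
    congr 1
    rw [sum_blocks m n (fun j => if j % m ∈ R then β j else 0)]
    have e3 : ∀ r ∈ range m, ∑ i ∈ range n, (if (r + m * i) % m ∈ R then β (r + m * i) else 0) =
        if r ∈ R then ∑ i ∈ range n, β (r + m * i) else 0 := by
      intro r hr
      rw [mem_range] at hr
      have e2 : ∀ i, (r + m * i) % m = r := by
        intro i; rw [Nat.add_mul_mod_self_left, Nat.mod_eq_of_lt hr]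
      simp_rw [e2]
      split_ifs <;> simp
    rw [sum_congr rfl e3, ← sum_filter]
    congr 1
    ext r; rw [mem_filter]; constructor
    · exact fun h => h.2
    · intro h; exact ⟨(mem_filter.1 h).1, h⟩
  set T := (range q).filter (fun z => (z % m ∈ R ∧ a (x + z) = 1) ∧ z + B < q) with hT
  refine ⟨T.image (fun z : ℕ => (z : ZMod q)), ?_, ?_⟩
  · intro a' ha' b' hb' y hy hy0 heq
    rw [mem_image] at ha' hb'
    obtain ⟨z, hz, rfl⟩ := ha'
    obtain ⟨z', hz', rfl⟩ := hb'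
    rw [hT, mem_filter, mem_range] at hz hz'
    obtain ⟨hzq, ⟨hzR, hza⟩, hzB⟩ := hz
    obtain ⟨hzq', ⟨hzR', hza'⟩, hzB'⟩ := hz'
    have hdvd : (q : ℤ) ∣ (z : ℤ) - z' - y := by
      rw [← ZMod.intCast_zmod_eq_zero_iff_dvd]
      push_cast
      rw [heq]; ring
    rcases hXB y hy hy0 with h | ⟨ρ, hρ, hGρ, hρy⟩
    · have h6 : (z : ℤ) - z' - y = 0 := by
        apply Int.eq_zero_of_abs_lt_dvd hdvd
        rw [abs_le] at h
        rw [abs_lt]
        constructor
        · omega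
        · omega
      have h7 : (z : ℤ) = z' + y := by omega
      apply hav y hy hy0 (x + z')
      refine ⟨hza', ?_⟩
      rw [show x + (z' : ℤ) + y = x + z by omega]
      exact hza
    · apply claim1 ρ hρ hGρ _ hzR' _ hzR
      have h8 : (m : ℤ) ∣ (z : ℤ) - z' - y := by
        refine dvd_trans ?_ hdvd
        rw [hq]; push_cast
        exact ⟨(n : ℤ) * L, by ring⟩
      have h9 : (m : ℤ) ∣ (z : ℤ) - ((z % m : ℕ) : ℤ) := by
        refine ⟨((z / m : ℕ) : ℤ), ?_⟩
        have := Nat.mod_add_div z m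
        have h10 : ((z % m : ℕ) : ℤ) + m * ((z / m : ℕ) : ℤ) = z := by exact_mod_cast this
        linarith
      have h9' : (m : ℤ) ∣ (z' : ℤ) - ((z' % m : ℕ) : ℤ) := by
        refine ⟨((z' / m : ℕ) : ℤ), ?_⟩
        have := Nat.mod_add_div z' m
        have h10 : ((z' % m : ℕ) : ℤ) + m * ((z' / m : ℕ) : ℤ) = z' := by exact_mod_cast this
        linarith
      have h11 : ((z % m : ℕ) : ℤ) - ((z' % m : ℕ) : ℤ) - ρ = ((z : ℤ) - z' - y) - ((z : ℤ) - ((z % m : ℕ) : ℤ)) +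
          ((z' : ℤ) - ((z' % m : ℕ) : ℤ)) + (y - ρ) := by ring
      rw [h11]
      exact dvd_add (dvd_add (dvd_sub h8 h9) h9') hρy
  · have hinj : Set.InjOn (fun z : ℕ => (z : ZMod q)) (T : Set ℕ) := by
      intro z hz z' hz' he
      rw [mem_coe, hT, mem_filter, mem_range] at hz hz'
      simp only at he
      have := (ZMod.natCast_eq_natCast_iff' z z' q).1 he
      rwa [Nat.mod_eq_of_lt hz.1, Nat.mod_eq_of_lt hz'.1] at this
    rw [card_image_of_injOn hinj]
    have h6 : ∑ z ∈ range q, (if z % m ∈ R then a (x + z) else 0) ≤ T.card + B := by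
      have e1 : ∀ z ∈ range q, (if z % m ∈ R then a (x + z) else 0) ≤
          (if (z % m ∈ R ∧ a (x + z) = 1) ∧ z + B < q then 1 else 0) + (if q ≤ z + B then (1 : ℝ) else 0) := by
        intro z _
        by_cases g1 : q ≤ z + B
        · rw [if_pos g1]
          have : (if z % m ∈ R then a (x + z) else 0) ≤ 1 := by
            split_ifs
            · exact (ha _).2
            · norm_num
          have : (0 : ℝ) ≤ (if (z % m ∈ R ∧ a (x + z) = 1) ∧ z + B < q then 1 else 0) := by positivity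
          linarith
        · rw [if_neg g1, add_zero]
          by_cases g2 : z % m ∈ R
          · rcases ha01 (x + z) with g3 | g3
            · rw [if_pos g2, g3]; positivity
            · rw [if_pos g2, if_pos ⟨⟨g2, g3⟩, by omega⟩, g3]
          · rw [if_neg g2]; positivity
      refine (sum_le_sum e1).trans ?_
      rw [sum_add_distrib]
      apply add_le_add
      · rw [← sum_filter, sum_const, nsmul_eq_mul, mul_one, hT]
      · rw [← sum_filter, sum_const, nsmul_eq_mul, mul_one]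
        have : ((range q).filter (fun z => q ≤ z + B)).card ≤ B := by
          calc _ ≤ (Ico (q - B) q).card := by
                apply card_le_card
                intro z hz
                rw [mem_filter, mem_range] at hz
                rw [mem_Ico]; omega
            _ ≤ B := by rw [Nat.card_Ico]; omega
        exact_mod_cast this
    rw [hcount] at h6
    have h7 : δ' * ((m * n : ℕ) : ℝ) ≤ ∑ r ∈ range m, ∑ i ∈ range n, β (r + m * i) := by
      rw [← sum_blocks m n β]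
      rw [one_div, inv_mul_eq_div, le_div_iff₀ hmn0] at h1
      exact h1
    have h8 : L * (δ' * ((m * n : ℕ) : ℝ)) ≤ L * (∑ r ∈ R, ∑ i ∈ range n, β (r + m * i) + (ε / 8) * ((m * n : ℕ) : ℝ)) :=
      mul_le_mul_of_nonneg_left (h7.trans claim2) hL0.le
    have h9 : ((q : ℕ) : ℝ) = L * ((m * n : ℕ) : ℝ) := by rw [hq]; push_cast; ring
    have h10 : L * (∑ r ∈ R, ∑ i ∈ range n, β (r + m * i) + (ε / 8) * ((m * n : ℕ) : ℝ)) =
      L * ∑ r ∈ R, ∑ i ∈ range n, β (r + m * i) + (ε / 8) * q := by rw [h9]; ring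
    rw [h10] at h8
    have h11 : L * (δ' * ((m * n : ℕ) : ℝ)) = δ' * q := by rw [h9]; ring
    rw [h11] at h8
    linarith

end Pool.Agent.V11293.E70
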