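import Mathlib
import Pool.Agent.V11293.E70.Window2

/-! The abstract local-to-global theorem. -/

namespace Pool.Agent.V11293.E70
open Finset Filter Topology
open Pool.Agent.Helper602.MK (ee)

/-- local structure of a set: up to bounded elements, every class is rich -/
def LocRich (X : Set ℤ) : Prop := ∀ m : ℕ, 1 ≤ m → ∃ B : ℕ, ∀ x ∈ X, x ≠ 0 → |x| ≤ B ∨
  ∀ Q : ℕ, 1 ≤ Q → m ∣ Q → ∃ c : ℤ, Rich X Q c ∧ (m : ℤ) ∣ c - x

theorem from_mean {M : BF →ₗ[ℝ] ℝ} (hM : IsMean M) {a : BF} (ha01 : ∀ x, a x = 0 ∨ a x = 1) (X : Set ℤ)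
    (hX : LocRich X) (hav : ∀ t ∈ X, t ≠ 0 → ∀ x, ¬ (a x = 1 ∧ a (x + t) = 1)) (δ : ℝ) (hδ : δ ≤ M a)
    (ε : ℝ) (hε : 0 < ε) :
    ∃ q : ℕ, 1 ≤ q ∧ ∃ S : Finset (ZMod q), (∀ a' ∈ S, ∀ b' ∈ S, ∀ x ∈ X, x ≠ 0 → (x : ZMod q) ≠ a' - b') ∧
      (δ - ε) * q ≤ S.card := by
  classical
  have ha : ∀ x, 0 ≤ a x ∧ a x ≤ 1 := by
    intro x; rcases ha01 x with h | h <;> rw [h] <;> norm_num
  have havM : ∀ t ∈ X, t ≠ 0 → M (a * sh t a) = 0 := by
    intro t ht ht0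
    have : a * sh t a = 0 := by
      ext x
      simp only [BoundedContinuousFunction.mul_apply, sh_apply, BoundedContinuousFunction.coe_zero, Pi.zero_apply]
      have h1 := hav t ht ht0 x
      rcases ha01 x with h | h
      · rw [h, zero_mul]
      · rcases ha01 (x + t) with h' | h'
        · rw [h', mul_zero]
        · exact absurd ⟨h, h'⟩ h1
    rw [this, map_zero]
  by_cases hδ0 : δ - 3 * ε / 4 ≤ 0
  · refine ⟨1, le_rfl, ∅, by simp, ?_⟩
    simp only [card_empty, Nat.cast_zero, Nat.cast_one, mul_one]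
    linarith
  push Not at hδ0
  have hbdd : BddAbove ((fun R => en M a R) '' {R | 1 ≤ R}) := by
    refine ⟨1, ?_⟩
    rintro _ ⟨R, _, rfl⟩
    exact en_le_one hM ha R
  have hne : ((fun R => en M a R) '' {R | 1 ≤ R}).Nonempty := ⟨_, 1, le_refl 1, rfl⟩
  set σ := sSup ((fun R => en M a R) '' {R | 1 ≤ R}) with hσdef
  have hσ : ∀ R, 1 ≤ R → en M a R ≤ σ := fun R hR => le_csSup hbdd ⟨R, hR, rfl⟩
  have hσ2 : ∀ η : ℝ, 0 < η → ∃ R, 1 ≤ R ∧ σ - η < en M a R := by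
    intro η hη
    obtain ⟨_, ⟨R, hR, rfl⟩, h⟩ := exists_lt_of_lt_csSup hne (show σ - η < σ by linarith)
    exact ⟨R, hR, h⟩
  set κ : ℝ := ε / 48 with hκdef
  have hκ : 0 < κ := by positivity
  set ζ2 : ℝ := κ ^ 2 * ε / 64 with hζ2
  have hζ20 : 0 < ζ2 := by positivity
  obtain ⟨m, hm1, hm⟩ := hσ2 (ζ2 * ε / 8) (by positivity)
  have hm0 : (0 : ℝ) < m := by exact_mod_cast hm1
  set ζ1 : ℝ := κ ^ 2 / (4 * m) with hζ1
  have hζ10 : 0 < ζ1 := by positivity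
  obtain ⟨B, hB⟩ := hX m hm1
  obtain ⟨n, hn1, hn⟩ := hσ2 (ζ1 * ε / (128 * m)) (by positivity)
  have hn0 : (0 : ℝ) < n := by exact_mod_cast hn1
  set Q := m * n with hQ
  have hQ1 : 1 ≤ Q := by rw [hQ]; exact Nat.mul_pos hm1 hn1
  have hQ0 : (0 : ℝ) < Q := by exact_mod_cast hQ1
  have hmQ : m ∣ Q := ⟨n, rfl⟩
  have hQσ : σ - ζ1 * ε / (128 * m) < en M a Q := hn.trans_le (en_mono hM ⟨m, by rw [hQ]; ring⟩)
  -- the good residues
  set G : ℕ → Prop := fun ρ => ∃ c : ℤ, Rich X Q c ∧ (m : ℤ) ∣ c - ρ with hG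
  have hcex : ∀ ρ : ℕ, ∃ c : ℤ, G ρ → (Rich X Q c ∧ (m : ℤ) ∣ c - ρ) := by
    intro ρ
    by_cases h : G ρ
    · obtain ⟨c, hc⟩ := h
      exact ⟨c, fun _ => hc⟩
    · exact ⟨0, fun h' => absurd h' h⟩
  choose c hc using hcex
  set τ : ℕ → ℕ := fun ρ => (c ρ % (Q : ℤ)).toNat with hτ
  have hτ0 : ∀ ρ, ((τ ρ : ℕ) : ℤ) = c ρ % (Q : ℤ) := by
    intro ρ
    simp only [hτ]
    exact Int.toNat_of_nonneg (Int.emod_nonneg _ (by exact_mod_cast hQ0.ne'))
  have hτlt : ∀ ρ, τ ρ < Q := by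
    intro ρ
    have := Int.emod_lt_of_pos (c ρ) (show (0 : ℤ) < Q by exact_mod_cast hQ1)
    have h2 := hτ0 ρ
    omega
  have hτc : ∀ ρ, (Q : ℤ) ∣ (τ ρ : ℤ) - c ρ := by
    intro ρ
    rw [hτ0]
    refine ⟨-(c ρ / Q), ?_⟩
    have := Int.emod_add_mul_ediv (c ρ) Q
    linarith
  -- choice of L
  set η3 : ℝ := ζ1 * ε / (16 * m) with hη3
  have hη30 : 0 < η3 := by positivity
  have hLex : ∀ ρ : ℕ, ∃ L₀ : ℕ, ∀ L : ℕ, L₀ ≤ L → G ρ →
      M (A Q L a * sh (τ ρ) (A Q L a)) ≤ 8 * (σ - en M a Q) + η3 ∧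
      M (A Q L a * sh ((τ ρ : ℤ) - (Q : ℕ)) (A Q L a)) ≤ 8 * (σ - en M a Q) + η3 := by
    intro ρ
    by_cases h : G ρ
    · obtain ⟨hc1, hc2⟩ := hc ρ h
      obtain ⟨L1, _, hL1⟩ := key hM ha X havM σ hσ Q (c ρ) hc1 (τ ρ) (hτc ρ) η3 hη30
      obtain ⟨L2, _, hL2⟩ := key hM ha X havM σ hσ Q (c ρ) hc1 ((τ ρ : ℤ) - (Q : ℕ)) (by
        have : (τ ρ : ℤ) - (Q : ℕ) - c ρ = ((τ ρ : ℤ) - c ρ) - Q := by ring
        rw [this]; exact dvd_sub (hτc ρ) dvd_rfl) η3 hη30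
      exact ⟨max L1 L2, fun L hL _ => ⟨hL1 L (le_trans (le_max_left _ _) hL), hL2 L (le_trans (le_max_right _ _) hL)⟩⟩
    · exact ⟨0, fun _ _ h' => absurd h' h⟩
  choose L₀ hL₀ using hLex
  obtain ⟨L₁, hL₁1, hL₁⟩ := en_upper hM ha Q (ζ2 * ε / 8) (by positivity)
  obtain ⟨L₂, hL₂⟩ := exists_nat_gt (8 * B / ε)
  set L : ℕ := (∑ ρ ∈ range m, L₀ ρ) + L₁ + L₂ with hL
  have hL1 : 1 ≤ L := by omega
  have hLL₀ : ∀ ρ, ρ < m → L₀ ρ ≤ L := by
    intro ρ hρ
    have : L₀ ρ ≤ ∑ ρ ∈ range m, L₀ ρ := single_le_sum (f := L₀) (fun _ _ => Nat.zero_le _) (mem_range.2 hρ)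
    omega
  have hLe := hL₁ L (by omega)
  set b := A Q L a with hb
  have hbd : ∀ x, 0 ≤ b x ∧ b x ≤ 1 := CH_bd ha (A_mem Q hL1 a)
  -- the functional
  set F2 : BF := ∑ ρ ∈ (range m).filter G, A 1 Q (b * (sh (τ ρ) b + sh ((τ ρ : ℤ) - (Q : ℕ)) b)) with hF2
  set F3 : BF := (1 / ((m * n : ℕ) : ℝ)) • ∑ r ∈ range m, ∑ i ∈ range n,
      ((sh ((r + m * i : ℕ) : ℤ) b - sh (r : ℤ) (A m n b)) * (sh ((r + m * i : ℕ) : ℤ) b - sh (r : ℤ) (A m n b))) with hF3
  have hMF1 : M (A 1 Q b) = M a := by rw [M_A hM 1 hQ1, hb, M_A hM Q hL1]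
  have hMF2 : M F2 ≤ ζ1 * ε / 4 := by
    rw [hF2, map_sum]
    calc ∑ ρ ∈ (range m).filter G, M (A 1 Q (b * (sh (τ ρ) b + sh ((τ ρ : ℤ) - (Q : ℕ)) b)))
        ≤ ∑ ρ ∈ (range m).filter G, 2 * (8 * (σ - en M a Q) + η3) := by
          apply sum_le_sum; intro ρ hρ
          rw [mem_filter, mem_range] at hρ
          rw [M_A hM 1 hQ1, mul_add, map_add]
          obtain ⟨g1, g2⟩ := hL₀ ρ L (hLL₀ ρ hρ.1) hρ.2
          linarith
      _ = (((range m).filter G).card : ℝ) * (2 * (8 * (σ - en M a Q) + η3)) := by rw [sum_const, nsmul_eq_mul]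
      _ ≤ m * (2 * (8 * (σ - en M a Q) + η3)) := by
          apply mul_le_mul_of_nonneg_right
          · have : ((range m).filter G).card ≤ m := by
              calc _ ≤ (range m).card := card_filter_le _ _
                _ = m := card_range m
            exact_mod_cast this
          · have := hσ Q hQ1
            have := hη30
            linarith
      _ ≤ m * (2 * (8 * (ζ1 * ε / (128 * m)) + η3)) := by
          apply mul_le_mul_of_nonneg_left _ hm0.le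
          linarith
      _ = ζ1 * ε / 4 := by rw [hη3]; field_simp; ring
  have hMF3 : M F3 ≤ ζ2 * ε / 4 := by
    rw [hF3, mean_F3 hM m n hm1 hn1 b]
    have h1 : en M a m ≤ M (A m n b * A m n b) := by
      apply en_le hM
      exact A_mem_CH hn1 dvd_rfl (CH_mono hmQ a (A_mem Q hL1 a))
    have h2 := hσ Q hQ1
    linarith
  -- a good window
  have hF2nn : ∀ x, 0 ≤ F2 x := by
    intro x
    rw [hF2, bf_sum_apply]
    apply sum_nonneg; intro ρ _
    rw [A_apply]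
    apply mul_nonneg (by positivity)
    apply sum_nonneg; intro i _
    exact mul_nonneg (hbd _).1 (add_nonneg (hbd _).1 (hbd _).1)
  have hF3nn : ∀ x, 0 ≤ F3 x := by
    intro x
    rw [hF3, BoundedContinuousFunction.smul_apply, bf_sum_apply, smul_eq_mul]
    apply mul_nonneg (by positivity)
    apply sum_nonneg; intro r _
    rw [bf_sum_apply]
    apply sum_nonneg; intro i _
    exact mul_self_nonneg _
  have hF1le : ∀ x, A 1 Q b x ≤ 1 := fun x => (CH_bd (a := b) hbd (A_mem 1 hQ1 b) x).2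
  obtain ⟨x, hx⟩ : ∃ x, δ - 3 * ε / 4 ≤ A 1 Q b x - (1 / ζ1) * F2 x - (1 / ζ2) * F3 x := by
    by_contra hcon
    push Not at hcon
    have h1 : M (A 1 Q b - (1 / ζ1) • F2 - (1 / ζ2) • F3) ≤ M ((δ - 3 * ε / 4) • (1 : BF)) := by
      apply hM.mono
      intro x
      have := hcon x
      simp only [BoundedContinuousFunction.sub_apply, BoundedContinuousFunction.smul_apply, smul_eq_mul,
        BoundedContinuousFunction.coe_one, Pi.one_apply, mul_one]
      linarith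
    have e1 : M (A 1 Q b - (1 / ζ1) • F2 - (1 / ζ2) • F3) = M a - (1 / ζ1) * M F2 - (1 / ζ2) * M F3 := by
      rw [map_sub, map_sub, map_smul M (1 / ζ1) F2, map_smul M (1 / ζ2) F3, hMF1, smul_eq_mul, smul_eq_mul]
    have e2 : M ((δ - 3 * ε / 4) • (1 : BF)) = δ - 3 * ε / 4 := by
      rw [map_smul, hM.one, smul_eq_mul, mul_one]
    rw [e1, e2] at h1
    have h2 : (1 / ζ1) * M F2 ≤ ε / 4 := by
      rw [one_div, inv_mul_le_iff₀ hζ10]; linarith
    have h3 : (1 / ζ2) * M F3 ≤ ε / 4 := by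
      rw [one_div, inv_mul_le_iff₀ hζ20]; linarith
    linarith
  have hx1 := hF1le x
  have hx2 := hF2nn x
  have hx3 := hF3nn x
  have hF2x : F2 x ≤ ζ1 := by
    have h0 : 0 ≤ (1 / ζ2) * F3 x := by positivity
    have h1 : (1 / ζ1) * F2 x ≤ 1 := by linarith
    rw [one_div, inv_mul_le_iff₀ hζ10] at h1; linarith
  have hF3x : F3 x ≤ ζ2 := by
    have h0 : 0 ≤ (1 / ζ1) * F2 x := by positivity
    have h1 : (1 / ζ2) * F3 x ≤ 1 := by linarith
    rw [one_div, inv_mul_le_iff₀ hζ20] at h1; linarith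
  have hF1x : δ - 3 * ε / 4 ≤ A 1 Q b x := by
    have h0 : 0 ≤ (1 / ζ1) * F2 x := by positivity
    have h0' : 0 ≤ (1 / ζ2) * F3 x := by positivity
    linarith
  obtain ⟨S, hS1, hS2⟩ := periodise X a ha01 hav m n L B hm1 hn1 hL1 G (by
      intro y hy hy0
      rcases hB y hy hy0 with h | h
      · exact Or.inl h
      · right
        obtain ⟨c', hc'1, hc'2⟩ := h Q hQ1 hmQ
        have hnn : 0 ≤ y % (m : ℤ) := Int.emod_nonneg _ (by exact_mod_cast hm0.ne')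
        have hρ : (((y % (m : ℤ)).toNat : ℕ) : ℤ) = y % (m : ℤ) := Int.toNat_of_nonneg hnn
        have hd : (m : ℤ) ∣ y - ((y % (m : ℤ)).toNat : ℕ) := by
          rw [hρ]
          refine ⟨y / m, ?_⟩
          have := Int.emod_add_mul_ediv y m
          linarith
        refine ⟨(y % (m : ℤ)).toNat, ?_, ⟨c', hc'1, ?_⟩, hd⟩
        · have := Int.emod_lt_of_pos y (show (0 : ℤ) < m by exact_mod_cast hm1)
          omega
        · have e : c' - (((y % (m : ℤ)).toNat : ℕ) : ℤ) = (c' - y) + (y - (((y % (m : ℤ)).toNat : ℕ) : ℤ)) := by ring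
          rw [e]; exact dvd_add hc'2 hd)
    τ (by
      intro ρ hρ hGρ
      refine ⟨hτlt ρ, ?_⟩
      obtain ⟨_, h2⟩ := hc ρ hGρ
      have e : (τ ρ : ℤ) - ρ = ((τ ρ : ℤ) - c ρ) + (c ρ - ρ) := by ring
      rw [e]
      exact dvd_add (dvd_trans (by exact_mod_cast hmQ) (hτc ρ)) h2)
    x κ ε (δ - 3 * ε / 4) hκ hε (by
      have := hF1x
      rw [A_apply] at this
      simpa only [one_mul] using this)
    (by
      intro ρ hρ hGρ
      have h1 : A 1 Q (b * (sh (τ ρ) b + sh ((τ ρ : ℤ) - (Q : ℕ)) b)) x ≤ F2 x := by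
        rw [hF2, bf_sum_apply]
        apply single_le_sum (f := fun ρ => A 1 Q (b * (sh (τ ρ) b + sh ((τ ρ : ℤ) - (Q : ℕ)) b)) x)
        · intro ρ _
          rw [A_apply]
          apply mul_nonneg (by positivity)
          apply sum_nonneg; intro i _
          exact mul_nonneg (hbd _).1 (add_nonneg (hbd _).1 (hbd _).1)
        · rw [mem_filter, mem_range]; exact ⟨hρ, hGρ⟩
      have h2 := h1.trans hF2x
      rw [A_apply] at h2
      simp only [one_mul, BoundedContinuousFunction.mul_apply, BoundedContinuousFunction.add_apply, sh_apply] at h2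
      have e : ∀ j : ℕ, x + (j : ℤ) + (τ ρ : ℤ) - ((m * n : ℕ) : ℤ) = x + j + ((τ ρ : ℤ) - (Q : ℕ)) := by
        intro j; rw [hQ]; ring
      simp_rw [e]
      exact h2)
    (by
      have h2 := hF3x
      rw [hF3, BoundedContinuousFunction.smul_apply, bf_sum_apply, smul_eq_mul] at h2
      simp_rw [bf_sum_apply] at h2
      exact h2)
    (by rw [hκdef]; linarith)
    (by
      have h1 : (L₂ : ℝ) ≤ L := by exact_mod_cast (by omega : L₂ ≤ L)
      have h2 : 8 * (B : ℝ) / ε ≤ L := by linarith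
      rw [div_le_iff₀ hε] at h2
      have h3 : (L : ℝ) ≤ ((m * n * L : ℕ) : ℝ) := by
        have : L ≤ m * n * L := Nat.le_mul_of_pos_left _ hQ1
        exact_mod_cast this
      have h4 : (L : ℝ) * (ε / 8) ≤ ((m * n * L : ℕ) : ℝ) * (ε / 8) := mul_le_mul_of_nonneg_right h3 (by positivity)
      linarith)
  refine ⟨m * n * L, Nat.mul_pos hQ1 hL1, S, hS1, ?_⟩
  have e : δ - ε = δ - 3 * ε / 4 - ε / 4 := by ring
  rw [e]; exact hS2

/-- indicator function of a set of positive integers -/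
noncomputable def ind (A₀ : Set ℕ) : BF := by
  classical
  exact BoundedContinuousFunction.ofNormedAddCommGroupDiscrete
    (fun x : ℤ => if 1 ≤ x ∧ x.toNat ∈ A₀ then (1 : ℝ) else 0) 1 (by
      intro x; split_ifs <;> simp)

open Classical in
lemma ind_apply (A₀ : Set ℕ) (x : ℤ) : ind A₀ x = if 1 ≤ x ∧ x.toNat ∈ A₀ then (1 : ℝ) else 0 := rfl

lemma avg_ind (A₀ : Set ℕ) (N : ℕ) : avg N (ind A₀) = ((A₀ ∩ Set.Icc 1 N).ncard : ℝ) / N := by
  classical
  unfold avg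
  have h1 : ∑ n ∈ range N, ind A₀ ((n : ℤ) + 1) = (((range N).filter (fun n => n + 1 ∈ A₀)).card : ℝ) := by
    rw [card_eq_sum_ones, sum_filter]
    push_cast
    apply sum_congr rfl; intro n _
    rw [ind_apply]
    have e : ((n : ℤ) + 1).toNat = n + 1 := by omega
    rw [e]
    by_cases h : n + 1 ∈ A₀
    · rw [if_pos ⟨by omega, h⟩, if_pos h]
    · rw [if_neg (fun h' => h h'.2), if_neg h]
  have h2 : (A₀ ∩ Set.Icc 1 N).ncard = ((range N).filter (fun n => n + 1 ∈ A₀)).card := by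
    have : A₀ ∩ Set.Icc 1 N = (((range N).filter (fun n => n + 1 ∈ A₀)).image (fun n => n + 1) : Finset ℕ) := by
      ext y
      simp only [Set.mem_inter_iff, Set.mem_Icc, coe_image, coe_filter, Set.mem_image, Set.mem_ofPred_eq, mem_range]
      constructor
      · rintro ⟨h1, h2, h3⟩
        exact ⟨y - 1, ⟨by omega, by rwa [Nat.sub_add_cancel h2]⟩, by omega⟩
      · rintro ⟨n, ⟨h1, h2⟩, rfl⟩
        exact ⟨h2, by omega, by omega⟩
    rw [this, Set.ncard_coe_finset, card_image_of_injective _ (fun a b h => by simpa using h)]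
  rw [h1, h2]; ring

theorem upper_abstract (X : Set ℤ) (hX : LocRich X) (A₀ : Set ℕ)
    (hA : ∀ a ∈ A₀, ∀ b ∈ A₀, ((a : ℤ) - b) ∈ X → (a : ℤ) - b = 0)
    (δ : ℝ) (hδ : ∃ᶠ N in atTop, δ ≤ ((A₀ ∩ Set.Icc 1 N).ncard : ℝ) / N) (ε : ℝ) (hε : 0 < ε) :
    ∃ q : ℕ, 1 ≤ q ∧ ∃ S : Finset (ZMod q), (∀ a' ∈ S, ∀ b' ∈ S, ∀ x ∈ X, x ≠ 0 → (x : ZMod q) ≠ a' - b') ∧
      (δ - ε) * q ≤ S.card := by
  classical
  obtain ⟨M, hM, hMa⟩ := exists_mean (ind A₀) δ (by simpa only [avg_ind] using hδ)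
  apply from_mean hM (a := ind A₀) _ X hX _ δ hMa ε hε
  · intro x
    rw [ind_apply]
    split_ifs
    · right; rfl
    · left; rfl
  · rintro t ht ht0 x ⟨h1, h2⟩
    rw [ind_apply] at h1 h2
    split_ifs at h1 h2 with h3 h4
    · apply ht0
      have h5 := hA _ h4.2 _ h3.2
      have e1 : (((x + t).toNat : ℕ) : ℤ) = x + t := Int.toNat_of_nonneg (by omega)
      have e2 : ((x.toNat : ℕ) : ℤ) = x := Int.toNat_of_nonneg (by omega)
      rw [e1, e2] at h5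
      have e3 : x + t - x = t := by ring
      rw [e3] at h5
      exact h5 ht
    · norm_num at h2
    · norm_num at h1
    · norm_num at h1

end Pool.Agent.V11293.E70
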