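import Mathlib
import Pool.Agent.V11293.E70.Energy

/-! Tools to prove richness of classes. -/

namespace Pool.Agent.V11293.E70
open Finset Filter Topology
open Pool.Agent.Helper602.MK (ee)
open Pool.Agent.Helper602.MK.N_J5b (ee_add ee_zero ee_conj norm_ee ee_int ee_nat_mul ee_eq_one_iff ee_eq)

/-- richness from weighted families -/
lemma rich_of_family (X : Set ℤ) (Q : ℕ) (c : ℤ)
    (h : ∀ ε : ℝ, 0 < ε → ∃ R : ℕ, 1 ≤ R ∧ Q ∣ R ∧ ∀ L₀ : ℕ, ∃ L : ℕ, L₀ ≤ L ∧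
      ∃ (I : Finset ℕ) (w : ℕ → ℝ) (f : ℕ → ℤ), (∀ n ∈ I, 0 ≤ w n) ∧ 0 < ∑ n ∈ I, w n ∧
      (∀ n ∈ I, f n ∈ X ∧ f n ≠ 0 ∧ (Q : ℤ) ∣ f n - c) ∧
      ∀ θ : ℝ, ‖∑ n ∈ I, (w n : ℂ) * ee ((f n : ℝ) * θ)‖ ≤ ε * ∑ n ∈ I, w n ∨ 1 / 2 ≤ DD R L θ) :
    Rich X Q c := by
  classical
  intro ε hε
  obtain ⟨R, hR1, hQR, hR⟩ := h ε hε
  refine ⟨R, hR1, hQR, fun L₀ => ?_⟩
  obtain ⟨L, hL, I, w, f, hw, hw0, hf, hθ⟩ := hR L₀
  set S := ∑ n ∈ I, w n with hS
  refine ⟨L, hL, I.image f, fun t => (∑ n ∈ I with f n = t, w n) / S, ?_, ?_, ?_, ?_⟩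
  · intro t _
    apply div_nonneg _ hw0.le
    apply sum_nonneg; intro n hn
    exact hw n (mem_filter.1 hn).1
  · rw [← sum_div, sum_fiberwise_of_maps_to (fun n hn => mem_image_of_mem f hn), div_self hw0.ne']
  · intro t ht
    rw [mem_image] at ht
    obtain ⟨n, hn, rfl⟩ := ht
    exact hf n hn
  · intro θ
    rcases hθ θ with h1 | h1
    · left
      have e : ∑ t ∈ I.image f, (((∑ n ∈ I with f n = t, w n) / S : ℝ) : ℂ) * ee ((t : ℝ) * θ) =
          (∑ n ∈ I, (w n : ℂ) * ee ((f n : ℝ) * θ)) / (S : ℂ) := by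
        rw [← sum_fiberwise_of_maps_to (fun n hn => mem_image_of_mem f hn), sum_div]
        apply sum_congr rfl; intro t _
        push_cast
        rw [div_mul_eq_mul_div, sum_mul]
        congr 1
        apply sum_congr rfl; intro n hn
        rw [(mem_filter.1 hn).2]
      rw [e, norm_div, Complex.norm_real, Real.norm_eq_abs, abs_of_pos hw0, div_le_iff₀ hw0]
      exact h1
    · right; exact h1

lemma DD_large (R L : ℕ) (hL : 1 ≤ L) (θ : ℝ) (b : ℤ) (h : |R * θ - b| * L ≤ 1 / 10) :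
    1 / 2 ≤ DD R L θ := by
  have hL0 : (0 : ℝ) < L := by exact_mod_cast hL
  have h1 : ∀ i ∈ range L, 4 / 5 ≤ (ee (((R * i : ℕ) : ℝ) * θ)).re := by
    intro i hi
    rw [mem_range] at hi
    have e : ((R * i : ℕ) : ℝ) * θ = i * (R * θ - b) + ((i * b : ℤ) : ℝ) := by push_cast; ring
    rw [e, ee_add, ee_int, mul_one]
    set y := (i : ℝ) * (R * θ - b) with hy
    have hyb : |y| ≤ 1 / 10 := by
      rw [hy, abs_mul, abs_of_nonneg (by positivity : (0 : ℝ) ≤ i)]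
      have : (i : ℝ) ≤ L := by exact_mod_cast hi.le
      have h2 := mul_le_mul_of_nonneg_right this (abs_nonneg (R * θ - b))
      linarith
    have hre : (ee y).re = Real.cos (2 * Real.pi * y) := by
      rw [ee_eq]; exact Complex.exp_ofReal_mul_I_re _
    rw [hre]
    have h3 := Real.one_sub_sq_div_two_le_cos (x := 2 * Real.pi * y)
    have hpi := Real.pi_lt_d2
    have hpi0 := Real.pi_pos
    have h4 : y ^ 2 ≤ 1 / 100 := by
      have := sq_abs y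
      have h5 : |y| ^ 2 ≤ (1 / 10) ^ 2 := pow_le_pow_left₀ (abs_nonneg _) hyb 2
      rw [this] at h5; linarith
    have h5 : (2 * Real.pi * y) ^ 2 ≤ 0.4 := by
      have : (2 * Real.pi * y) ^ 2 = 4 * Real.pi ^ 2 * y ^ 2 := by ring
      rw [this]
      have h6 : Real.pi ^ 2 ≤ 10 := by nlinarith
      nlinarith [sq_nonneg y, sq_nonneg Real.pi]
    linarith
  unfold DD
  set z := (1 / (L : ℂ)) * ∑ i ∈ range L, ee (((R * i : ℕ) : ℝ) * θ) with hz
  have h2 : 4 / 5 ≤ z.re := by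
    have e : z.re = (1 / (L : ℝ)) * ∑ i ∈ range L, (ee (((R * i : ℕ) : ℝ) * θ)).re := by
      have e1 : z = ((1 / (L : ℝ) : ℝ) : ℂ) * ∑ i ∈ range L, ee (((R * i : ℕ) : ℝ) * θ) := by
        rw [hz]; push_cast; rfl
      rw [e1, Complex.re_ofReal_mul, Complex.re_sum]
    rw [e]
    calc (4 / 5 : ℝ) = (1 / (L : ℝ)) * ∑ _i ∈ range L, (4 / 5 : ℝ) := by
          rw [sum_const, card_range, nsmul_eq_mul]; field_simp
      _ ≤ _ := mul_le_mul_of_nonneg_left (sum_le_sum h1) (by positivity)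
  have h3 : z.re ≤ ‖z‖ := Complex.re_le_norm z
  nlinarith [norm_nonneg z]

end Pool.Agent.V11293.E70
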