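import Mathlib
import Pool.Agent.V11293.E70.RichTools
import Pool.Agent.V11293.E70.Abs
import Pool.Agent.H373R2.NB.Weyl

/-! Richness for the integer values of a polynomial. -/

namespace Pool.Agent.V11293.E70
open Finset Filter Topology Polynomial
open Pool.Agent.Helper602.MK (ee)
open Pool.Agent.Helper602.MK.N_J5b (ee_add ee_zero ee_conj norm_ee ee_int ee_nat_mul ee_eq_one_iff ee_eq)
open Pool.Agent.H373R2.NB (IW_all Ph_poly)

lemma card_zeros (f : ℤ[X]) (hf : f ≠ 0) (N : ℕ) :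
    ((range N).filter (fun n : ℕ => f.eval (n : ℤ) = 0)).card ≤ f.natDegree := by
  classical
  calc ((range N).filter (fun n : ℕ => f.eval (n : ℤ) = 0)).card ≤ f.roots.toFinset.card := by
        apply card_le_card_of_injOn (fun n : ℕ => (n : ℤ))
        · intro n hn
          rw [mem_coe, mem_filter] at hn
          rw [mem_coe, Multiset.mem_toFinset, mem_roots hf]
          exact hn.2
        · intro a _ b _ h
          simpa using h
    _ ≤ Multiset.card f.roots := Multiset.toFinset_card_le _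
    _ ≤ f.natDegree := card_roots' f

/-- polynomial along a progression -/
noncomputable def along (h : ℤ[X]) (s : ℤ) (Q : ℕ) : ℤ[X] := h.comp (C (Q : ℤ) * X + C s)

lemma along_eval (h : ℤ[X]) (s : ℤ) (Q : ℕ) (n : ℤ) : (along h s Q).eval n = h.eval (Q * n + s) := by
  unfold along; simp [eval_comp]

lemma along_natDegree (h : ℤ[X]) (s : ℤ) (Q : ℕ) (hQ : 1 ≤ Q) : (along h s Q).natDegree = h.natDegree := by
  unfold along
  rw [natDegree_comp, natDegree_linear (by exact_mod_cast (by omega : Q ≠ 0)), mul_one]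

lemma along_coeff (h : ℤ[X]) (s : ℤ) (Q : ℕ) (hQ : 1 ≤ Q) :
    (along h s Q).coeff h.natDegree = h.leadingCoeff * (Q : ℤ) ^ h.natDegree := by
  have hQ0 : (Q : ℤ) ≠ 0 := by exact_mod_cast (by omega : Q ≠ 0)
  have h1 := along_natDegree h s Q hQ
  have h2 : (along h s Q).leadingCoeff = h.leadingCoeff * (Q : ℤ) ^ h.natDegree := by
    unfold along
    rw [leadingCoeff_comp (by rw [natDegree_linear hQ0]; norm_num), leadingCoeff_linear hQ0]
  rw [← h2]; unfold leadingCoeff; rw [h1]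

theorem int_rich (h : ℤ[X]) (hd : 1 ≤ h.natDegree) (Q : ℕ) (hQ : 1 ≤ Q) (s : ℤ) :
    Rich (Set.range fun n : ℤ => h.eval n) Q (h.eval s) := by
  classical
  apply rich_of_family
  intro ε hε
  obtain ⟨c, m, hc, hI⟩ := IW_all h.natDegree hd
  set d := h.natDegree with hddef
  have hh0 : h ≠ 0 := by
    intro h0; rw [hddef, h0, natDegree_zero] at hd; omega
  set u : ℝ := 4 / ε + 1 with hu
  have hu1 : 1 ≤ u := by
    have : 0 < 4 / ε := by positivity
    linarith
  have huε : 4 / ε ≤ u := by linarith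
  set K : ℕ := ⌈(c : ℝ) * u ^ m⌉₊ with hK
  have hKu : (c : ℝ) * u ^ m ≤ K := Nat.le_ceil _
  have hlc : h.leadingCoeff.natAbs ≠ 0 := by
    rw [Int.natAbs_ne_zero]; exact leadingCoeff_ne_zero.2 hh0
  set R : ℕ := K.factorial * (d.factorial * (h.leadingCoeff.natAbs * Q ^ d)) * Q with hR
  have hR1 : 1 ≤ R := by
    rw [hR]
    exact Nat.mul_pos (Nat.mul_pos (Nat.factorial_pos K) (Nat.mul_pos (Nat.factorial_pos d)
      (Nat.mul_pos (Nat.pos_of_ne_zero hlc) (Nat.pow_pos hQ)))) hQ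
  refine ⟨R, hR1, ⟨K.factorial * (d.factorial * (h.leadingCoeff.natAbs * Q ^ d)), by rw [hR]; ring⟩, fun L₀ => ?_⟩
  set L := L₀ + 1 with hL
  have hL1 : 1 ≤ L := by omega
  have hL0 : (0 : ℝ) < L := by exact_mod_cast hL1
  -- choice of N
  obtain ⟨N, hN⟩ := exists_nat_gt (10 * L * (K.factorial * Q * K) + 2 * d * (1 + 1 / ε) + 2 * d + 1)
  have hterm1 : (0 : ℝ) ≤ 10 * L * (K.factorial * Q * K) := by positivity
  have hterm2 : (0 : ℝ) ≤ 2 * d * (1 + 1 / ε) := by positivity
  have hterm3 : (0 : ℝ) ≤ 2 * d := by positivity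
  have hN1r : (1 : ℝ) < N := by linarith
  have hN1 : 1 ≤ N := by exact_mod_cast hN1r.le
  have hN0 : (0 : ℝ) < N := by linarith
  set f := along h s Q with hf
  have hfd : f.natDegree = d := along_natDegree h s Q hQ
  have hf0 : f ≠ 0 := by
    intro h0; rw [h0, natDegree_zero] at hfd; omega
  set I := (range N).filter (fun n : ℕ => f.eval (n : ℤ) ≠ 0) with hIdef
  have hIcard : N ≤ I.card + d := by
    have h1 := card_filter_add_card_filter_not (s := range N) (fun n : ℕ => f.eval (n : ℤ) = 0)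
    rw [card_range] at h1
    have h2 := card_zeros f hf0 N
    rw [hfd] at h2
    have h3 : I.card = ((range N).filter (fun n : ℕ => ¬ f.eval (n : ℤ) = 0)).card := rfl
    omega
  have hIcardR : (N : ℝ) ≤ I.card + d := by exact_mod_cast hIcard
  refine ⟨L, by omega, I, fun _ => 1, fun n => f.eval (n : ℤ), fun _ _ => zero_le_one, ?_, ?_, ?_⟩
  · rw [sum_const, nsmul_eq_mul, mul_one]
    linarith
  · intro n hn
    refine ⟨⟨Q * n + s, by simp only [hf, along_eval]⟩, (mem_filter.1 hn).2, ?_⟩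
    simp only [hf, along_eval]
    have := sub_dvd_eval_sub (Q * (n : ℤ) + s) s h
    refine dvd_trans ?_ this
    exact ⟨n, by ring⟩
  · intro θ
    rw [sum_const, nsmul_eq_mul, mul_one]
    by_cases hS : (N : ℝ) ≤ u * ‖∑ n ∈ range N, ee (θ * ((f.eval (n : ℤ) : ℤ) : ℝ))‖
    · right
      obtain ⟨q, hq1, hq2, a, ha⟩ := hI N u _ _ hN1 hu1 (Ph_poly d f hfd.le θ) hS
      have hqK : q ≤ K := by exact_mod_cast hq2.trans hKu
      have hqd : q ∣ K.factorial := Nat.dvd_factorial hq1 hqK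
      obtain ⟨e, he⟩ := hqd
      have hcoef : f.coeff d = h.leadingCoeff * (Q : ℤ) ^ d := along_coeff h s Q hQ
      rw [hcoef] at ha
      -- sign of the leading coefficient
      have hsign : ∃ σ : ℤ, |(σ : ℝ)| = 1 ∧ (h.leadingCoeff.natAbs : ℝ) = σ * h.leadingCoeff := by
        rcases Int.natAbs_eq h.leadingCoeff with h1 | h1
        · refine ⟨1, by norm_num, ?_⟩
          have h3 : ((h.leadingCoeff.natAbs : ℤ) : ℝ) = (h.leadingCoeff : ℝ) := congrArg _ h1.symm
          rw [Int.cast_natCast] at h3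
          rw [h3, Int.cast_one, one_mul]
        · refine ⟨-1, by norm_num, ?_⟩
          have h2 : (h.leadingCoeff.natAbs : ℤ) = -h.leadingCoeff := by omega
          have h3 : ((h.leadingCoeff.natAbs : ℤ) : ℝ) = ((-h.leadingCoeff : ℤ) : ℝ) := congrArg _ h2
          rw [Int.cast_natCast] at h3
          rw [h3, Int.cast_neg, Int.cast_neg, Int.cast_one, neg_one_mul]
      obtain ⟨σ, hσ1, hσ2⟩ := hsign
      apply DD_large R L hL1 θ (e * Q * σ * a)
      have e1 : (R : ℝ) * θ - ((e * Q * σ * a : ℤ) : ℝ) =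
          (e * Q * σ) * (q * (θ * ((d.factorial : ℝ) * ((h.leadingCoeff * (Q : ℤ) ^ d : ℤ) : ℝ))) - a) := by
        rw [hR, he, Nat.cast_mul, Nat.cast_mul, Nat.cast_mul, Nat.cast_mul, Nat.cast_mul, hσ2]
        push_cast
        ring
      rw [e1, abs_mul]
      have he0 : (0 : ℝ) ≤ e := Nat.cast_nonneg _
      have heK : (e : ℝ) ≤ K.factorial := by
        rw [he]; exact_mod_cast Nat.le_mul_of_pos_left e hq1
      have e2 : |(e : ℝ) * Q * σ| = e * Q := by
        rw [abs_mul, hσ1, mul_one, abs_of_nonneg (by positivity)]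
      rw [e2]
      have hNd : (N : ℝ) ≤ (N : ℝ) ^ d := le_self_pow₀ hN1r.le (by omega)
      have e3 : |(q : ℝ) * (θ * ((d.factorial : ℝ) * ((h.leadingCoeff * (Q : ℤ) ^ d : ℤ) : ℝ))) - a| ≤ K / N := by
        refine ha.trans ?_
        gcongr
      calc (e : ℝ) * Q * |(q : ℝ) * (θ * ((d.factorial : ℝ) * ((h.leadingCoeff * (Q : ℤ) ^ d : ℤ) : ℝ))) - a| * L
          ≤ K.factorial * Q * (K / N) * L := by gcongr
        _ = L * (K.factorial * Q * K) / N := by ring
        _ ≤ 1 / 10 := by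
          rw [div_le_iff₀ hN0]; linarith
    · left
      push Not at hS
      have h1 : ‖∑ n ∈ range N, ee (θ * ((f.eval (n : ℤ) : ℤ) : ℝ))‖ ≤ ε * N / 4 := by
        have h2 : 4 / ε * ‖∑ n ∈ range N, ee (θ * ((f.eval (n : ℤ) : ℤ) : ℝ))‖ ≤ N :=
          (mul_le_mul_of_nonneg_right huε (norm_nonneg _)).trans hS.le
        rw [div_mul_eq_mul_div, div_le_iff₀ hε] at h2
        linarith
      have h3 : ∑ n ∈ I, (((1 : ℝ)) : ℂ) * ee (((f.eval (n : ℤ) : ℤ) : ℝ) * θ) =
          ∑ n ∈ range N, ee (θ * ((f.eval (n : ℤ) : ℤ) : ℝ)) -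
            ∑ n ∈ (range N).filter (fun n : ℕ => f.eval (n : ℤ) = 0), ee (θ * ((f.eval (n : ℤ) : ℤ) : ℝ)) := by
        rw [eq_sub_iff_add_eq', ← sum_filter_add_sum_filter_not (range N) (fun n : ℕ => f.eval (n : ℤ) = 0)]
        congr 1
        apply sum_congr rfl; intro n _
        rw [mul_comm θ]; push_cast; ring
      rw [h3]
      refine (norm_sub_le _ _).trans ?_
      have h4 : ‖∑ n ∈ (range N).filter (fun n : ℕ => f.eval (n : ℤ) = 0), ee (θ * ((f.eval (n : ℤ) : ℤ) : ℝ))‖ ≤ d := by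
        refine (norm_sum_le _ _).trans ?_
        simp_rw [norm_ee]
        rw [sum_const, nsmul_eq_mul, mul_one]
        have := card_zeros f hf0 N
        rw [hfd] at this
        exact_mod_cast this
      have h5 : 2 * (d : ℝ) * (1 + 1 / ε) ≤ N := by linarith
      have h6 : 2 * (d : ℝ) * (ε + 1) ≤ ε * N := by
        have := mul_le_mul_of_nonneg_left h5 hε.le
        have e : ε * (2 * (d : ℝ) * (1 + 1 / ε)) = 2 * d * (ε + 1) := by field_simp
        linarith
      have h7 : ε * (N : ℝ) ≤ ε * (I.card + d) := mul_le_mul_of_nonneg_left hIcardR hε.le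
      nlinarith

/-- local structure for the values at integers -/
theorem int_locRich (h : ℤ[X]) (hd : 1 ≤ h.natDegree) : LocRich (Set.range fun n : ℤ => h.eval n) := by
  intro m _
  refine ⟨0, ?_⟩
  rintro _ ⟨s, rfl⟩ _
  right
  intro Q hQ _
  exact ⟨h.eval s, int_rich h hd Q hQ s, by simp⟩

theorem bdd_locRich (X : Set ℤ) (B : ℕ) (h : ∀ x ∈ X, |x| ≤ B) : LocRich X :=
  fun _ _ => ⟨B, fun x hx _ => Or.inl (h x hx)⟩

end Pool.Agent.V11293.E70
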