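import Mathlib
import Pool.Agent.H373R2.NB.Weyl

/-! Tools for exponential sums over primes with polynomial phases. -/

namespace Pool.Agent.V11293.E70
open Finset Filter Topology Polynomial
open Pool.Agent.Helper602.MK (ee)
open Pool.Agent.Helper602.MK.N_J5b (ee_add ee_zero ee_conj norm_ee ee_int ee_nat_mul ee_eq_one_iff ee_eq normsq_sum)
open Pool.Agent.H373R2.NB (IW_all Ph Ph_poly)

/-- real polynomials are polynomial phases -/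
theorem PhR (d : ℕ) : ∀ f : ℝ[X], f.natDegree ≤ d → Ph d ((d.factorial : ℝ) * f.coeff d) (fun n => f.eval (n : ℝ)) := by
  induction d with
  | zero =>
    intro f hf n
    have h1 : f = C (f.coeff 0) := eq_C_of_natDegree_le_zero hf
    have h2 : f.eval (n : ℝ) = f.coeff 0 := by
      conv_lhs => rw [h1]
      rw [eval_C]
    show f.eval (n : ℝ) = _
    rw [h2]; simp
  | succ d ih =>
    intro f hf h
    set g : ℝ[X] := taylor (h : ℝ) f - f with hg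
    have hcoef : ∀ j, d ≤ j → (taylor (h : ℝ) f).coeff j = f.coeff j + (if j = d then ((d : ℝ) + 1) * f.coeff (d + 1) * h else 0) := by
      intro j hj
      rw [taylor_coeff]
      have h1 : (hasseDeriv j f).natDegree < 2 := by
        have := natDegree_hasseDeriv_le f j
        omega
      rw [eval_eq_sum_range' h1, sum_range_succ, sum_range_succ, sum_range_zero, hasseDeriv_coeff, hasseDeriv_coeff]
      rcases eq_or_ne j d with h2 | h2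
      · subst h2
        rw [if_pos rfl, zero_add, zero_add, Nat.choose_self, add_comm 1 j, Nat.choose_succ_self_right]
        push_cast
        ring
      · rw [if_neg h2]
        have h3 : f.coeff (1 + j) = 0 := coeff_eq_zero_of_natDegree_lt (by omega)
        rw [h3, zero_add, zero_add, Nat.choose_self]
        push_cast
        ring
    have hgd : g.natDegree ≤ d := by
      rw [natDegree_le_iff_coeff_eq_zero]
      intro j hj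
      rw [hg, coeff_sub, hcoef j (by omega), if_neg (by omega)]
      ring
    have hgc : g.coeff d = ((d : ℝ) + 1) * f.coeff (d + 1) * h := by
      rw [hg, coeff_sub, hcoef d le_rfl, if_pos rfl]; ring
    have h1 := ih g hgd
    have h2 : (fun n : ℕ => g.eval (n : ℝ)) = fun n : ℕ => f.eval ((n + h : ℕ) : ℝ) - f.eval (n : ℝ) := by
      funext n
      rw [hg, eval_sub, taylor_eval]
      push_cast
      ring_nf
    have h3 : (d.factorial : ℝ) * g.coeff d = (h : ℝ) * (((d + 1).factorial : ℝ) * f.coeff (d + 1)) := by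
      rw [hgc, Nat.factorial_succ]; push_cast; ring
    rw [h2, h3] at h1
    exact h1

lemma taylor_coeff_top (f : ℝ[X]) (k : ℕ) (hf : f.natDegree ≤ k) (r : ℝ) : (taylor r f).coeff k = f.coeff k := by
  rw [taylor_coeff]
  have h1 : (hasseDeriv k f).natDegree ≤ 0 := by
    have := natDegree_hasseDeriv_le f k
    omega
  rw [eq_C_of_natDegree_le_zero h1, eval_C, hasseDeriv_coeff, zero_add, Nat.choose_self, Nat.cast_one, one_mul]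

/-- inverse theorem on intervals -/
theorem IWint (k : ℕ) (hk : 1 ≤ k) : ∃ c m : ℕ, 1 ≤ c ∧ ∀ (F : ℝ[X]) (a b : ℕ) (u : ℝ), F.natDegree ≤ k → a < b → 1 ≤ u →
    ((b - a : ℕ) : ℝ) ≤ u * ‖∑ l ∈ Ioc a b, ee (F.eval (l : ℝ))‖ →
    ∃ q : ℕ, 1 ≤ q ∧ (q : ℝ) ≤ c * u ^ m ∧ ∃ z : ℤ, |q * ((k.factorial : ℝ) * F.coeff k) - z| ≤ c * u ^ m / ((b - a : ℕ) : ℝ) ^ k := by
  obtain ⟨c, m, hc, hI⟩ := IW_all k hk
  refine ⟨c, m, hc, fun F a b u hF hab hu hS => ?_⟩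
  set G := taylor ((a : ℝ) + 1) F with hG
  have hGd : G.natDegree ≤ k := by rw [hG, natDegree_taylor]; exact hF
  have hsum : ∑ l ∈ Ioc a b, ee (F.eval (l : ℝ)) = ∑ n ∈ range (b - a), ee (G.eval (n : ℝ)) := by
    symm
    apply sum_bij (fun (n : ℕ) _ => n + (a + 1))
    · intro n hn; rw [mem_range] at hn; rw [mem_Ioc]; omega
    · intro x _ y _ h; omega
    · intro l hl
      rw [mem_Ioc] at hl
      exact ⟨l - (a + 1), by rw [mem_range]; omega, by omega⟩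
    · intro n _
      rw [hG, taylor_eval]; push_cast; rfl
  rw [hsum] at hS
  have h := hI (b - a) u _ _ (by omega) hu (PhR k G hGd) hS
  rwa [hG, taylor_coeff_top F k hF] at h

/-- bilinear Cauchy-Schwarz -/
lemma cs_bil (S T : Finset ℕ) (a b : ℕ → ℂ) (K : ℕ → ℕ → ℂ) :
    ‖∑ m ∈ S, ∑ l ∈ T, a m * b l * K m l‖ ^ 4 ≤ (∑ l ∈ T, ‖b l‖ ^ 2) ^ 2 * (∑ m ∈ S, ‖a m‖ ^ 2) ^ 2 *
      ∑ m ∈ S, ∑ m' ∈ S, ‖∑ l ∈ T, K m l * (starRingEnd ℂ) (K m' l)‖ ^ 2 := by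
  set X : ℕ → ℂ := fun l => ∑ m ∈ S, a m * K m l with hX
  have h1 : ∑ m ∈ S, ∑ l ∈ T, a m * b l * K m l = ∑ l ∈ T, b l * X l := by
    rw [sum_comm]
    apply sum_congr rfl; intro l _
    rw [hX]; simp only
    rw [mul_sum]
    apply sum_congr rfl; intro m _; ring
  have h2 : ‖∑ l ∈ T, b l * X l‖ ^ 2 ≤ (∑ l ∈ T, ‖b l‖ ^ 2) * ∑ l ∈ T, ‖X l‖ ^ 2 := by
    have e1 : ‖∑ l ∈ T, b l * X l‖ ≤ ∑ l ∈ T, ‖b l‖ * ‖X l‖ := by
      refine (norm_sum_le _ _).trans (le_of_eq ?_)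
      apply sum_congr rfl; intro l _; rw [norm_mul]
    calc ‖∑ l ∈ T, b l * X l‖ ^ 2 ≤ (∑ l ∈ T, ‖b l‖ * ‖X l‖) ^ 2 := pow_le_pow_left₀ (norm_nonneg _) e1 2
      _ ≤ _ := sum_mul_sq_le_sq_mul_sq _ _ _
  have h3 : ((∑ l ∈ T, ‖X l‖ ^ 2 : ℝ) : ℂ) = ∑ m ∈ S, ∑ m' ∈ S, (a m * (starRingEnd ℂ) (a m')) *
      ∑ l ∈ T, K m l * (starRingEnd ℂ) (K m' l) := by
    push_cast
    have e1 : ∀ l ∈ T, ((‖X l‖ : ℂ)) ^ 2 = ∑ m ∈ S, ∑ m' ∈ S, (a m * K m l) * (starRingEnd ℂ) (a m' * K m' l) := by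
      intro l _
      have := normsq_sum S (fun m => a m * K m l)
      rw [← this, hX]; push_cast; rfl
    rw [sum_congr rfl e1, sum_comm]
    apply sum_congr rfl; intro m _
    rw [sum_comm]
    apply sum_congr rfl; intro m' _
    rw [mul_sum]
    apply sum_congr rfl; intro l _
    rw [map_mul]; ring
  have h4 : (∑ l ∈ T, ‖X l‖ ^ 2) ^ 2 ≤ (∑ m ∈ S, ‖a m‖ ^ 2) ^ 2 *
      ∑ m ∈ S, ∑ m' ∈ S, ‖∑ l ∈ T, K m l * (starRingEnd ℂ) (K m' l)‖ ^ 2 := by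
    have e1 : ∑ l ∈ T, ‖X l‖ ^ 2 ≤ ∑ x ∈ S ×ˢ S, (‖a x.1‖ * ‖a x.2‖) * ‖∑ l ∈ T, K x.1 l * (starRingEnd ℂ) (K x.2 l)‖ := by
      have e2 : ∑ l ∈ T, ‖X l‖ ^ 2 = ‖((∑ l ∈ T, ‖X l‖ ^ 2 : ℝ) : ℂ)‖ := by
        rw [Complex.norm_real, Real.norm_eq_abs, abs_of_nonneg (by positivity)]
      rw [e2, h3, ← sum_product']
      refine (norm_sum_le _ _).trans (le_of_eq ?_)
      apply sum_congr rfl; intro x _
      rw [norm_mul, norm_mul, RCLike.norm_conj]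
    have e3 : (∑ x ∈ S ×ˢ S, (‖a x.1‖ * ‖a x.2‖) * ‖∑ l ∈ T, K x.1 l * (starRingEnd ℂ) (K x.2 l)‖) ^ 2 ≤
        (∑ x ∈ S ×ˢ S, (‖a x.1‖ * ‖a x.2‖) ^ 2) * ∑ x ∈ S ×ˢ S, ‖∑ l ∈ T, K x.1 l * (starRingEnd ℂ) (K x.2 l)‖ ^ 2 :=
      sum_mul_sq_le_sq_mul_sq _ _ _
    have e4 : ∑ x ∈ S ×ˢ S, (‖a x.1‖ * ‖a x.2‖) ^ 2 = (∑ m ∈ S, ‖a m‖ ^ 2) ^ 2 := by
      rw [sq (∑ m ∈ S, ‖a m‖ ^ 2), sum_mul_sum, ← sum_product']
      apply sum_congr rfl; intro x _; ring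
    have e5 : ∑ x ∈ S ×ˢ S, ‖∑ l ∈ T, K x.1 l * (starRingEnd ℂ) (K x.2 l)‖ ^ 2 =
        ∑ m ∈ S, ∑ m' ∈ S, ‖∑ l ∈ T, K m l * (starRingEnd ℂ) (K m' l)‖ ^ 2 := by rw [sum_product]
    rw [e4, e5] at e3
    exact (pow_le_pow_left₀ (by positivity) e1 2).trans e3
  rw [h1]
  calc ‖∑ l ∈ T, b l * X l‖ ^ 4 = (‖∑ l ∈ T, b l * X l‖ ^ 2) ^ 2 := by ring
    _ ≤ ((∑ l ∈ T, ‖b l‖ ^ 2) * ∑ l ∈ T, ‖X l‖ ^ 2) ^ 2 := pow_le_pow_left₀ (by positivity) h2 2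
    _ = (∑ l ∈ T, ‖b l‖ ^ 2) ^ 2 * (∑ l ∈ T, ‖X l‖ ^ 2) ^ 2 := by ring
    _ ≤ (∑ l ∈ T, ‖b l‖ ^ 2) ^ 2 * ((∑ m ∈ S, ‖a m‖ ^ 2) ^ 2 *
      ∑ m ∈ S, ∑ m' ∈ S, ‖∑ l ∈ T, K m l * (starRingEnd ℂ) (K m' l)‖ ^ 2) := mul_le_mul_of_nonneg_left h4 (by positivity)
    _ = _ := by ring

/-- many large entries -/
lemma many_large (P : Finset (ℕ × ℕ)) (t : ℕ × ℕ → ℝ) (D Λ : ℝ) (hD : 0 < D) (hΛ : 0 < Λ) (ht0 : ∀ x ∈ P, 0 ≤ t x)
    (ht : ∀ x ∈ P, t x ≤ Λ) (h : (P.card : ℝ) * Λ ^ 2 * (2 * D ^ 2) < ∑ x ∈ P, t x ^ 2) :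
    (P.card : ℝ) * D ^ 2 ≤ ((P.filter (fun x => D * Λ ≤ t x)).card : ℝ) := by
  classical
  have h1 : ∑ x ∈ P, t x ^ 2 ≤ ∑ x ∈ P, ((if D * Λ ≤ t x then Λ ^ 2 else 0) + (D * Λ) ^ 2) := by
    apply sum_le_sum; intro x hx
    have h2 := ht0 x hx
    have h3 := ht x hx
    split_ifs with h4
    · have : t x ^ 2 ≤ Λ ^ 2 := pow_le_pow_left₀ h2 h3 2
      have : 0 ≤ (D * Λ) ^ 2 := by positivity
      linarith
    · push Not at h4
      have : t x ^ 2 ≤ (D * Λ) ^ 2 := pow_le_pow_left₀ h2 h4.le 2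
      linarith
  rw [sum_add_distrib, ← sum_filter, sum_const, sum_const, nsmul_eq_mul, nsmul_eq_mul] at h1
  have h5 : (P.card : ℝ) * Λ ^ 2 * (2 * D ^ 2) < ((P.filter (fun x => D * Λ ≤ t x)).card : ℝ) * Λ ^ 2 + P.card * (D * Λ) ^ 2 :=
    h.trans_le h1
  have h6 : 0 < Λ ^ 2 := by positivity
  have h7 : (P.card : ℝ) * D ^ 2 * Λ ^ 2 < ((P.filter (fun x => D * Λ ≤ t x)).card : ℝ) * Λ ^ 2 := by
    have : (P.card : ℝ) * (D * Λ) ^ 2 = P.card * D ^ 2 * Λ ^ 2 := by ring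
    nlinarith
  exact (lt_of_mul_lt_mul_right h7 h6.le).le

/-- pigeonhole over `q` -/
lemma pigeon (G : Finset (ℕ × ℕ)) (Q₀ : ℝ) (hQ₀ : 1 ≤ Q₀) (Pr : ℕ → ℕ × ℕ → Prop) [∀ q, DecidablePred (Pr q)]
    (h : ∀ x ∈ G, ∃ q : ℕ, 1 ≤ q ∧ (q : ℝ) ≤ Q₀ ∧ Pr q x) :
    ∃ q : ℕ, 1 ≤ q ∧ (q : ℝ) ≤ Q₀ ∧ (G.card : ℝ) ≤ Q₀ * ((G.filter (Pr q)).card : ℝ) := by
  classical
  set K := ⌊Q₀⌋₊ with hK
  have hK1 : 1 ≤ K := Nat.le_floor (by exact_mod_cast hQ₀)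
  have hKQ : (K : ℝ) ≤ Q₀ := Nat.floor_le (by linarith)
  by_contra hcon
  push Not at hcon
  have h1 : G.card ≤ ∑ q ∈ Icc 1 K, (G.filter (Pr q)).card := by
    calc G.card ≤ ((Icc 1 K).biUnion (fun q => G.filter (Pr q))).card := by
          apply card_le_card
          intro x hx
          obtain ⟨q, hq1, hq2, hq3⟩ := h x hx
          rw [mem_biUnion]
          exact ⟨q, mem_Icc.2 ⟨hq1, Nat.le_floor hq2⟩, mem_filter.2 ⟨hx, hq3⟩⟩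
      _ ≤ _ := card_biUnion_le
  have h2 : ∀ q ∈ Icc 1 K, Q₀ * ((G.filter (Pr q)).card : ℝ) < G.card := by
    intro q hq
    rw [mem_Icc] at hq
    exact hcon q hq.1 ((by exact_mod_cast hq.2 : (q : ℝ) ≤ K).trans hKQ)
  have h3 : ∑ q ∈ Icc 1 K, Q₀ * ((G.filter (Pr q)).card : ℝ) < ∑ q ∈ Icc 1 K, (G.card : ℝ) :=
    sum_lt_sum_of_nonempty ⟨1, mem_Icc.2 ⟨le_rfl, hK1⟩⟩ h2
  rw [← mul_sum, sum_const, Nat.card_Icc, nsmul_eq_mul, Nat.add_sub_cancel] at h3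
  have h4 : (G.card : ℝ) ≤ ∑ q ∈ Icc 1 K, ((G.filter (Pr q)).card : ℝ) := by exact_mod_cast h1
  have h5 : (K : ℝ) * G.card ≤ Q₀ * G.card := mul_le_mul_of_nonneg_right hKQ (Nat.cast_nonneg _)
  have h6 : Q₀ * G.card ≤ Q₀ * ∑ q ∈ Icc 1 K, ((G.filter (Pr q)).card : ℝ) := mul_le_mul_of_nonneg_left h4 (by linarith)
  linarith

/-- a set of naturals of diameter at most `D` has at most `D + 1` elements -/
lemma card_diam (S : Finset ℕ) (D : ℝ) (hD : 0 ≤ D) (h : ∀ x ∈ S, ∀ y ∈ S, ((x : ℝ) - y) ≤ D) : (S.card : ℝ) ≤ D + 1 := by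
  rcases S.eq_empty_or_nonempty with h0 | h0
  · subst h0; simp; linarith
  · have h1 := h _ (S.max'_mem h0) _ (S.min'_mem h0)
    have h2 : S ⊆ Icc (S.min' h0) (S.max' h0) := fun x hx => mem_Icc.2 ⟨S.min'_le x hx, S.le_max' x hx⟩
    have h3 := card_le_card h2
    rw [Nat.card_Icc] at h3
    have h4 : S.min' h0 ≤ S.max' h0 := S.min'_le _ (S.max'_mem h0)
    have h5 : (S.card : ℝ) ≤ ((S.max' h0 + 1 - S.min' h0 : ℕ) : ℝ) := by exact_mod_cast h3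
    rw [Nat.cast_sub (by omega)] at h5
    push_cast at h5
    linarith

/-- spacing count -/
lemma spacing (k : ℕ) (hk : 1 ≤ k) (M : ℕ) (hM : 1 ≤ M) (β δ : ℝ) (hδ : 0 ≤ δ) (hβ : 0 < |β|) (m' : ℕ) (hm' : m' ≤ 2 * M)
    (S : Finset ℕ) (hS : ∀ m ∈ S, M < m ∧ m ≤ 2 * M ∧ ∃ z : ℤ, |((m : ℝ) ^ k - (m' : ℝ) ^ k) * β - z| ≤ δ) (hδ1 : δ ≤ 1) :
    (S.card : ℝ) ≤ (2 * ((2 * M : ℝ) ^ k * |β| + 2) + 1) * (2 * δ / ((M : ℝ) ^ (k - 1) * |β|) + 1) := by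
  classical
  have hM0 : (0 : ℝ) < M := by exact_mod_cast hM
  set Z : ℕ := ⌊(2 * M : ℝ) ^ k * |β| + 1⌋₊ with hZ
  have hZle : (Z : ℝ) ≤ (2 * M : ℝ) ^ k * |β| + 1 := Nat.floor_le (by positivity)
  -- each m gets an integer z with |z| ≤ Z
  have h1 : ∀ m ∈ S, ∃ z ∈ Icc (-(Z : ℤ)) Z, |((m : ℝ) ^ k - (m' : ℝ) ^ k) * β - z| ≤ δ := by
    intro m hm
    obtain ⟨hm1, hm2, z, hz⟩ := hS m hm
    refine ⟨z, ?_, hz⟩
    have e1 : |((m : ℝ) ^ k - (m' : ℝ) ^ k) * β| ≤ (2 * M : ℝ) ^ k * |β| := by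
      rw [abs_mul]
      apply mul_le_mul_of_nonneg_right _ (abs_nonneg _)
      have g1 : (m : ℝ) ^ k ≤ (2 * M : ℝ) ^ k := pow_le_pow_left₀ (by positivity) (by exact_mod_cast hm2) k
      have g2 : (m' : ℝ) ^ k ≤ (2 * M : ℝ) ^ k := pow_le_pow_left₀ (by positivity) (by exact_mod_cast hm') k
      have g3 : 0 ≤ (m : ℝ) ^ k := by positivity
      have g4 : 0 ≤ (m' : ℝ) ^ k := by positivity
      rw [abs_le]; constructor <;> linarith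
    have e2 : |(z : ℝ)| ≤ (2 * M : ℝ) ^ k * |β| + 1 := by
      have : (z : ℝ) = ((m : ℝ) ^ k - (m' : ℝ) ^ k) * β - (((m : ℝ) ^ k - (m' : ℝ) ^ k) * β - z) := by ring
      rw [this]
      refine (abs_sub _ _).trans ?_
      linarith
    have e3 : z.natAbs ≤ Z := by
      apply Nat.le_floor
      rw [Nat.cast_natAbs]; push_cast; exact e2
    rw [mem_Icc]; omega
  have h2 : S.card ≤ ∑ z ∈ Icc (-(Z : ℤ)) Z, (S.filter (fun m : ℕ => |((m : ℝ) ^ k - (m' : ℝ) ^ k) * β - z| ≤ δ)).card := by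
    calc S.card ≤ ((Icc (-(Z : ℤ)) Z).biUnion (fun z : ℤ => S.filter (fun m : ℕ => |((m : ℝ) ^ k - (m' : ℝ) ^ k) * β - z| ≤ δ))).card := by
          apply card_le_card
          intro m hm
          obtain ⟨z, hz1, hz2⟩ := h1 m hm
          rw [mem_biUnion]
          exact ⟨z, hz1, mem_filter.2 ⟨hm, hz2⟩⟩
      _ ≤ _ := card_biUnion_le
  have h3 : ∀ z ∈ Icc (-(Z : ℤ)) Z, ((S.filter (fun m : ℕ => |((m : ℝ) ^ k - (m' : ℝ) ^ k) * β - z| ≤ δ)).card : ℝ) ≤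
      2 * δ / ((M : ℝ) ^ (k - 1) * |β|) + 1 := by
    intro z _
    apply card_diam _ _ (by positivity)
    intro x hx y hy
    rw [mem_filter] at hx hy
    obtain ⟨hx1, hx2, _⟩ := hS x hx.1
    obtain ⟨hy1, hy2, _⟩ := hS y hy.1
    rcases le_or_gt x y with hxy | hxy
    · have : (x : ℝ) ≤ y := by exact_mod_cast hxy
      have : 0 ≤ 2 * δ / ((M : ℝ) ^ (k - 1) * |β|) := by positivity
      linarith
    · rw [le_div_iff₀ (by positivity)]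
      have hxyr : (y : ℝ) < x := by exact_mod_cast hxy
      have hMy : (M : ℝ) ≤ y := by exact_mod_cast hy1.le
      -- x^k - y^k ≥ (x - y) M^(k-1)
      have g1 : ((x : ℝ) - y) * (M : ℝ) ^ (k - 1) ≤ (x : ℝ) ^ k - (y : ℝ) ^ k := by
        obtain ⟨j, rfl⟩ : ∃ j, k = j + 1 := ⟨k - 1, by omega⟩
        rw [Nat.add_sub_cancel]
        have g2 : (M : ℝ) ^ j ≤ (x : ℝ) ^ j := pow_le_pow_left₀ hM0.le (by linarith) j
        have g3 : (y : ℝ) ^ j ≤ (x : ℝ) ^ j := pow_le_pow_left₀ (by positivity) hxyr.le j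
        have g4 : ((x : ℝ) - y) * (M : ℝ) ^ j ≤ (x - y) * x ^ j := mul_le_mul_of_nonneg_left g2 (by linarith)
        have g5 : (y : ℝ) * y ^ j ≤ y * x ^ j := mul_le_mul_of_nonneg_left g3 (by positivity)
        rw [pow_succ, pow_succ]
        nlinarith
      have g2 : |((x : ℝ) ^ k - (y : ℝ) ^ k) * β| ≤ 2 * δ := by
        have : ((x : ℝ) ^ k - (y : ℝ) ^ k) * β = (((x : ℝ) ^ k - (m' : ℝ) ^ k) * β - z) - (((y : ℝ) ^ k - (m' : ℝ) ^ k) * β - z) := by ring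
        rw [this]
        refine (abs_sub _ _).trans ?_
        linarith [hx.2, hy.2]
      rw [abs_mul] at g2
      have g3 : 0 ≤ ((x : ℝ) - y) * (M : ℝ) ^ (k - 1) := mul_nonneg (by linarith) (by positivity)
      have g4 : ((x : ℝ) - y) * (M : ℝ) ^ (k - 1) ≤ |(x : ℝ) ^ k - (y : ℝ) ^ k| := g1.trans (le_abs_self _)
      calc ((x : ℝ) - y) * ((M : ℝ) ^ (k - 1) * |β|) = (((x : ℝ) - y) * (M : ℝ) ^ (k - 1)) * |β| := by ring
        _ ≤ |(x : ℝ) ^ k - (y : ℝ) ^ k| * |β| := mul_le_mul_of_nonneg_right g4 (abs_nonneg _)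
        _ ≤ 2 * δ := g2
  calc (S.card : ℝ) ≤ ∑ z ∈ Icc (-(Z : ℤ)) Z, ((S.filter (fun m : ℕ => |((m : ℝ) ^ k - (m' : ℝ) ^ k) * β - z| ≤ δ)).card : ℝ) := by
        exact_mod_cast h2
    _ ≤ ∑ _z ∈ Icc (-(Z : ℤ)) Z, (2 * δ / ((M : ℝ) ^ (k - 1) * |β|) + 1) := sum_le_sum h3
    _ = (2 * Z + 1) * (2 * δ / ((M : ℝ) ^ (k - 1) * |β|) + 1) := by
        rw [sum_const, Int.card_Icc, nsmul_eq_mul]
        congr 1
        have : ((Z : ℤ) + 1 - -(Z : ℤ)).toNat = 2 * Z + 1 := by omega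
        rw [this]; push_cast; ring
    _ ≤ _ := by
        apply mul_le_mul_of_nonneg_right _ (by positivity)
        linarith

end Pool.Agent.V11293.E70
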