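import Mathlib
import Pool.Agent.V11293.E70.PTools
import Pool.Agent.H724R2.BH_Count

/-! Type II sums. -/

namespace Pool.Agent.V11293.E70
open Finset Filter Topology Polynomial
open Pool.Agent.Helper602.MK (ee)
open Pool.Agent.Helper602.MK.N_J5b (ee_add ee_zero ee_conj norm_ee ee_int ee_nat_mul ee_eq_one_iff ee_eq normsq_sum)
open Pool.Agent.H442R2.EHI (nint)
open Pool.Agent.H724R2.BH (count_inv)

/-- kernel of the bilinear sum -/
noncomputable def Ker (f : ℝ[X]) (N N' : ℕ) (m l : ℕ) : ℂ := if N < m * l ∧ m * l ≤ N' then ee (f.eval ((m * l : ℕ) : ℝ)) else 0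

lemma norm_Ker_le (f : ℝ[X]) (N N' m l : ℕ) : ‖Ker f N N' m l‖ ≤ 1 := by
  unfold Ker; split_ifs
  · rw [norm_ee]
  · simp

/-- polynomial of a pair -/
noncomputable def pairPoly (f : ℝ[X]) (m m' : ℕ) : ℝ[X] := f.comp (C (m : ℝ) * X) - f.comp (C (m' : ℝ) * X)

lemma pairPoly_natDegree (f : ℝ[X]) (k m m' : ℕ) (hf : f.natDegree ≤ k) : (pairPoly f m m').natDegree ≤ k := by
  unfold pairPoly
  rw [natDegree_le_iff_coeff_eq_zero]
  intro j hj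
  rw [coeff_sub, comp_C_mul_X_coeff, comp_C_mul_X_coeff, coeff_eq_zero_of_natDegree_lt (by omega)]
  simp

lemma pairPoly_coeff (f : ℝ[X]) (k m m' : ℕ) : (pairPoly f m m').coeff k = f.coeff k * ((m : ℝ) ^ k - (m' : ℝ) ^ k) := by
  unfold pairPoly
  rw [coeff_sub, comp_C_mul_X_coeff, comp_C_mul_X_coeff]; ring

lemma pairPoly_eval (f : ℝ[X]) (m m' l : ℕ) : (pairPoly f m m').eval (l : ℝ) = f.eval ((m * l : ℕ) : ℝ) - f.eval ((m' * l : ℕ) : ℝ) := by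
  unfold pairPoly
  simp [eval_comp]

lemma pair_interval (f : ℝ[X]) (N N' L m m' : ℕ) (hm : 1 ≤ m) (hm' : 1 ≤ m') :
    ∑ l ∈ Ioc L (2 * L), Ker f N N' m l * (starRingEnd ℂ) (Ker f N N' m' l) =
      ∑ l ∈ Ioc (max L (max (N / m) (N / m'))) (min (2 * L) (min (N' / m) (N' / m'))), ee ((pairPoly f m m').eval (l : ℝ)) := by
  classical
  have h1 : ∀ l ∈ Ioc L (2 * L), Ker f N N' m l * (starRingEnd ℂ) (Ker f N N' m' l) =
      if l ∈ Ioc (max L (max (N / m) (N / m'))) (min (2 * L) (min (N' / m) (N' / m'))) then ee ((pairPoly f m m').eval (l : ℝ)) else 0 := by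
    intro l hl
    rw [mem_Ioc] at hl
    unfold Ker
    have hiff : (l ∈ Ioc (max L (max (N / m) (N / m'))) (min (2 * L) (min (N' / m) (N' / m')))) ↔
        (N < m * l ∧ m * l ≤ N') ∧ (N < m' * l ∧ m' * l ≤ N') := by
      rw [mem_Ioc, max_lt_iff, max_lt_iff, le_min_iff, le_min_iff, Nat.div_lt_iff_lt_mul hm, Nat.div_lt_iff_lt_mul hm',
        Nat.le_div_iff_mul_le hm, Nat.le_div_iff_mul_le hm', mul_comm l m, mul_comm l m']
      tauto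
    by_cases h : (N < m * l ∧ m * l ≤ N') ∧ (N < m' * l ∧ m' * l ≤ N')
    · rw [if_pos h.1, if_pos h.2, if_pos (hiff.2 h), ee_conj, ← ee_add, pairPoly_eval]
      congr 1
    · rw [if_neg (fun h' => h (hiff.1 h'))]
      by_cases h2 : N < m * l ∧ m * l ≤ N'
      · rw [if_neg (c := N < m' * l ∧ m' * l ≤ N') (fun h' => h ⟨h2, h'⟩)]; simp
      · rw [if_neg h2]; simp
  rw [sum_congr rfl h1, ← sum_filter]
  apply sum_congr _ fun _ _ => rfl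
  ext l
  rw [mem_filter]
  constructor
  · exact fun h => h.2
  · intro h
    refine ⟨?_, h⟩
    rw [mem_Ioc] at h ⊢
    constructor
    · exact lt_of_le_of_lt (le_max_left _ _) h.1
    · exact h.2.trans (min_le_left _ _)

lemma aux_a (c y : ℝ) (hc : 1 ≤ c) (hy : 1 ≤ y) : 1 ≤ c * y := by nlinarith
lemma aux_b (Q y : ℝ) (hQ : 0 ≤ Q) (hy : 1 ≤ y) : Q ≤ Q * y := by nlinarith
lemma aux_c (M Lg : ℝ) (hM : 0 < M) (h : 10 ≤ Lg) : 2 * M ≤ M * Lg := by nlinarith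
lemma aux_d (Lg : ℝ) (h : 10 ≤ Lg) : 100 ≤ Lg ^ 2 := by nlinarith
lemma aux_e (x a b : ℝ) (h : 0 < x) (h2 : x ≤ 4 * a * b) : 0 < a * b := by nlinarith
lemma aux_f (w y Lg : ℝ) (h1 : w ≤ y) (h2 : 1 ≤ y) (h3 : 10 ≤ Lg) : 2 * (w + 2) + 1 ≤ y * Lg := by nlinarith
lemma aux_g (x y : ℝ) (h0 : 0 < x) (h1 : 100 ≤ y) (h2 : x * (y / 4) ≤ 2 * x) : False := by nlinarith
lemma aux_h (y : ℝ) (hy : 1 ≤ y) : 2 * y ≤ 1 * (2 ^ 2 * y ^ 2) := by nlinarith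

theorem typeII (k : ℕ) (hk : 1 ≤ k) (A : ℕ) : ∃ (C E : ℕ) (L₀ : ℝ), ∀ Lg : ℝ, L₀ ≤ Lg → ∀ M L N N' : ℕ,
    Lg ^ C ≤ M → Lg ^ C ≤ L → 1 ≤ N → (N : ℝ) ≤ 4 * M * L → ∀ f : ℝ[X], f.natDegree ≤ k →
    ((M : ℝ) ^ 2 * (L : ℝ) ^ 2) / Lg ^ A < ∑ m ∈ Ioc M (2 * M), ∑ m' ∈ Ioc M (2 * M),
      ‖∑ l ∈ Ioc L (2 * L), Ker f N N' m l * (starRingEnd ℂ) (Ker f N N' m' l)‖ ^ 2 →
    ∃ q : ℕ, 1 ≤ q ∧ (q : ℝ) ≤ Lg ^ E ∧ ∃ b : ℤ, |q * ((k.factorial : ℝ) * f.coeff k) - b| ≤ Lg ^ E / (N : ℝ) ^ k := by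
  classical
  obtain ⟨c, m0, hc, hIW⟩ := IWint k hk
  obtain ⟨D1, hD1⟩ : ∃ D1 : ℕ, D1 = A * (m0 + k) + 1 := ⟨_, rfl⟩
  obtain ⟨Ec, L1, hcount⟩ := count_inv k hk (2 * A + D1 + 2) 1
  obtain ⟨Z0, hZ0⟩ : ∃ Z0 : ℕ, Z0 = 2 * A + D1 + 2 * Ec + 3 := ⟨_, rfl⟩
  obtain ⟨E3, hE3⟩ : ∃ E3 : ℕ, E3 = Ec + D1 + Z0 + 1 := ⟨_, rfl⟩
  refine ⟨D1 + Ec + Z0, E3, max L1 ((c : ℝ) * 2 ^ (m0 + k) + 2 * 4 ^ k + 10), ?_⟩
  intro Lg hLg M L N N' hM hL hN1 hNML f hf hsum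
  have hLgL1 : L1 ≤ Lg := (le_max_left _ _).trans hLg
  have hLg2 : (c : ℝ) * 2 ^ (m0 + k) + 2 * 4 ^ k + 10 ≤ Lg := (le_max_right _ _).trans hLg
  have hcpos : (0 : ℝ) ≤ (c : ℝ) * 2 ^ (m0 + k) := by positivity
  have h4pos : (0 : ℝ) ≤ 2 * 4 ^ k := by positivity
  have hLg10 : 10 ≤ Lg := by linarith
  have hLg1 : 1 ≤ Lg := by linarith
  have hLg0 : 0 < Lg := by linarith
  have hp : ∀ {a b : ℕ}, a ≤ b → Lg ^ a ≤ Lg ^ b := fun h => pow_le_pow_right₀ hLg1 h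
  have hpp : ∀ a : ℕ, 0 < Lg ^ a := fun a => by positivity
  have hp1 : ∀ a : ℕ, 1 ≤ Lg ^ a := fun a => one_le_pow₀ hLg1
  have hM1r : (1 : ℝ) ≤ M := (hp1 _).trans hM
  have hL1r : (1 : ℝ) ≤ L := (hp1 _).trans hL
  have hM1 : 1 ≤ M := by exact_mod_cast hM1r
  have hL1 : 1 ≤ L := by exact_mod_cast hL1r
  have hM0 : (0 : ℝ) < M := by linarith
  have hL0 : (0 : ℝ) < L := by linarith
  have hN0 : (0 : ℝ) < N := by exact_mod_cast hN1
  set α : ℝ := (k.factorial : ℝ) * f.coeff k with hα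
  set T : ℕ × ℕ → ℂ := fun x => ∑ l ∈ Ioc L (2 * L), Ker f N N' x.1 l * (starRingEnd ℂ) (Ker f N N' x.2 l) with hT
  set P : Finset (ℕ × ℕ) := Ioc M (2 * M) ×ˢ Ioc M (2 * M) with hP
  have hPcard : (P.card : ℝ) = (M : ℝ) ^ 2 := by
    rw [hP, card_product, Nat.card_Ioc, show 2 * M - M = M by omega]; push_cast; ring
  have hTle : ∀ x ∈ P, ‖T x‖ ≤ L := by
    intro x _
    calc ‖T x‖ ≤ ∑ l ∈ Ioc L (2 * L), ‖Ker f N N' x.1 l * (starRingEnd ℂ) (Ker f N N' x.2 l)‖ := norm_sum_le _ _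
      _ ≤ ∑ _l ∈ Ioc L (2 * L), (1 : ℝ) := by
          apply sum_le_sum; intro l _
          rw [norm_mul, RCLike.norm_conj]
          exact mul_le_one₀ (norm_Ker_le _ _ _ _ _) (norm_nonneg _) (norm_Ker_le _ _ _ _ _)
      _ = L := by rw [sum_const, Nat.card_Ioc, nsmul_eq_mul, mul_one, show 2 * L - L = L by omega]
  set D : ℝ := 1 / (2 * Lg ^ A) with hD
  have hD0 : 0 < D := by positivity
  have hlarge := many_large P (fun x => ‖T x‖) D L hD0 hL0 (fun x _ => norm_nonneg _) hTle (by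
    rw [hPcard, hP, sum_product]
    refine lt_of_le_of_lt ?_ hsum
    have e1 : 2 * D ^ 2 ≤ 1 / Lg ^ A := by
      rw [hD, div_pow, one_pow, mul_pow, mul_one_div, div_le_div_iff₀ (by positivity) (by positivity)]
      exact aux_h _ (hp1 A)
    calc (M : ℝ) ^ 2 * (L : ℝ) ^ 2 * (2 * D ^ 2) ≤ (M : ℝ) ^ 2 * (L : ℝ) ^ 2 * (1 / Lg ^ A) :=
          mul_le_mul_of_nonneg_left e1 (by positivity)
      _ = _ := by ring)
  rw [hPcard] at hlarge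
  set G := P.filter (fun x => D * L ≤ ‖T x‖) with hG
  set u : ℝ := 2 * Lg ^ A with hu
  have hu1 : 1 ≤ u := by have := hp1 A; linarith
  have hu0 : 0 < u := by linarith
  have huD : D * u = 1 := by rw [hD, hu]; field_simp
  set Q₀ : ℝ := c * u ^ m0 with hQ₀
  have hc1 : (1 : ℝ) ≤ c := by exact_mod_cast hc
  have hQ₀1 : 1 ≤ Q₀ := by
    rw [hQ₀]
    exact aux_a _ _ hc1 (one_le_pow₀ hu1)
  set Δ : ℝ := Q₀ * u ^ k / (L : ℝ) ^ k with hΔ
  have hQuk : Q₀ * u ^ k ≤ Lg ^ D1 := by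
    rw [hQ₀, hu, hD1, mul_assoc, ← pow_add, mul_pow, ← pow_mul]
    calc (c : ℝ) * (2 ^ (m0 + k) * Lg ^ (A * (m0 + k))) = (c * 2 ^ (m0 + k)) * Lg ^ (A * (m0 + k)) := by ring
      _ ≤ Lg * Lg ^ (A * (m0 + k)) := mul_le_mul_of_nonneg_right (by linarith) (by positivity)
      _ = Lg ^ (A * (m0 + k) + 1) := by ring
  have huk1 : 1 ≤ u ^ k := one_le_pow₀ hu1
  have hQD : Q₀ ≤ Lg ^ D1 := by
    refine le_trans ?_ hQuk
    exact aux_b _ _ (by linarith) huk1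
  have hΔ0 : 0 ≤ Δ := by rw [hΔ]; positivity
  have hLk : (L : ℝ) ≤ (L : ℝ) ^ k := le_self_pow₀ hL1r (by omega)
  have hΔle : Δ ≤ Lg ^ D1 / L := by
    rw [hΔ]
    calc Q₀ * u ^ k / (L : ℝ) ^ k ≤ Lg ^ D1 / (L : ℝ) ^ k := by gcongr
      _ ≤ Lg ^ D1 / L := by gcongr
  -- each good pair
  have hgood : ∀ x ∈ G, ∃ q : ℕ, 1 ≤ q ∧ (q : ℝ) ≤ Q₀ ∧ (∃ z : ℤ, |((x.1 : ℝ) ^ k - (x.2 : ℝ) ^ k) * (q * α) - z| ≤ Δ) := by
    rintro ⟨m, m'⟩ hx
    rw [hG, mem_filter, hP, mem_product, mem_Ioc, mem_Ioc] at hx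
    obtain ⟨⟨hm, hm'⟩, hTx⟩ := hx
    simp only at hm hm' hTx ⊢
    have hTe : T (m, m') = _ := pair_interval f N N' L m m' (by omega) (by omega)
    set lo := max L (max (N / m) (N / m')) with hlo
    set hi := min (2 * L) (min (N' / m) (N' / m')) with hhi
    rw [hTe] at hTx
    have hDL : 0 < D * L := by positivity
    have hlohi : lo < hi := by
      by_contra hcon
      push Not at hcon
      rw [Ioc_eq_empty (by omega), sum_empty, norm_zero] at hTx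
      linarith
    have hJL : ((hi - lo : ℕ) : ℝ) ≤ L := by
      have : hi - lo ≤ L := by
        have h1 : hi ≤ 2 * L := min_le_left _ _
        have h2 : L ≤ lo := le_max_left _ _
        omega
      exact_mod_cast this
    have hJT : ‖∑ l ∈ Ioc lo hi, ee ((pairPoly f m m').eval (l : ℝ))‖ ≤ ((hi - lo : ℕ) : ℝ) := by
      refine (norm_sum_le _ _).trans ?_
      simp_rw [norm_ee]
      rw [sum_const, Nat.card_Ioc, nsmul_eq_mul, mul_one]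
    have hJlow : L / u ≤ ((hi - lo : ℕ) : ℝ) := by
      have : L / u = D * L := by
        rw [div_eq_iff hu0.ne']
        calc (L : ℝ) = (D * u) * L := by rw [huD, one_mul]
          _ = _ := by ring
      rw [this]; exact hTx.trans hJT
    obtain ⟨q, hq1, hq2, z, hz⟩ := hIW (pairPoly f m m') lo hi u (pairPoly_natDegree f k m m' hf) hlohi hu1 (by
      refine hJL.trans ?_
      calc (L : ℝ) = u * (D * L) := by rw [← mul_assoc, mul_comm u D, huD, one_mul]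
        _ ≤ u * _ := mul_le_mul_of_nonneg_left hTx hu0.le)
    refine ⟨q, hq1, hq2, z, ?_⟩
    rw [pairPoly_coeff] at hz
    have e1 : ((m : ℝ) ^ k - (m' : ℝ) ^ k) * (q * α) - z = q * ((k.factorial : ℝ) * (f.coeff k * ((m : ℝ) ^ k - (m' : ℝ) ^ k))) - z := by
      rw [hα]; ring
    rw [e1]
    refine hz.trans ?_
    rw [hΔ]
    have hJ0 : (0 : ℝ) < ((hi - lo : ℕ) : ℝ) := lt_of_lt_of_le (by positivity) hJlow
    have e2 : (L : ℝ) ^ k ≤ u ^ k * ((hi - lo : ℕ) : ℝ) ^ k := by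
      rw [← mul_pow]
      apply pow_le_pow_left₀ hL0.le
      rw [div_le_iff₀ hu0] at hJlow
      linarith
    rw [div_le_div_iff₀ (by positivity) (by positivity)]
    calc (c : ℝ) * u ^ m0 * (L : ℝ) ^ k ≤ (c : ℝ) * u ^ m0 * (u ^ k * ((hi - lo : ℕ) : ℝ) ^ k) :=
          mul_le_mul_of_nonneg_left e2 (by positivity)
      _ = _ := by rw [hQ₀]; ring
  obtain ⟨q, hq1, hq2, hq3⟩ := pigeon G Q₀ hQ₀1 (fun q x => ∃ z : ℤ, |((x.1 : ℝ) ^ k - (x.2 : ℝ) ^ k) * (q * α) - z| ≤ Δ) hgood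
  set G' := G.filter (fun x => ∃ z : ℤ, |((x.1 : ℝ) ^ k - (x.2 : ℝ) ^ k) * (q * α) - z| ≤ Δ) with hG'
  -- lower bound for G'
  have hG'low : (M : ℝ) ^ 2 ≤ 4 * Lg ^ (2 * A + D1) * (G'.card : ℝ) := by
    have e1 : (M : ℝ) ^ 2 * D ^ 2 ≤ Lg ^ D1 * (G'.card : ℝ) := by
      refine hlarge.trans (hq3.trans ?_)
      exact mul_le_mul_of_nonneg_right hQD (Nat.cast_nonneg _)
    have e2 : D ^ 2 = 1 / (4 * Lg ^ (2 * A)) := by
      rw [hD, div_pow, mul_pow, ← pow_mul, mul_comm A 2]; norm_num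
    rw [e2, mul_one_div, div_le_iff₀ (by positivity)] at e1
    calc (M : ℝ) ^ 2 ≤ Lg ^ D1 * (G'.card : ℝ) * (4 * Lg ^ (2 * A)) := e1
      _ = _ := by rw [pow_add]; ring
  -- count_inv
  have hLgE : Δ * Lg ^ Ec ≤ 1 := by
    calc Δ * Lg ^ Ec ≤ Lg ^ D1 / L * Lg ^ Ec := mul_le_mul_of_nonneg_right hΔle (by positivity)
      _ = Lg ^ (D1 + Ec) / L := by rw [pow_add]; ring
      _ ≤ 1 := by
        rw [div_le_one hL0]
        exact (hp (by omega)).trans hL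
  obtain ⟨r, hr1, hr2, b, hb⟩ := hcount Lg hLgL1 (2 * M) M (by omega) (by omega) (by
      push_cast; rw [pow_one]; exact aux_c _ _ hM0 hLg10) Δ (q * α) hΔ0 hLgE (by
      have hsub : G' ⊆ (Ioc M (2 * M) ×ˢ Ioc M (2 * M)).filter (fun kk : ℕ × ℕ =>
        nint (((((kk.1 ^ k : ℕ) : ℤ) - ((kk.2 ^ k : ℕ) : ℤ) : ℤ) : ℝ) * (q * α)) ≤ Δ) := by
        intro x hx
        rw [hG', mem_filter] at hx
        obtain ⟨hx1, z, hz⟩ := hx
        rw [mem_filter]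
        refine ⟨(mem_filter.1 hx1).1, ?_⟩
        unfold nint
        refine (round_le _ z).trans ?_
        push_cast
        exact hz
      have h1 : (G'.card : ℝ) ≤ (((Ioc M (2 * M) ×ˢ Ioc M (2 * M)).filter (fun kk : ℕ × ℕ =>
        nint (((((kk.1 ^ k : ℕ) : ℤ) - ((kk.2 ^ k : ℕ) : ℤ) : ℤ) : ℝ) * (q * α)) ≤ Δ)).card : ℝ) := by
        exact_mod_cast card_le_card hsub
      refine lt_of_lt_of_le ?_ h1
      rw [div_lt_iff₀ (hpp _)]
      push_cast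
      have e1 : Lg ^ (2 * A + D1 + 2) = Lg ^ (2 * A + D1) * Lg ^ 2 := by rw [pow_add]
      rw [e1]
      have e2 : (2 * (M : ℝ)) ^ 2 = 4 * (M : ℝ) ^ 2 := by ring
      rw [e2]
      have e3 : 16 < Lg ^ 2 := lt_of_lt_of_le (by norm_num) (aux_d _ hLg10)
      have e4 : 0 < Lg ^ (2 * A + D1) * (G'.card : ℝ) := by
        have : 0 < (M : ℝ) ^ 2 := by positivity
        exact aux_e _ _ _ this hG'low
      calc 4 * (M : ℝ) ^ 2 ≤ 4 * (4 * Lg ^ (2 * A + D1) * (G'.card : ℝ)) := by linarith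
        _ = (Lg ^ (2 * A + D1) * (G'.card : ℝ)) * 16 := by ring
        _ < (Lg ^ (2 * A + D1) * (G'.card : ℝ)) * Lg ^ 2 := mul_lt_mul_of_pos_left e3 e4
        _ = _ := by ring)
  have hr0 : (0 : ℝ) < r := by exact_mod_cast hr1
  set β : ℝ := r * (q * α) - b with hβ
  have hβeq : β = r * (q * α - b / r) := by rw [hβ]; field_simp
  have hβle : (2 * (M : ℝ)) ^ k * |β| ≤ Lg ^ (2 * Ec) := by
    rw [hβeq, abs_mul, abs_of_pos hr0]
    have h2M : (0 : ℝ) < (2 * (M : ℝ)) ^ k := by positivity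
    have hb' : |q * α - b / r| ≤ Lg ^ Ec / (2 * (M : ℝ)) ^ k := by push_cast at hb; exact hb
    calc (2 * (M : ℝ)) ^ k * (r * |q * α - b / r|) ≤ (2 * (M : ℝ)) ^ k * (Lg ^ Ec * (Lg ^ Ec / (2 * (M : ℝ)) ^ k)) := by gcongr
      _ = Lg ^ (2 * Ec) := by field_simp; ring
  -- final dichotomy
  by_cases hfin : |β| ≤ Lg ^ E3 / (N : ℝ) ^ k
  · refine ⟨r * q, Nat.mul_pos hr1 hq1, ?_, b, ?_⟩
    · push_cast
      calc (r : ℝ) * q ≤ Lg ^ Ec * Lg ^ D1 := mul_le_mul hr2 (hq2.trans hQD) (Nat.cast_nonneg _) (hpp _).le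
        _ = Lg ^ (Ec + D1) := by rw [pow_add]
        _ ≤ Lg ^ E3 := hp (by omega)
    · have : ((r * q : ℕ) : ℝ) * α - b = β := by rw [hβ]; push_cast; ring
      rw [this]; exact hfin
  · exfalso
    push Not at hfin
    have hβ0 : 0 < |β| := lt_of_le_of_lt (by positivity) hfin
    set δ : ℝ := r * Δ with hδ
    have hδ0 : 0 ≤ δ := by positivity
    have hδ1 : δ ≤ 1 := by
      calc δ ≤ Lg ^ Ec * Δ := mul_le_mul_of_nonneg_right hr2 hΔ0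
        _ = Δ * Lg ^ Ec := by ring
        _ ≤ 1 := hLgE
    have hfib : ∀ m' ∈ Ioc M (2 * M), (((G'.filter (fun x => x.2 = m')).card : ℕ) : ℝ) ≤
        (2 * ((2 * M : ℝ) ^ k * |β| + 2) + 1) * (2 * δ / ((M : ℝ) ^ (k - 1) * |β|) + 1) := by
      intro m' hm'
      rw [mem_Ioc] at hm'
      have e1 : (G'.filter (fun x => x.2 = m')).card = ((G'.filter (fun x => x.2 = m')).image Prod.fst).card := by
        rw [card_image_of_injOn]
        rintro ⟨x1, x2⟩ hx ⟨y1, y2⟩ hy h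
        rw [mem_coe, mem_filter] at hx hy
        simp only at h hx hy
        rw [h, hx.2, hy.2]
      rw [e1]
      apply spacing k hk M hM1 β δ hδ0 hβ0 m' hm'.2 _ _ hδ1
      intro m hm
      rw [mem_image] at hm
      obtain ⟨⟨x1, x2⟩, hx, rfl⟩ := hm
      rw [mem_filter, hG', mem_filter, hG, mem_filter, hP, mem_product, mem_Ioc, mem_Ioc] at hx
      obtain ⟨⟨⟨⟨hx1, hx2⟩, _⟩, z, hz⟩, hx3⟩ := hx
      simp only at hx1 hx2 hx3 hz ⊢
      subst hx3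
      refine ⟨hx1.1, hx1.2, r * z - b * ((x1 : ℤ) ^ k - (x2 : ℤ) ^ k), ?_⟩
      have e2 : ((x1 : ℝ) ^ k - (x2 : ℝ) ^ k) * β - ((r * z - b * ((x1 : ℤ) ^ k - (x2 : ℤ) ^ k) : ℤ) : ℝ) =
          r * (((x1 : ℝ) ^ k - (x2 : ℝ) ^ k) * (q * α) - z) := by
        rw [hβ]; push_cast; ring
      rw [e2, abs_mul, abs_of_pos hr0]
      exact mul_le_mul_of_nonneg_left hz hr0.le
    have hG'up : (G'.card : ℝ) ≤ M * ((2 * ((2 * M : ℝ) ^ k * |β| + 2) + 1) * (2 * δ / ((M : ℝ) ^ (k - 1) * |β|) + 1)) := by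
      have e1 : G'.card = ∑ m' ∈ Ioc M (2 * M), (G'.filter (fun x => x.2 = m')).card := by
        apply card_eq_sum_card_fiberwise
        intro x hx
        rw [mem_coe, hG', mem_filter, hG, mem_filter, hP, mem_product] at hx
        exact hx.1.1.2
      rw [e1]
      push_cast
      calc ∑ m' ∈ Ioc M (2 * M), (((G'.filter (fun x => x.2 = m')).card : ℕ) : ℝ) ≤
            ∑ _m' ∈ Ioc M (2 * M), ((2 * ((2 * M : ℝ) ^ k * |β| + 2) + 1) * (2 * δ / ((M : ℝ) ^ (k - 1) * |β|) + 1)) :=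
              sum_le_sum hfib
        _ = _ := by
          rw [sum_const, Nat.card_Ioc, nsmul_eq_mul, show 2 * M - M = M by omega]
    have hfac1 : 2 * ((2 * M : ℝ) ^ k * |β| + 2) + 1 ≤ Lg ^ (2 * Ec + 1) := by
      have e1 : Lg ^ (2 * Ec + 1) = Lg ^ (2 * Ec) * Lg := by rw [pow_succ]
      rw [e1]
      exact aux_f _ _ _ hβle (hp1 (2 * Ec)) hLg10
    have hfac2 : 2 * δ / ((M : ℝ) ^ (k - 1) * |β|) ≤ M / Lg ^ Z0 := by
      have hNk : (N : ℝ) ^ k ≤ (4 * M * L) ^ k := pow_le_pow_left₀ hN0.le hNML k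
      have e1 : Lg ^ E3 < |β| * (4 * M * L) ^ k := by
        rw [div_lt_iff₀ (by positivity)] at hfin
        exact hfin.trans_le (mul_le_mul_of_nonneg_left hNk (abs_nonneg _))
      have e2 : δ * (L : ℝ) ^ k ≤ Lg ^ (Ec + D1) := by
        rw [hδ, hΔ]
        calc r * (Q₀ * u ^ k / (L : ℝ) ^ k) * (L : ℝ) ^ k = r * (Q₀ * u ^ k) := by field_simp
          _ ≤ Lg ^ Ec * Lg ^ D1 := mul_le_mul hr2 hQuk (by positivity) (hpp _).le
          _ = _ := by rw [pow_add]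
      rw [div_le_div_iff₀ (by positivity) (hpp _)]
      -- 2 δ Lg^Z0 ≤ M * (M^(k-1) |β|)
      have e3 : (M : ℝ) * ((M : ℝ) ^ (k - 1) * |β|) = (M : ℝ) ^ k * |β| := by
        obtain ⟨j, rfl⟩ : ∃ j, k = j + 1 := ⟨k - 1, by omega⟩
        rw [Nat.add_sub_cancel, pow_succ]; ring
      rw [e3]
      have hLk0 : (0 : ℝ) < (L : ℝ) ^ k := by positivity
      have h4k0 : (0 : ℝ) < 4 ^ k := by positivity
      have e4 : 2 * δ * Lg ^ Z0 * ((L : ℝ) ^ k * 4 ^ k) ≤ Lg ^ E3 := by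
        calc 2 * δ * Lg ^ Z0 * ((L : ℝ) ^ k * 4 ^ k) = (2 * 4 ^ k) * (δ * (L : ℝ) ^ k) * Lg ^ Z0 := by ring
          _ ≤ Lg * Lg ^ (Ec + D1) * Lg ^ Z0 := by
              apply mul_le_mul_of_nonneg_right _ (hpp _).le
              exact mul_le_mul (by linarith) e2 (by positivity) hLg0.le
          _ = Lg ^ E3 := by rw [hE3, pow_add, pow_add]; ring
      have e5 : |β| * (4 * M * L) ^ k = ((M : ℝ) ^ k * |β|) * ((L : ℝ) ^ k * 4 ^ k) := by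
        rw [mul_pow, mul_pow]; ring
      rw [e5] at e1
      exact le_of_mul_le_mul_right (e4.trans e1.le) (by positivity)
    have hfac3 : 1 ≤ M / Lg ^ Z0 := by
      rw [one_le_div (hpp _)]
      exact (hp (by omega)).trans hM
    have hfin2 : (G'.card : ℝ) ≤ M * (Lg ^ (2 * Ec + 1) * (2 * (M / Lg ^ Z0))) := by
      refine hG'up.trans ?_
      apply mul_le_mul_of_nonneg_left _ hM0.le
      apply mul_le_mul hfac1 (by linarith) (by positivity) (hpp _).le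
    have e6 : Lg ^ Z0 = Lg ^ (2 * A + D1) * Lg ^ (2 * Ec + 1) * Lg ^ 2 := by
      rw [hZ0, ← pow_add, ← pow_add]; congr 1
    have e7 : (M : ℝ) * (Lg ^ (2 * Ec + 1) * (2 * (M / Lg ^ Z0))) = 2 * (M : ℝ) ^ 2 / (Lg ^ (2 * A + D1) * Lg ^ 2) := by
      rw [e6]; field_simp
    rw [e7, le_div_iff₀ (by positivity)] at hfin2
    have e8 : (G'.card : ℝ) * (Lg ^ (2 * A + D1) * Lg ^ 2) = (4 * Lg ^ (2 * A + D1) * (G'.card : ℝ)) * (Lg ^ 2 / 4) := by ring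
    rw [e8] at hfin2
    have e9 : (M : ℝ) ^ 2 * (Lg ^ 2 / 4) ≤ 2 * (M : ℝ) ^ 2 :=
      (mul_le_mul_of_nonneg_right hG'low (by positivity)).trans hfin2
    have e11 : 0 < (M : ℝ) ^ 2 := by positivity
    exact aux_g _ _ e11 (aux_d _ hLg10) e9

end Pool.Agent.V11293.E70
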