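import Mathlib
import Pool.Agent.V11293.E70.TypeII


/-! Minor arcs: large exponential sums over primes force the leading coefficient to be close to a
rational with small denominator. -/

namespace Pool.Agent.V11293.E70
open Finset Filter Topology Polynomial
open Pool.Agent.Helper602.MK (ee)
open Pool.Agent.Helper602.MK.N_J5b (ee_add ee_zero ee_conj norm_ee ee_int ee_nat_mul ee_eq_one_iff ee_eq normsq_sum)

lemma ev_logpow (a : ℕ) : ∀ᶠ N : ℕ in atTop, (Real.log N) ^ a ≤ N := by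
  have h1 : (fun x : ℝ => (Real.log x) ^ a) =o[atTop] (fun x : ℝ => x) := by
    have := isLittleO_log_rpow_rpow_atTop (s := 1) (a : ℝ) (by norm_num)
    simpa using this
  have h2 := (h1.comp_tendsto tendsto_natCast_atTop_atTop).bound (show (0 : ℝ) < 1 by norm_num)
  filter_upwards [h2] with N hN
  simp only [Function.comp, one_mul] at hN
  calc (Real.log N) ^ a ≤ ‖(Real.log (N : ℝ)) ^ a‖ := Real.le_norm_self _
    _ ≤ ‖(N : ℝ)‖ := hN
    _ = N := by simp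

lemma ev_log (c : ℝ) : ∀ᶠ N : ℕ in atTop, c ≤ Real.log N :=
  (Real.tendsto_log_atTop.comp tendsto_natCast_atTop_atTop).eventually_ge_atTop c

/-- type I failure -/
lemma typeI (k : ℕ) (hk : 1 ≤ k) (Cc : ℕ) : ∃ (E : ℕ) (L₀ : ℝ), ∀ Lg : ℝ, L₀ ≤ Lg → ∀ U N m b : ℕ,
    1 ≤ U → (U : ℝ) ≤ 3 * Lg ^ Cc → 1 ≤ N → 1 ≤ m → m ≤ U * U → b ≤ 2 * N / m → ∀ f : ℝ[X], f.natDegree ≤ k →
    (N : ℝ) / ((U : ℝ) ^ 2 * Lg ^ 3) < ‖∑ l ∈ Ioc (N / m) b, ee (f.eval ((m * l : ℕ) : ℝ))‖ →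
    ∃ q : ℕ, 1 ≤ q ∧ (q : ℝ) ≤ Lg ^ E ∧ ∃ z : ℤ, |q * ((k.factorial : ℝ) * f.coeff k) - z| ≤ Lg ^ E / (N : ℝ) ^ k := by
  obtain ⟨c, m1, hc, hIW⟩ := IWint k hk
  refine ⟨(2 * Cc + 4) * (m1 + k) + 1, c + 18, ?_⟩
  intro Lg hLg U N m b hU hUL hN hm hmU hb f hf hS
  have hc1 : (1 : ℝ) ≤ c := by exact_mod_cast hc
  have hLg18 : 18 ≤ Lg := by linarith
  have hLgc : (c : ℝ) ≤ Lg := by linarith
  have hLg1 : 1 ≤ Lg := by linarith
  have hLg0 : 0 < Lg := by linarith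
  have hN0 : (0 : ℝ) < N := by exact_mod_cast hN
  have hU1 : (1 : ℝ) ≤ U := by exact_mod_cast hU
  have hU0 : (0 : ℝ) < U := by linarith
  set F := f.comp (C (m : ℝ) * X) with hF
  have hFd : F.natDegree ≤ k := by
    rw [natDegree_le_iff_coeff_eq_zero]
    intro j hj
    rw [hF, comp_C_mul_X_coeff, coeff_eq_zero_of_natDegree_lt (by omega), zero_mul]
  have hFc : F.coeff k = f.coeff k * (m : ℝ) ^ k := by rw [hF, comp_C_mul_X_coeff]
  have hFe : ∀ l : ℕ, f.eval ((m * l : ℕ) : ℝ) = F.eval (l : ℝ) := by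
    intro l; rw [hF]; simp [eval_comp]
  simp_rw [hFe] at hS
  set S := ‖∑ l ∈ Ioc (N / m) b, ee (F.eval (l : ℝ))‖ with hSdef
  set Y : ℝ := (N : ℝ) / ((U : ℝ) ^ 2 * Lg ^ 3) with hY
  have hY0 : 0 < Y := by positivity
  set u : ℝ := 2 * ((U : ℝ) ^ 2 * Lg ^ 3) with hu
  have hUL1 : 1 ≤ (U : ℝ) ^ 2 * Lg ^ 3 := by
    have h1 := one_le_pow₀ hU1 (n := 2)
    have h2 := one_le_pow₀ hLg1 (n := 3)
    exact one_le_mul_of_one_le_of_one_le h1 h2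
  have hu1 : 1 ≤ u := by linarith
  have huY : u * Y = 2 * N := by rw [hu, hY]; field_simp
  have hlt : N / m < b := by
    by_contra hcon
    push Not at hcon
    rw [hSdef, Ioc_eq_empty (by omega), sum_empty, norm_zero] at hS
    linarith
  have hJ : ((b - N / m : ℕ) : ℝ) ≤ 2 * N := by
    have h1 : b - N / m ≤ 2 * N := (Nat.sub_le _ _).trans (hb.trans (Nat.div_le_self _ _))
    exact_mod_cast h1
  have hJS : S ≤ ((b - N / m : ℕ) : ℝ) := by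
    rw [hSdef]
    refine (norm_sum_le _ _).trans ?_
    simp_rw [norm_ee]
    rw [sum_const, Nat.card_Ioc, nsmul_eq_mul, mul_one]
  obtain ⟨q, hq1, hq2, z, hz⟩ := hIW F (N / m) b u hFd hlt hu1 (by
    calc ((b - N / m : ℕ) : ℝ) ≤ 2 * N := hJ
      _ = u * Y := huY.symm
      _ ≤ u * S := mul_le_mul_of_nonneg_left hS.le (by linarith))
  have hUsq : (U : ℝ) ^ 2 ≤ 9 * Lg ^ (2 * Cc) := by
    calc (U : ℝ) ^ 2 ≤ (3 * Lg ^ Cc) ^ 2 := pow_le_pow_left₀ hU0.le hUL 2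
      _ = 9 * Lg ^ (2 * Cc) := by rw [mul_pow, ← pow_mul, mul_comm Cc 2]; norm_num
  have huL : u ≤ Lg ^ (2 * Cc + 4) := by
    calc u ≤ 2 * (9 * Lg ^ (2 * Cc) * Lg ^ 3) := by
          rw [hu]; gcongr
      _ = 18 * (Lg ^ (2 * Cc) * Lg ^ 3) := by ring
      _ ≤ Lg * (Lg ^ (2 * Cc) * Lg ^ 3) := mul_le_mul_of_nonneg_right hLg18 (by positivity)
      _ = Lg ^ (2 * Cc + 4) := by ring
  have hm0 : (0 : ℝ) < m := by exact_mod_cast hm
  have hmu : (m : ℝ) ≤ u := by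
    have h1 : (m : ℝ) ≤ (U : ℝ) ^ 2 := by rw [sq]; exact_mod_cast hmU
    have h2 : (U : ℝ) ^ 2 ≤ (U : ℝ) ^ 2 * Lg ^ 3 := le_mul_of_one_le_right (by positivity) (one_le_pow₀ hLg1)
    linarith
  have hcu : (c : ℝ) * u ^ (m1 + k) ≤ Lg ^ ((2 * Cc + 4) * (m1 + k) + 1) := by
    calc (c : ℝ) * u ^ (m1 + k) ≤ Lg * (Lg ^ (2 * Cc + 4)) ^ (m1 + k) := by
          apply mul_le_mul hLgc (pow_le_pow_left₀ (by linarith) huL _) (by positivity) hLg0.le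
      _ = Lg ^ ((2 * Cc + 4) * (m1 + k) + 1) := by rw [← pow_mul]; ring
  refine ⟨q * m ^ k, Nat.mul_pos hq1 (Nat.pow_pos hm), ?_, z, ?_⟩
  · push_cast
    calc (q : ℝ) * (m : ℝ) ^ k ≤ (c * u ^ m1) * u ^ k := by
          apply mul_le_mul hq2 (pow_le_pow_left₀ hm0.le hmu k) (by positivity) (by positivity)
      _ = c * u ^ (m1 + k) := by ring
      _ ≤ _ := hcu
  · rw [hFc] at hz
    have e1 : ((q * m ^ k : ℕ) : ℝ) * ((k.factorial : ℝ) * f.coeff k) - z = q * ((k.factorial : ℝ) * (f.coeff k * (m : ℝ) ^ k)) - z := by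
      push_cast; ring
    rw [e1]
    refine hz.trans ?_
    have hJ0 : (0 : ℝ) < ((b - N / m : ℕ) : ℝ) := hY0.trans (hS.trans_le hJS)
    rw [div_le_div_iff₀ (by positivity) (by positivity)]
    have h1 : (N : ℝ) ≤ u * ((b - N / m : ℕ) : ℝ) := by
      have h2 : u * Y ≤ u * ((b - N / m : ℕ) : ℝ) := mul_le_mul_of_nonneg_left (hS.le.trans hJS) (by linarith)
      linarith
    calc (c : ℝ) * u ^ m1 * (N : ℝ) ^ k ≤ c * u ^ m1 * (u * ((b - N / m : ℕ) : ℝ)) ^ k := by gcongr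
      _ = (c * u ^ (m1 + k)) * ((b - N / m : ℕ) : ℝ) ^ k := by ring
      _ ≤ _ := mul_le_mul_of_nonneg_right hcu (by positivity)


end Pool.Agent.V11293.E70
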