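import Mathlib
import Pool.Agent.V11293.E70.TypeI
import Pool.Agent.H373R2.T7.Vau

/-! Minor arcs: large exponential sums over primes force the leading coefficient to be close to a
rational with small denominator. -/

namespace Pool.Agent.V11293.E70
open Finset Filter Topology Polynomial
open Pool.Agent.Helper602.MK (ee)
open Pool.Agent.Helper602.MK.N_J5b (ee_add ee_zero ee_conj norm_ee ee_int ee_nat_mul ee_eq_one_iff ee_eq normsq_sum)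
open Pool.Agent.H373R2.T7 (vaughan_gen)

lemma real_II (B A₂ B₂ M L N Lg TT : ℝ) (hB0 : 0 < B) (hA₂ : 0 ≤ A₂) (hB₂ : 0 ≤ B₂) (hM0 : 0 < M) (hL0 : 0 < L)
    (hN0 : 0 < N) (hLg : 300 ≤ Lg) (hTT0 : 0 ≤ TT) (hc : A₂ * B₂ * (N / Lg ^ 7) ^ 2 < B ^ 2)
    (hcs2 : B ^ 4 ≤ (B₂ * L) ^ 2 * (A₂ * M) ^ 2 * TT) (hML2 : M * L ≤ 2 * N) :
    (M ^ 2 * L ^ 2) / Lg ^ 29 < TT := by
  have hLg0 : 0 < Lg := by linarith
  have hAB : 0 < A₂ * B₂ := by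
    rcases (mul_nonneg hA₂ hB₂).eq_or_lt with h | h
    · exfalso
      have h1 : (B₂ * L) ^ 2 * (A₂ * M) ^ 2 * TT = (A₂ * B₂) ^ 2 * (L ^ 2 * M ^ 2 * TT) := by ring
      rw [h1, ← h] at hcs2
      have h3 : 0 < B ^ 4 := by positivity
      have h4 : (0 : ℝ) ^ 2 * (L ^ 2 * M ^ 2 * TT) = 0 := by ring
      rw [h4] at hcs2
      linarith
    · exact h
  have h4 : (A₂ * B₂ * (N / Lg ^ 7) ^ 2) ^ 2 < (A₂ * B₂) ^ 2 * (M ^ 2 * L ^ 2 * TT) := by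
    calc (A₂ * B₂ * (N / Lg ^ 7) ^ 2) ^ 2 < (B ^ 2) ^ 2 := by
          apply pow_lt_pow_left₀ hc (by positivity) (by norm_num)
      _ = B ^ 4 := by ring
      _ ≤ _ := hcs2
      _ = _ := by ring
  have h5 : N ^ 4 / Lg ^ 28 < M ^ 2 * L ^ 2 * TT := by
    have h6 : (A₂ * B₂ * (N / Lg ^ 7) ^ 2) ^ 2 = (A₂ * B₂) ^ 2 * (N ^ 4 / Lg ^ 28) := by
      rw [mul_pow, div_pow, div_pow]
      congr 2 <;> ring
    rw [h6] at h4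
    exact lt_of_mul_lt_mul_left h4 (by positivity)
  have h8 : (M ^ 2 * L ^ 2) * ((M ^ 2 * L ^ 2) / Lg ^ 29) ≤ N ^ 4 / Lg ^ 28 := by
    have h9 : (M * L) ^ 4 ≤ (2 * N) ^ 4 := pow_le_pow_left₀ (by positivity) hML2 4
    have h10 : (M ^ 2 * L ^ 2) * ((M ^ 2 * L ^ 2) / Lg ^ 29) = (M * L) ^ 4 / Lg ^ 29 := by ring
    rw [h10, div_le_div_iff₀ (by positivity) (by positivity)]
    have h16 : 16 * Lg ^ 28 ≤ Lg * Lg ^ 28 := mul_le_mul_of_nonneg_right (by linarith) (by positivity)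
    calc (M * L) ^ 4 * Lg ^ 28 ≤ (2 * N) ^ 4 * Lg ^ 28 := mul_le_mul_of_nonneg_right h9 (by positivity)
      _ = N ^ 4 * (16 * Lg ^ 28) := by ring
      _ ≤ N ^ 4 * (Lg * Lg ^ 28) := mul_le_mul_of_nonneg_left h16 (by positivity)
      _ = _ := by ring
  have h11 := h8.trans_lt h5
  exact lt_of_mul_lt_mul_left h11 (by positivity)

lemma real_fin (N Lg w : ℝ) (hN0 : 0 < N) (hLg : 300 ≤ Lg) (hw0 : 0 ≤ w) (hw : w ≤ 2 * Lg) :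
    8 * w ^ 5 * (N / Lg ^ 7) + 3 * w * (N / Lg ^ 3) ≤ N / Lg := by
  have hLg0 : 0 < Lg := by linarith
  have h1 : w ^ 5 ≤ (2 * Lg) ^ 5 := pow_le_pow_left₀ hw0 hw 5
  have h2 : 8 * w ^ 5 * (N / Lg ^ 7) ≤ 8 * (2 * Lg) ^ 5 * (N / Lg ^ 7) := by gcongr
  have h3 : 3 * w * (N / Lg ^ 3) ≤ 3 * (2 * Lg) * (N / Lg ^ 3) := by gcongr
  have h4 : 8 * (2 * Lg) ^ 5 * (N / Lg ^ 7) + 3 * (2 * Lg) * (N / Lg ^ 3) = 262 * N / Lg ^ 2 := by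
    field_simp; ring
  have h5 : 262 * N / Lg ^ 2 ≤ Lg * N / Lg ^ 2 := by
    apply div_le_div_of_nonneg_right _ (by positivity)
    exact mul_le_mul_of_nonneg_right (by linarith) hN0.le
  have h6 : Lg * N / Lg ^ 2 = N / Lg := by field_simp
  linarith

lemma typeII_bound (f : ℝ[X]) (N : ℕ) (Lg : ℝ) (hLg : 300 ≤ Lg) (hN1 : 1 ≤ N) (a b : ℕ → ℂ) (A₂ B₂ : ℝ) (hA₂ : 0 ≤ A₂) (hB₂ : 0 ≤ B₂)
    (M L : ℕ) (hM : 1 ≤ M) (hL : 1 ≤ L) (hML : M * L ≤ 2 * N)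
    (ha : ∑ m ∈ Ioc M (2 * M), ‖a m‖ ^ 2 ≤ A₂ * M) (hb : ∑ l ∈ Ioc L (2 * L), ‖b l‖ ^ 2 ≤ B₂ * L)
    (hc : A₂ * B₂ * (N / Lg ^ 7) ^ 2 < ‖∑ m ∈ Ioc M (2 * M), ∑ l ∈ Ioc L (2 * L), a m * b l * Ker f N (2 * N) m l‖ ^ 2) :
    (N : ℝ) ≤ 4 * M * L ∧ ((M : ℝ) ^ 2 * (L : ℝ) ^ 2) / Lg ^ 29 < ∑ m ∈ Ioc M (2 * M), ∑ m' ∈ Ioc M (2 * M),
      ‖∑ l ∈ Ioc L (2 * L), Ker f N (2 * N) m l * (starRingEnd ℂ) (Ker f N (2 * N) m' l)‖ ^ 2 := by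
  have hM0 : (0 : ℝ) < M := by exact_mod_cast hM
  have hL0 : (0 : ℝ) < L := by exact_mod_cast hL
  have hN0 : (0 : ℝ) < N := by exact_mod_cast hN1
  have hLg0 : 0 < Lg := by linarith
  have hcs := cs_bil (Ioc M (2 * M)) (Ioc L (2 * L)) a b (Ker f N (2 * N))
  have hTT0 : 0 ≤ ∑ m ∈ Ioc M (2 * M), ∑ m' ∈ Ioc M (2 * M),
      ‖∑ l ∈ Ioc L (2 * L), Ker f N (2 * N) m l * (starRingEnd ℂ) (Ker f N (2 * N) m' l)‖ ^ 2 :=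
    sum_nonneg fun _ _ => sum_nonneg fun _ _ => sq_nonneg _
  generalize (∑ m ∈ Ioc M (2 * M), ∑ m' ∈ Ioc M (2 * M),
      ‖∑ l ∈ Ioc L (2 * L), Ker f N (2 * N) m l * (starRingEnd ℂ) (Ker f N (2 * N) m' l)‖ ^ 2) = TT at hcs hTT0 ⊢
  have hex : 0 < ‖∑ m ∈ Ioc M (2 * M), ∑ l ∈ Ioc L (2 * L), a m * b l * Ker f N (2 * N) m l‖ → (N : ℝ) ≤ 4 * M * L := by
    intro hB0
    obtain ⟨m, hm, hm2⟩ := exists_ne_zero_of_sum_ne_zero (norm_pos_iff.1 hB0)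
    obtain ⟨l, hl, hl2⟩ := exists_ne_zero_of_sum_ne_zero hm2
    rw [mem_Ioc] at hm hl
    have h1 : N < m * l := by
      by_contra h
      apply hl2
      unfold Ker
      rw [if_neg (fun h' => h h'.1), mul_zero]
    have h2 : m * l ≤ (2 * M) * (2 * L) := Nat.mul_le_mul hm.2 hl.2
    have h3 : (N : ℝ) ≤ (((2 * M) * (2 * L) : ℕ) : ℝ) := Nat.cast_le.2 (h1.le.trans h2)
    push_cast at h3
    linarith
  have hnn := norm_nonneg (∑ m ∈ Ioc M (2 * M), ∑ l ∈ Ioc L (2 * L), a m * b l * Ker f N (2 * N) m l)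
  generalize ‖∑ m ∈ Ioc M (2 * M), ∑ l ∈ Ioc L (2 * L), a m * b l * Ker f N (2 * N) m l‖ = B at hc hcs hex hnn
  have hB2 : 0 < B ^ 2 := lt_of_le_of_lt (mul_nonneg (mul_nonneg hA₂ hB₂) (sq_nonneg _)) hc
  have hB0 : 0 < B := by
    rcases hnn.eq_or_lt with h | h
    · rw [← h] at hB2; norm_num at hB2
    · exact h
  have hS1 : 0 ≤ ∑ l ∈ Ioc L (2 * L), ‖b l‖ ^ 2 := sum_nonneg fun _ _ => sq_nonneg _
  have hS2 : 0 ≤ ∑ m ∈ Ioc M (2 * M), ‖a m‖ ^ 2 := sum_nonneg fun _ _ => sq_nonneg _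
  have hB4 : B ^ 4 ≤ (B₂ * L) ^ 2 * (A₂ * M) ^ 2 * TT := by
    refine hcs.trans ?_
    apply mul_le_mul_of_nonneg_right _ hTT0
    exact mul_le_mul (pow_le_pow_left₀ hS1 hb 2) (pow_le_pow_left₀ hS2 ha 2) (sq_nonneg _) (sq_nonneg _)
  have hML2 : (M : ℝ) * L ≤ 2 * N := by
    have : ((M * L : ℕ) : ℝ) ≤ ((2 * N : ℕ) : ℝ) := Nat.cast_le.2 hML
    push_cast at this; exact this
  exact ⟨hex hB0, real_II B A₂ B₂ M L N Lg TT hB0 hA₂ hB₂ hM0 hL0 hN0 hLg hTT0 hc hB4 hML2⟩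

/-- **Minor arcs.** -/
theorem minor (k : ℕ) (hk : 1 ≤ k) : ∃ E N₀ : ℕ, ∀ N : ℕ, N₀ ≤ N → ∀ f : ℝ[X], f.natDegree ≤ k →
    (N : ℝ) / Real.log N < ‖∑ n ∈ Ioc N (2 * N), ((ArithmeticFunction.vonMangoldt n : ℝ) : ℂ) * ee (f.eval (n : ℝ))‖ →
    ∃ q : ℕ, 1 ≤ q ∧ (q : ℝ) ≤ Real.log N ^ E ∧ ∃ b : ℤ,
      |q * ((k.factorial : ℝ) * f.coeff k) - b| ≤ Real.log N ^ E / (N : ℝ) ^ k := by
  obtain ⟨Cc, E2, L2, hII⟩ := typeII k hk 29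
  obtain ⟨E1, L1, hI⟩ := typeI k hk Cc
  have hev : ∀ᶠ N : ℕ in atTop, (9 : ℝ) * (Real.log N) ^ (2 * Cc) ≤ N ∧ L2 ≤ Real.log N ∧ L1 ≤ Real.log N ∧ 300 ≤ Real.log N ∧ 1 ≤ N := by
    filter_upwards [ev_logpow (2 * Cc + 1), ev_log L2, ev_log L1, ev_log 300, eventually_ge_atTop 1] with N h1 h2 h3 h4 h5
    refine ⟨?_, h2, h3, h4, h5⟩
    refine le_trans ?_ h1
    rw [pow_succ, mul_comm]
    exact mul_le_mul_of_nonneg_left (by linarith) (pow_nonneg (by linarith) _)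
  obtain ⟨N₀, hN₀⟩ := eventually_atTop.1 hev
  refine ⟨E1 + E2, N₀, fun N hN f hf hS => ?_⟩
  obtain ⟨hN9, hNL2, hNL1, hL300, hN1⟩ := hN₀ N hN
  have hlog4 : 1 + Real.log (4 * N) ≤ 2 * Real.log N := by
    have hN0 : (0 : ℝ) < N := by exact_mod_cast hN1
    rw [Real.log_mul (by norm_num) hN0.ne']
    have : Real.log 4 ≤ 3 := by
      have := Real.log_le_sub_one_of_pos (show (0 : ℝ) < 4 by norm_num)
      linarith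
    linarith
  have hlog40 : 0 ≤ 1 + Real.log (4 * N) := by
    have h1 : (1 : ℝ) ≤ N := by exact_mod_cast hN1
    have := Real.log_nonneg (show (1 : ℝ) ≤ 4 * N by linarith)
    linarith
  generalize Real.log N = Lg at *
  have hLg1 : 1 ≤ Lg := by linarith
  have hLg0 : 0 < Lg := by linarith
  have hN0 : (0 : ℝ) < N := by exact_mod_cast hN1
  have hNk : (0 : ℝ) ≤ (N : ℝ) ^ k := by positivity
  have hE1 : Lg ^ E1 ≤ Lg ^ (E1 + E2) := pow_le_pow_right₀ hLg1 (by omega)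
  have hE2 : Lg ^ E2 ≤ Lg ^ (E1 + E2) := pow_le_pow_right₀ hLg1 (by omega)
  have hUc1 : 1 ≤ Lg ^ Cc := one_le_pow₀ hLg1
  obtain ⟨U, hU⟩ : ∃ U : ℕ, U = ⌈2 * Lg ^ Cc⌉₊ := ⟨_, rfl⟩
  have hUlow : 2 * Lg ^ Cc ≤ U := by rw [hU]; exact Nat.le_ceil _
  have hUup : (U : ℝ) ≤ 3 * Lg ^ Cc := by
    have h1 := Nat.ceil_lt_add_one (show 0 ≤ 2 * Lg ^ Cc by positivity)
    rw [← hU] at h1
    linarith
  have hU1r : (1 : ℝ) ≤ U := by linarith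
  have hU1 : 1 ≤ U := by exact_mod_cast hU1r
  have hU0 : (0 : ℝ) < U := by linarith
  have hUN : U * U ≤ N := by
    have : (U : ℝ) * U ≤ N := by
      calc (U : ℝ) * U ≤ (3 * Lg ^ Cc) * (3 * Lg ^ Cc) := mul_le_mul hUup hUup (by positivity) (by positivity)
        _ = 9 * Lg ^ (2 * Cc) := by rw [two_mul, pow_add]; ring
        _ ≤ N := hN9
    exact_mod_cast this
  by_contra hcon
  push Not at hcon
  have hY0 : 0 ≤ (N : ℝ) / ((U : ℝ) ^ 2 * Lg ^ 3) := by positivity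
  have hR0 : 0 ≤ (N : ℝ) / Lg ^ 7 := by positivity
  have hIcase : ∀ m ∈ Icc 1 (U * U), ∀ b, b ≤ 2 * N / m →
      ‖∑ l ∈ Ioc (N / m) b, (fun n : ℕ => ee (f.eval (n : ℝ))) (m * l)‖ ≤ (fun _ : ℕ => (N : ℝ) / ((U : ℝ) ^ 2 * Lg ^ 3)) m := by
    intro m hm b hb
    rw [mem_Icc] at hm
    by_contra hc
    have hc' := not_le.1 hc
    obtain ⟨q, hq1, hq2, z, hz⟩ := hI Lg hNL1 U N m b hU1 hUup hN1 hm.1 hm.2 hb f hf hc'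
    have h1 := hcon q hq1 (hq2.trans hE1) z
    have h2 : Lg ^ E1 / (N : ℝ) ^ k ≤ Lg ^ (E1 + E2) / (N : ℝ) ^ k := div_le_div_of_nonneg_right hE1 hNk
    exact absurd (hz.trans h2) (not_le.2 h1)
  have hIIcase : ∀ (a b : ℕ → ℂ) (A₂ B₂ : ℝ), 0 ≤ A₂ → 0 ≤ B₂ → ∀ M L : ℕ, 1 ≤ M → 1 ≤ L → U < 2 * M → U < 2 * L → M * L ≤ 2 * N →
      ∑ m ∈ Ioc M (2 * M), ‖a m‖ ^ 2 ≤ A₂ * M → ∑ l ∈ Ioc L (2 * L), ‖b l‖ ^ 2 ≤ B₂ * L →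
      ‖∑ m ∈ Ioc M (2 * M), ∑ l ∈ Ioc L (2 * L), a m * b l * (if N < m * l ∧ m * l ≤ 2 * N then (fun n : ℕ => ee (f.eval (n : ℝ))) (m * l) else 0)‖ ^ 2 ≤
        A₂ * B₂ * ((N : ℝ) / Lg ^ 7) ^ 2 := by
    intro a b A₂ B₂ hA₂ hB₂ M L hM hL hUM hUL hML ha hb
    by_contra hc
    have hc' := not_le.1 hc
    obtain ⟨hN4, h7⟩ := typeII_bound f N Lg hL300 hN1 a b A₂ B₂ hA₂ hB₂ M L hM hL hML ha hb hc'
    have hMl : Lg ^ Cc ≤ M := by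
      have h1 : ((U : ℕ) : ℝ) < ((2 * M : ℕ) : ℝ) := Nat.cast_lt.2 hUM
      push_cast at h1; linarith
    have hLl : Lg ^ Cc ≤ L := by
      have h1 : ((U : ℕ) : ℝ) < ((2 * L : ℕ) : ℝ) := Nat.cast_lt.2 hUL
      push_cast at h1; linarith
    obtain ⟨q, hq1, hq2, z, hz⟩ := hII Lg hNL2 M L N (2 * N) hMl hLl hN1 hN4 f hf h7
    have h12 := hcon q hq1 (hq2.trans hE2) z
    have h13 : Lg ^ E2 / (N : ℝ) ^ k ≤ Lg ^ (E1 + E2) / (N : ℝ) ^ k := div_le_div_of_nonneg_right hE2 hNk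
    exact absurd (hz.trans h13) (not_le.2 h12)
  have key := vaughan_gen (fun n => ee (f.eval (n : ℝ))) N (2 * N) U hN1 (by omega) le_rfl hU1 hUN
    (fun _ => (N : ℝ) / ((U : ℝ) ^ 2 * Lg ^ 3)) ((N : ℝ) / Lg ^ 7) hR0 (fun _ => hY0) hIcase hIIcase
  have hsum : ∑ m ∈ Icc 1 (U * U), (N : ℝ) / ((U : ℝ) ^ 2 * Lg ^ 3) = N / Lg ^ 3 := by
    rw [sum_const, Nat.card_Icc, nsmul_eq_mul, Nat.add_sub_cancel]; push_cast; field_simp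
  have hfinal := real_fin N Lg (1 + Real.log (4 * N)) hN0 hL300 hlog40 hlog4
  have key2 : ‖∑ n ∈ Ioc N (2 * N), ((ArithmeticFunction.vonMangoldt n : ℝ) : ℂ) * ee (f.eval (n : ℝ))‖ ≤
      8 * (1 + Real.log (4 * N)) ^ 5 * ((N : ℝ) / Lg ^ 7) + 3 * (1 + Real.log (4 * N)) * (N / Lg ^ 3) := by
    rw [← hsum]; exact key
  exact absurd (key2.trans hfinal) (not_le.2 hS)

end Pool.Agent.V11293.E70
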