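import Mathlib
import Pool.Agent.TH445.OI.A3
import Pool.Agent.V11293.E70.TypeI

/-! Siegel-Walfisz for general functions on residue classes. -/

namespace Pool.Agent.V11293.E70
open Finset Filter Topology Polynomial
open Pool.Agent.TH445.OI (sw_psi evN ev_pow th th_nonneg th_eq th_total psi1_eq)
open scoped ArithmeticFunction.vonMangoldt

/-- mean over the reduced classes -/
noncomputable def kapg (q : ℕ) [NeZero q] (g : ZMod q → ℂ) : ℂ :=
  (1 / (Nat.totient q : ℂ)) * ∑ u : (ZMod q)ˣ, g (u : ZMod q)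

lemma kapg_norm (q : ℕ) [NeZero q] (g : ZMod q → ℂ) (hg : ∀ r, ‖g r‖ ≤ 1) : ‖kapg q g‖ ≤ 1 := by
  unfold kapg
  have hq : 0 < (Nat.totient q : ℝ) := by exact_mod_cast Nat.totient_pos.2 (Nat.pos_of_ne_zero (NeZero.ne q))
  rw [norm_mul]
  have h1 : ‖∑ u : (ZMod q)ˣ, g (u : ZMod q)‖ ≤ Nat.totient q := by
    refine (norm_sum_le _ _).trans ?_
    calc ∑ u : (ZMod q)ˣ, ‖g (u : ZMod q)‖ ≤ ∑ _u : (ZMod q)ˣ, (1 : ℝ) := sum_le_sum fun u _ => hg _
      _ = _ := by rw [sum_const, card_univ, ZMod.card_units_eq_totient, nsmul_eq_mul, mul_one]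
  have h2 : ‖(1 / (Nat.totient q : ℂ))‖ = 1 / (Nat.totient q : ℝ) := by simp
  rw [h2]
  calc 1 / (Nat.totient q : ℝ) * _ ≤ 1 / (Nat.totient q : ℝ) * Nat.totient q := mul_le_mul_of_nonneg_left h1 (by positivity)
    _ = 1 := by field_simp

lemma gen_sum (q : ℕ) [NeZero q] (y : ℕ) (g : ZMod q → ℂ) (hg : ∀ r, ‖g r‖ ≤ 1) (E : ℝ)
    (hE : ∀ c : ℕ, c < q → c.Coprime q → |H343E.psiAP y q c - H343E.psi1 y / (Nat.totient q : ℝ)| ≤ E) :
    ‖∑ d ∈ Icc 1 y, (Λ d : ℂ) * g (d : ZMod q) - kapg q g * H343E.psi1 y‖ ≤ 2 * q * E := by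
  classical
  have hq0 : 0 < q := Nat.pos_of_ne_zero (NeZero.ne q)
  have hφ : (0 : ℝ) < Nat.totient q := by exact_mod_cast Nat.totient_pos.2 hq0
  have hφq : (Nat.totient q : ℝ) ≤ q := by exact_mod_cast Nat.totient_le q
  have hE' : ∀ u : (ZMod q)ˣ, |th q y (u : ZMod q) - H343E.psi1 y / (Nat.totient q : ℝ)| ≤ E := by
    intro u
    rw [th_eq]
    exact hE _ (ZMod.val_lt _) (ZMod.val_coe_unit_coprime u)
  have hE0 : 0 ≤ E := (abs_nonneg _).trans (hE' 1)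
  have h1 : ∑ d ∈ Icc 1 y, (Λ d : ℂ) * g (d : ZMod q) =
      ∑ r : ZMod q, (th q y r : ℂ) * g r := by
    rw [← sum_fiberwise (s := Icc 1 y) (g := fun n : ℕ => (n : ZMod q))]
    apply sum_congr rfl
    intro r _
    unfold th
    push_cast
    rw [sum_mul]
    refine sum_congr rfl fun n hn => ?_
    rw [(mem_filter.1 hn).2]
  have hsplit : ∀ f : ZMod q → ℂ, ∑ r : ZMod q, f r = ∑ u : (ZMod q)ˣ, f u + ∑ r ∈ univ.filter (fun r : ZMod q => ¬ IsUnit r), f r := by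
    intro f
    rw [← sum_filter_add_sum_filter_not univ (fun r : ZMod q => IsUnit r)]
    congr 1
    symm
    apply sum_bij (fun (u : (ZMod q)ˣ) (_ : u ∈ univ) => (u : ZMod q))
    · intro u _
      exact mem_filter.2 ⟨mem_univ _, u.isUnit⟩
    · intro u _ v _ h
      exact Units.ext h
    · intro r hr
      obtain ⟨u, hu⟩ := (mem_filter.1 hr).2
      exact ⟨u, mem_univ _, hu⟩
    · intro u _
      rfl
  have hnon : ∑ r ∈ univ.filter (fun r : ZMod q => ¬ IsUnit r), th q y r ≤ q * E := by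
    have e1 : ((∑ r : ZMod q, th q y r : ℝ) : ℂ) = ((∑ u : (ZMod q)ˣ, th q y u : ℝ) : ℂ) + ((∑ r ∈ univ.filter (fun r : ZMod q => ¬ IsUnit r), th q y r : ℝ) : ℂ) := by
      push_cast
      exact hsplit (fun r => (th q y r : ℂ))
    have e2 : ∑ r : ZMod q, th q y r = ∑ u : (ZMod q)ˣ, th q y u + ∑ r ∈ univ.filter (fun r : ZMod q => ¬ IsUnit r), th q y r := by
      exact_mod_cast e1
    rw [th_total] at e2
    have e3 : (Nat.totient q : ℝ) * (H343E.psi1 y / (Nat.totient q : ℝ)) - ∑ u : (ZMod q)ˣ, th q y u ≤ Nat.totient q * E := by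
      have : (Nat.totient q : ℝ) * (H343E.psi1 y / (Nat.totient q : ℝ)) = ∑ u : (ZMod q)ˣ, H343E.psi1 y / (Nat.totient q : ℝ) := by
        rw [sum_const, card_univ, ZMod.card_units_eq_totient, nsmul_eq_mul]
      rw [this, ← sum_sub_distrib]
      calc ∑ u : (ZMod q)ˣ, (H343E.psi1 y / (Nat.totient q : ℝ) - th q y u) ≤ ∑ u : (ZMod q)ˣ, E := by
            apply sum_le_sum
            intro u _
            have := (abs_le.1 (hE' u)).1
            linarith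
        _ = _ := by rw [sum_const, card_univ, ZMod.card_units_eq_totient, nsmul_eq_mul]
    rw [mul_div_cancel₀ _ hφ.ne'] at e3
    have e4 : (Nat.totient q : ℝ) * E ≤ q * E := mul_le_mul_of_nonneg_right hφq hE0
    linarith
  rw [h1, hsplit]
  have h2 : kapg q g * (H343E.psi1 y : ℂ) = ∑ u : (ZMod q)ˣ, ((H343E.psi1 y / (Nat.totient q : ℝ) : ℝ) : ℂ) * g (u : ZMod q) := by
    unfold kapg
    rw [← mul_sum]
    push_cast
    ring
  rw [h2, add_sub_right_comm, ← sum_sub_distrib]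
  refine (norm_add_le _ _).trans ?_
  have h3 : ‖∑ u : (ZMod q)ˣ, ((th q y u : ℂ) * g (u : ZMod q) -
      ((H343E.psi1 y / (Nat.totient q : ℝ) : ℝ) : ℂ) * g (u : ZMod q))‖ ≤ q * E := by
    refine (norm_sum_le _ _).trans ?_
    calc _ ≤ ∑ u : (ZMod q)ˣ, E := by
          apply sum_le_sum
          intro u _
          rw [← sub_mul, norm_mul, ← Complex.ofReal_sub, Complex.norm_real]
          calc ‖th q y (u : ZMod q) - H343E.psi1 y / (Nat.totient q : ℝ)‖ * ‖g (u : ZMod q)‖ ≤ E * 1 :=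
                mul_le_mul (hE' u) (hg _) (norm_nonneg _) hE0
            _ = E := mul_one _
      _ ≤ _ := by
          rw [sum_const, card_univ, ZMod.card_units_eq_totient, nsmul_eq_mul]
          exact mul_le_mul_of_nonneg_right hφq hE0
  have h4 : ‖∑ r ∈ univ.filter (fun r : ZMod q => ¬ IsUnit r), (th q y r : ℂ) * g r‖ ≤ q * E := by
    refine (norm_sum_le _ _).trans (le_trans ?_ hnon)
    apply sum_le_sum
    intro r _
    rw [norm_mul, Complex.norm_real, Real.norm_of_nonneg (th_nonneg _ _ _)]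
    exact mul_le_of_le_one_right (th_nonneg _ _ _) (hg _)
  linarith

/-- Siegel-Walfisz with a weight function on the classes -/
theorem sw_gen (U K : ℕ) : ∃ y0 : ℕ, ∀ y : ℕ, y0 ≤ y → ∀ (q : ℕ) [NeZero q], (q : ℝ) ≤ Real.log y ^ K →
    ∀ g : ZMod q → ℂ, (∀ r, ‖g r‖ ≤ 1) →
    ‖∑ d ∈ Icc 1 y, (Λ d : ℂ) * g (d : ZMod q) - kapg q g * y‖ ≤ y / Real.log y ^ U := by
  obtain ⟨y1, h1⟩ := sw_psi (U + K + 1) K
  obtain ⟨C, hC, y2, h2⟩ := Pool.Agent.H442R2.EHI.PntErrAux.largeU (U + 1)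
  obtain ⟨y3, h3⟩ := evN _ (ev_pow U 8 1 (by norm_num))
  obtain ⟨y4, h4⟩ := evN _ (Real.tendsto_log_atTop.eventually_ge_atTop (4 * C + 8))
  refine ⟨max (max y1 y2) (max (max y3 y4) 1), fun y hy q _ hq g hg => ?_⟩
  have hy1 : y1 ≤ y := by omega
  have hy2 : y2 ≤ y := by omega
  have hy3 : y3 ≤ y := by omega
  have hy4 : y4 ≤ y := by omega
  have hy5 : 1 ≤ y := by omega
  have hyR : (1 : ℝ) ≤ y := by exact_mod_cast hy5
  have a1 := gen_sum q y g hg _ (fun c hc hcop => h1 y hy1 q (Nat.pos_of_ne_zero (NeZero.ne q)) hq c hc hcop)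
  have a2 := h2 y hy2
  have g4 : 4 * C + 8 ≤ Real.log y := h4 y hy4
  have g3 := h3 y hy3
  rw [Real.rpow_one] at g3
  rw [psi1_eq] at a1
  generalize Real.log y = l at *
  have hl1 : 1 ≤ l := by linarith
  have hl0 : 0 < l := by linarith
  have e4 : ‖kapg q g * ((Chebyshev.psi (y : ℝ) - y : ℝ) : ℂ)‖ ≤ C * (y / l ^ (U + 1)) + 2 := by
    rw [norm_mul, Complex.norm_real]
    calc _ ≤ 1 * ‖Chebyshev.psi (y : ℝ) - y‖ := mul_le_mul_of_nonneg_right (kapg_norm q g hg) (norm_nonneg _)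
      _ ≤ _ := by rw [one_mul]; exact a2
  have e3 : ∑ d ∈ Icc 1 y, (Λ d : ℂ) * g (d : ZMod q) - kapg q g * y =
      (∑ d ∈ Icc 1 y, (Λ d : ℂ) * g (d : ZMod q) - kapg q g * (Chebyshev.psi (y : ℝ) : ℝ)) +
      kapg q g * ((Chebyshev.psi (y : ℝ) - y : ℝ) : ℂ) := by
    push_cast; ring
  rw [e3]
  have hyl : 0 ≤ y / l ^ U := by positivity
  have f1 : 2 * (q : ℝ) * (y / l ^ (U + K + 1)) ≤ (1 / 4) * (y / l ^ U) := by
    have : y / l ^ (U + K + 1) = (y / l ^ U) * (1 / (l ^ K * l)) := by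
      rw [show U + K + 1 = U + (K + 1) by ring, pow_add, pow_succ]; field_simp
    rw [this]
    have h8 : 2 * (q : ℝ) * (1 / (l ^ K * l)) ≤ 1 / 4 := by
      calc 2 * (q : ℝ) * (1 / (l ^ K * l)) ≤ 2 * (l ^ K) * (1 / (l ^ K * l)) := by gcongr
        _ = 2 / l := by field_simp
        _ ≤ 1 / 4 := by rw [div_le_iff₀ hl0]; linarith
    calc 2 * (q : ℝ) * ((y / l ^ U) * (1 / (l ^ K * l))) = (2 * (q : ℝ) * (1 / (l ^ K * l))) * (y / l ^ U) := by ring
      _ ≤ _ := mul_le_mul_of_nonneg_right h8 hyl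
  have f2 : C * (y / l ^ (U + 1)) ≤ (1 / 4) * (y / l ^ U) := by
    have : C * (y / l ^ (U + 1)) = (C / l) * (y / l ^ U) := by rw [pow_succ]; field_simp
    rw [this]
    have h9 : C / l ≤ 1 / 4 := by rw [div_le_iff₀ hl0]; linarith
    exact mul_le_mul_of_nonneg_right h9 hyl
  have f3 : 2 ≤ (1 / 4) * (y / l ^ U) := by
    rw [← mul_div_assoc, le_div_iff₀ (by positivity)]
    linarith
  calc _ ≤ 2 * (q : ℝ) * (y / l ^ (U + K + 1)) + (C * (y / l ^ (U + 1)) + 2) :=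
        (norm_add_le _ _).trans (add_le_add a1 e4)
    _ ≤ y / l ^ U := by linarith

/-- the same on intervals -/
theorem sw_int (U K : ℕ) : ∃ N0 : ℕ, ∀ N : ℕ, N0 ≤ N → ∀ (q : ℕ) [NeZero q], (q : ℝ) ≤ Real.log N ^ K →
    ∀ g : ZMod q → ℂ, (∀ r, ‖g r‖ ≤ 1) → ∀ x : ℕ, N ≤ x → x ≤ 2 * N →
    ‖∑ d ∈ Ioc N x, (Λ d : ℂ) * g (d : ZMod q) - kapg q g * (x - N)‖ ≤ 3 * N / Real.log N ^ U := by
  obtain ⟨y0, hy0⟩ := sw_gen U K
  obtain ⟨y1, hy1⟩ := evN _ (Real.tendsto_log_atTop.eventually_ge_atTop 1)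
  refine ⟨max (max y0 y1) 1, fun N hN q _ hq g hg x hNx hx2 => ?_⟩
  have hNR : (1 : ℝ) ≤ N := by exact_mod_cast (by omega : 1 ≤ N)
  have hl1 : 1 ≤ Real.log N := hy1 N (by omega)
  have hNxR : (N : ℝ) ≤ x := by exact_mod_cast hNx
  have hlog : Real.log N ≤ Real.log x := Real.log_le_log (by linarith) hNxR
  have hl0 : 0 < Real.log N := by linarith
  have h1 := hy0 N (by omega) q hq g hg
  have h2 := hy0 x (by omega) q (hq.trans (pow_le_pow_left₀ hl0.le hlog K)) g hg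
  have h3 : (x : ℝ) / Real.log x ^ U ≤ 2 * N / Real.log N ^ U := by
    have hx2R : (x : ℝ) ≤ 2 * N := by exact_mod_cast hx2
    exact div_le_div₀ (by linarith) hx2R (by positivity) (pow_le_pow_left₀ hl0.le hlog U)
  have h4 : ∑ d ∈ Icc 1 x, (Λ d : ℂ) * g (d : ZMod q) = ∑ d ∈ Icc 1 N, (Λ d : ℂ) * g (d : ZMod q) + ∑ d ∈ Ioc N x, (Λ d : ℂ) * g (d : ZMod q) := by
    rw [← sum_union]
    · apply sum_congr _ fun _ _ => rfl
      ext d; rw [mem_union, mem_Icc, mem_Icc, mem_Ioc]; omega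
    · rw [disjoint_left]; intro d hd hd'; rw [mem_Icc] at hd; rw [mem_Ioc] at hd'; omega
  have h5 : ∑ d ∈ Ioc N x, (Λ d : ℂ) * g (d : ZMod q) - kapg q g * (x - N) =
      (∑ d ∈ Icc 1 x, (Λ d : ℂ) * g (d : ZMod q) - kapg q g * x) - (∑ d ∈ Icc 1 N, (Λ d : ℂ) * g (d : ZMod q) - kapg q g * N) := by
    rw [h4]; ring
  rw [h5]
  refine (norm_sub_le _ _).trans ?_
  have h6 : 3 * (N : ℝ) / Real.log N ^ U = 2 * N / Real.log N ^ U + N / Real.log N ^ U := by ring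
  rw [h6]
  linarith

end Pool.Agent.V11293.E70
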