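import Mathlib
import Pool.Agent.V11293.E70.SW
import Pool.Agent.V11293.E70.Minor
import Pool.Agent.V11293.E70.Fourier

/-! Major arcs. -/

namespace Pool.Agent.V11293.E70
open Finset Filter Topology Polynomial
open Pool.Agent.Helper602.MK (ee)
open Pool.Agent.Helper602.MK.N_J5b (ee_add ee_zero ee_conj norm_ee ee_int ee_nat_mul ee_eq_one_iff ee_eq normsq_sum)
open scoped ArithmeticFunction.vonMangoldt

/-- the exponential sum over a class -/
noncomputable def SS (h : ℤ[X]) (Q s N : ℕ) (θ : ℝ) : ℂ :=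
  ∑ n ∈ Ioc N (2 * N), (Λ n : ℂ) * (if n ≡ s [MOD Q] then ee (((h.eval (n : ℤ) : ℤ) : ℝ) * θ) else 0)

lemma ind_class (Q : ℕ) (hQ : 1 ≤ Q) (n s : ℕ) :
    (if n ≡ s [MOD Q] then (1 : ℂ) else 0) = (1 / (Q : ℂ)) * ∑ c ∈ range Q, ee ((((n : ℤ) - s : ℤ) : ℝ) * (c / Q)) := by
  have hQ0 : (Q : ℂ) ≠ 0 := by exact_mod_cast (by omega : Q ≠ 0)
  rw [orth Q hQ]
  by_cases h : n ≡ s [MOD Q]
  · have h2 : (Q : ℤ) ∣ (n : ℤ) - s := (Nat.modEq_iff_dvd.1 h.symm)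
    rw [if_pos h, if_pos h2]; field_simp
  · have h2 : ¬ (Q : ℤ) ∣ (n : ℤ) - s := fun h' => h (Nat.modEq_iff_dvd.2 h').symm
    rw [if_neg h, if_neg h2, mul_zero]

/-- phase polynomial -/
noncomputable def phase (h : ℤ[X]) (θ c : ℝ) : ℝ[X] := C θ * h.map (Int.castRingHom ℝ) + C c * X

lemma phase_eval (h : ℤ[X]) (θ c : ℝ) (n : ℕ) : (phase h θ c).eval (n : ℝ) = ((h.eval (n : ℤ) : ℤ) : ℝ) * θ + c * n := by
  unfold phase
  rw [eval_add, eval_mul, eval_C, eval_mul, eval_C, eval_X]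
  have : (h.map (Int.castRingHom ℝ)).eval (n : ℝ) = ((h.eval (n : ℤ) : ℤ) : ℝ) := by
    rw [eval_map, ← Int.cast_natCast n, ← eq_intCast (Int.castRingHom ℝ) (n : ℤ), eval₂_at_apply, eq_intCast]
  rw [this]; ring

lemma phase_natDegree (h : ℤ[X]) (hd : 1 ≤ h.natDegree) (θ c : ℝ) : (phase h θ c).natDegree ≤ h.natDegree := by
  unfold phase
  refine (natDegree_add_le _ _).trans (max_le ?_ ?_)
  · exact (natDegree_C_mul_le _ _).trans (natDegree_map_le)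
  · refine (natDegree_C_mul_le _ _).trans ?_
    exact natDegree_X_le.trans hd

lemma phase_coeff (h : ℤ[X]) (θ c : ℝ) (k : ℕ) : (phase h θ c).coeff k = θ * (h.coeff k : ℤ) + c * (if 1 = k then 1 else 0) := by
  unfold phase
  rw [coeff_add, coeff_C_mul, coeff_C_mul, coeff_map, coeff_X, eq_intCast]

lemma SS_expand (h : ℤ[X]) (Q s N : ℕ) (hQ : 1 ≤ Q) (θ : ℝ) :
    SS h Q s N θ = (1 / (Q : ℂ)) * ∑ c ∈ range Q, ee (-((s : ℝ) * (c / Q))) *
      ∑ n ∈ Ioc N (2 * N), ((Λ n : ℝ) : ℂ) * ee ((phase h θ (c / Q)).eval (n : ℝ)) := by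
  unfold SS
  have h1 : ∀ n ∈ Ioc N (2 * N), (Λ n : ℂ) * (if n ≡ s [MOD Q] then ee (((h.eval (n : ℤ) : ℤ) : ℝ) * θ) else 0) =
      (1 / (Q : ℂ)) * ∑ c ∈ range Q, ee (-((s : ℝ) * (c / Q))) * (((Λ n : ℝ) : ℂ) * ee ((phase h θ (c / Q)).eval (n : ℝ))) := by
    intro n _
    have e1 : (if n ≡ s [MOD Q] then ee (((h.eval (n : ℤ) : ℤ) : ℝ) * θ) else 0) =
        (if n ≡ s [MOD Q] then (1 : ℂ) else 0) * ee (((h.eval (n : ℤ) : ℤ) : ℝ) * θ) := by
      split_ifs <;> simp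
    rw [e1, ind_class Q hQ, mul_assoc, mul_left_comm, sum_mul, mul_sum]
    congr 1
    apply sum_congr rfl; intro c _
    rw [phase_eval]
    have e2 : (((n : ℤ) - s : ℤ) : ℝ) * ((c : ℝ) / Q) = -((s : ℝ) * (c / Q)) + (c / Q) * n := by push_cast; ring
    rw [e2, ee_add, ee_add]; ring
  rw [sum_congr rfl h1, ← mul_sum, sum_comm]
  congr 1
  apply sum_congr rfl; intro c _
  rw [mul_sum]

/-- **Minor arcs for a class.** -/
theorem minorS (h : ℤ[X]) (hd : 1 ≤ h.natDegree) (Q s : ℕ) (hQ : 1 ≤ Q) : ∃ E N₀ : ℕ, ∀ N : ℕ, N₀ ≤ N → ∀ θ : ℝ,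
    (N : ℝ) / Real.log N < ‖SS h Q s N θ‖ →
    ∃ r : ℕ, 1 ≤ r ∧ (r : ℝ) ≤ Real.log N ^ E ∧ ∃ z : ℤ, |r * θ - z| ≤ Real.log N ^ E / (N : ℝ) ^ h.natDegree := by
  obtain ⟨E, N1, hmin⟩ := minor h.natDegree hd
  have hh0 : h ≠ 0 := by
    intro h0; rw [h0, natDegree_zero] at hd; omega
  have hlc : h.leadingCoeff.natAbs ≠ 0 := by
    rw [Int.natAbs_ne_zero]; exact leadingCoeff_ne_zero.2 hh0
  set k := h.natDegree with hk
  obtain ⟨N2, hN2⟩ := eventually_atTop.1 (ev_log ((Q : ℝ) * (k.factorial * h.leadingCoeff.natAbs) + 1))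
  refine ⟨E + 1, max N1 (max N2 1), fun N hN θ hS => ?_⟩
  have hL := hN2 N (by omega)
  have hN0 : (0 : ℝ) < N := by exact_mod_cast (by omega : 0 < N)
  have hQ0 : (0 : ℝ) < Q := by exact_mod_cast hQ
  have hcc : (0 : ℝ) ≤ (Q : ℝ) * (k.factorial * h.leadingCoeff.natAbs) := by positivity
  -- some character sum is large
  obtain ⟨c, hc, hcS⟩ : ∃ c ∈ range Q, (N : ℝ) / Real.log N <
      ‖∑ n ∈ Ioc N (2 * N), ((Λ n : ℝ) : ℂ) * ee ((phase h θ (c / Q)).eval (n : ℝ))‖ := by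
    by_contra hcon
    push Not at hcon
    rw [SS_expand h Q s N hQ θ] at hS
    have h1 : ‖(1 / (Q : ℂ)) * ∑ c ∈ range Q, ee (-((s : ℝ) * (c / Q))) *
      ∑ n ∈ Ioc N (2 * N), ((Λ n : ℝ) : ℂ) * ee ((phase h θ (c / Q)).eval (n : ℝ))‖ ≤ (N : ℝ) / Real.log N := by
      rw [norm_mul]
      have e1 : ‖(1 / (Q : ℂ))‖ = 1 / (Q : ℝ) := by simp
      rw [e1]
      calc 1 / (Q : ℝ) * ‖∑ c ∈ range Q, ee (-((s : ℝ) * (c / Q))) *
            ∑ n ∈ Ioc N (2 * N), ((Λ n : ℝ) : ℂ) * ee ((phase h θ (c / Q)).eval (n : ℝ))‖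
          ≤ 1 / (Q : ℝ) * ∑ c ∈ range Q, (N : ℝ) / Real.log N := by
            apply mul_le_mul_of_nonneg_left _ (by positivity)
            refine (norm_sum_le _ _).trans (sum_le_sum fun c hc => ?_)
            rw [norm_mul, norm_ee, one_mul]
            exact hcon c hc
        _ = (N : ℝ) / Real.log N := by
            rw [sum_const, card_range, nsmul_eq_mul]; field_simp
    exact absurd h1 (not_le.2 hS)
  obtain ⟨q, hq1, hq2, z, hz⟩ := hmin N (by omega) _ (phase_natDegree h hd θ (c / Q)) hcS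
  rw [phase_coeff] at hz
  generalize Real.log N = Lg at *
  have hLg1 : 1 ≤ Lg := by linarith
  have hLg0 : 0 < Lg := by linarith
  have hsign : ∃ σ : ℤ, |(σ : ℝ)| = 1 ∧ (h.leadingCoeff.natAbs : ℝ) = σ * h.leadingCoeff := by
    rcases Int.natAbs_eq h.leadingCoeff with h1 | h1
    · refine ⟨1, by norm_num, ?_⟩
      have h3 : ((h.leadingCoeff.natAbs : ℤ) : ℝ) = (h.leadingCoeff : ℝ) := congrArg _ h1.symm
      rw [Int.cast_natCast] at h3
      rw [h3, Int.cast_one, one_mul]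
    · refine ⟨-1, by norm_num, ?_⟩
      have h2 : (h.leadingCoeff.natAbs : ℤ) = -h.leadingCoeff := by omega
      have h3 : ((h.leadingCoeff.natAbs : ℤ) : ℝ) = ((-h.leadingCoeff : ℤ) : ℝ) := congrArg _ h2
      rw [Int.cast_natCast] at h3
      rw [h3, Int.cast_neg, Int.cast_neg, Int.cast_one, neg_one_mul]
  obtain ⟨σ, hσ1, hσ2⟩ := hsign
  have hlceq : h.coeff k = h.leadingCoeff := rfl
  rw [hlceq] at hz
  have hEE : Lg ^ E ≤ Lg ^ (E + 1) := pow_le_pow_right₀ hLg1 (by omega)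
  refine ⟨Q * (q * (k.factorial * h.leadingCoeff.natAbs)), ?_, ?_, σ * (Q * z - (if 1 = k then (q : ℤ) * (k.factorial * c) else 0)), ?_⟩
  · exact Nat.mul_pos hQ (Nat.mul_pos hq1 (Nat.mul_pos (Nat.factorial_pos k) (Nat.pos_of_ne_zero hlc)))
  · push_cast
    calc (Q : ℝ) * (q * (k.factorial * h.leadingCoeff.natAbs)) = (Q * (k.factorial * h.leadingCoeff.natAbs)) * q := by ring
      _ ≤ Lg * Lg ^ E := mul_le_mul (by linarith) hq2 (Nat.cast_nonneg _) hLg0.le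
      _ = Lg ^ (E + 1) := by ring
  · have e1 : ((Q * (q * (k.factorial * h.leadingCoeff.natAbs)) : ℕ) : ℝ) * θ -
        ((σ * (Q * z - (if 1 = k then (q : ℤ) * (k.factorial * c) else 0)) : ℤ) : ℝ) =
        σ * Q * (q * ((k.factorial : ℝ) * (θ * (h.leadingCoeff : ℤ) + c / Q * (if 1 = k then 1 else 0))) - z) := by
      push_cast
      rw [hσ2]
      split_ifs
      · field_simp; push_cast; ring
      · push_cast; ring
    rw [e1, abs_mul, abs_mul, hσ1, one_mul, abs_of_pos hQ0]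
    have hQL : (Q : ℝ) ≤ Lg := by
      have h1 : (1 : ℝ) ≤ k.factorial * h.leadingCoeff.natAbs := by
        have : 1 ≤ k.factorial * h.leadingCoeff.natAbs := Nat.mul_pos (Nat.factorial_pos k) (Nat.pos_of_ne_zero hlc)
        exact_mod_cast this
      have h2 : (Q : ℝ) ≤ Q * (k.factorial * h.leadingCoeff.natAbs) := le_mul_of_one_le_right hQ0.le h1
      linarith
    calc (Q : ℝ) * |q * ((k.factorial : ℝ) * (θ * (h.leadingCoeff : ℤ) + c / Q * (if 1 = k then 1 else 0))) - z|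
        ≤ Lg * (Lg ^ E / (N : ℝ) ^ k) := mul_le_mul hQL hz (abs_nonneg _) hLg0.le
      _ = Lg ^ (E + 1) / (N : ℝ) ^ k := by ring

/-- Abel summation -/
lemma abel_bound (a w : ℕ → ℂ) (n : ℕ) (B V : ℝ) (hB : ∀ j, j ≤ n → ‖∑ i ∈ range j, a i‖ ≤ B) (hw : ∀ i, ‖w i‖ ≤ 1)
    (hV : ∑ i ∈ range n, ‖w (i + 1) - w i‖ ≤ V) : ‖∑ i ∈ range n, w i * a i‖ ≤ B * (1 + V) := by
  have hB0 : 0 ≤ B := (norm_nonneg _).trans (hB 0 (Nat.zero_le _))
  have h1 := Finset.sum_range_by_parts w a n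
  simp only [smul_eq_mul] at h1
  rw [h1]
  refine (norm_sub_le _ _).trans ?_
  have h2 : ‖w (n - 1) * ∑ i ∈ range n, a i‖ ≤ B := by
    rw [norm_mul]
    calc ‖w (n - 1)‖ * ‖∑ i ∈ range n, a i‖ ≤ 1 * B := mul_le_mul (hw _) (hB n le_rfl) (norm_nonneg _) zero_le_one
      _ = B := one_mul _
  have h3 : ‖∑ i ∈ range (n - 1), (w (i + 1) - w i) * ∑ i ∈ range (i + 1), a i‖ ≤ V * B := by
    refine (norm_sum_le _ _).trans ?_
    calc ∑ i ∈ range (n - 1), ‖(w (i + 1) - w i) * ∑ i ∈ range (i + 1), a i‖ ≤ ∑ i ∈ range (n - 1), ‖w (i + 1) - w i‖ * B := by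
          apply sum_le_sum; intro i hi
          rw [mem_range] at hi
          rw [norm_mul]
          exact mul_le_mul_of_nonneg_left (hB _ (by omega)) (norm_nonneg _)
      _ = (∑ i ∈ range (n - 1), ‖w (i + 1) - w i‖) * B := by rw [sum_mul]
      _ ≤ V * B := by
          apply mul_le_mul_of_nonneg_right _ hB0
          refine le_trans ?_ hV
          apply sum_le_sum_of_subset_of_nonneg
          · intro i hi; rw [mem_range] at hi ⊢; omega
          · intro _ _ _; exact norm_nonneg _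
  linarith

lemma ee_sub_le (x y : ℝ) : ‖ee x - ee y‖ ≤ 2 * Real.pi * |x - y| := by
  have h1 : ee x - ee y = ee y * (ee (x - y) - 1) := by
    rw [mul_sub, mul_one, ← ee_add]; congr 2; ring
  rw [h1, norm_mul, norm_ee, one_mul, ee_eq]
  have h2 := Real.norm_exp_I_mul_ofReal_sub_one_le (x := 2 * Real.pi * (x - y))
  rw [mul_comm Complex.I] at h2
  refine h2.trans ?_
  rw [Real.norm_eq_abs, abs_mul, abs_of_pos (by positivity : 0 < 2 * Real.pi)]

/-- size of a real polynomial -/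
lemma poly_size (f : ℝ[X]) (d : ℕ) (hf : f.natDegree ≤ d) (x : ℝ) (hx : 1 ≤ x) :
    |f.eval x| ≤ (∑ i ∈ range (d + 1), |f.coeff i|) * x ^ d := by
  rw [eval_eq_sum_range' (by omega : f.natDegree < d + 1), sum_mul]
  refine (abs_sum_le_sum_abs _ _).trans (sum_le_sum fun i hi => ?_)
  rw [mem_range] at hi
  rw [abs_mul, abs_of_nonneg (by positivity : 0 ≤ x ^ i)]
  exact mul_le_mul_of_nonneg_left (pow_le_pow_right₀ hx (by omega)) (abs_nonneg _)

lemma diff_natDegree (f : ℝ[X]) (d : ℕ) (hf : f.natDegree ≤ d + 1) : (taylor 1 f - f).natDegree ≤ d := by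
  rw [natDegree_le_iff_coeff_eq_zero]
  intro j hj
  rw [coeff_sub, taylor_coeff]
  have h1 : (hasseDeriv j f).natDegree ≤ 0 := by
    have := natDegree_hasseDeriv_le f j
    omega
  rw [eq_C_of_natDegree_le_zero h1, eval_C, hasseDeriv_coeff, zero_add, Nat.choose_self, Nat.cast_one, one_mul, sub_self]

lemma var_poly (h : ℤ[X]) (hd : 1 ≤ h.natDegree) : ∃ Ch : ℝ, 0 ≤ Ch ∧ ∀ N n : ℕ, 1 ≤ N → N ≤ n → n ≤ 2 * N →
    |((h.eval ((n + 1 : ℕ) : ℤ) : ℤ) : ℝ) - ((h.eval (n : ℤ) : ℤ) : ℝ)| ≤ Ch * (N : ℝ) ^ (h.natDegree - 1) := by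
  obtain ⟨d, hd'⟩ : ∃ d, h.natDegree = d + 1 := ⟨h.natDegree - 1, by omega⟩
  set f : ℝ[X] := h.map (Int.castRingHom ℝ) with hf
  have hfd : f.natDegree ≤ d + 1 := by rw [← hd']; exact natDegree_map_le
  have hfe : ∀ n : ℕ, f.eval (n : ℝ) = ((h.eval (n : ℤ) : ℤ) : ℝ) := by
    intro n
    rw [hf, eval_map, ← Int.cast_natCast n, ← eq_intCast (Int.castRingHom ℝ) (n : ℤ), eval₂_at_apply, eq_intCast]
  set g := taylor 1 f - f with hg
  have hgd := diff_natDegree f d hfd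
  set Sg := ∑ i ∈ range (d + 1), |g.coeff i| with hSg
  have hSg0 : 0 ≤ Sg := sum_nonneg fun _ _ => abs_nonneg _
  refine ⟨Sg * 2 ^ d, by positivity, fun N n hN hNn hn2 => ?_⟩
  have h1 : ((h.eval ((n + 1 : ℕ) : ℤ) : ℤ) : ℝ) - ((h.eval (n : ℤ) : ℤ) : ℝ) = g.eval (n : ℝ) := by
    rw [hg, eval_sub, taylor_eval, hfe n, ← hfe (n + 1)]
    push_cast; ring_nf
  rw [h1, hd', Nat.add_sub_cancel]
  have hn1 : (1 : ℝ) ≤ n := by exact_mod_cast (hN.trans hNn)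
  refine (poly_size g d hgd n hn1).trans ?_
  have h2 : (n : ℝ) ^ d ≤ (2 * N) ^ d := pow_le_pow_left₀ (by positivity) (by exact_mod_cast hn2) d
  calc Sg * (n : ℝ) ^ d ≤ Sg * (2 * N) ^ d := mul_le_mul_of_nonneg_left h2 hSg0
    _ = Sg * 2 ^ d * (N : ℝ) ^ d := by rw [mul_pow]; ring

end Pool.Agent.V11293.E70
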