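import Mathlib
import Pool.Agent.V11293.E70.Major

/-! Major arcs: evaluation and decay of the complete sums. -/

namespace Pool.Agent.V11293.E70
open Finset Filter Topology Polynomial
open Pool.Agent.Helper602.MK (ee)
open Pool.Agent.Helper602.MK.N_J5b (ee_add ee_zero ee_conj norm_ee ee_int ee_nat_mul ee_eq_one_iff ee_eq normsq_sum)
open scoped ArithmeticFunction.vonMangoldt

/-- weight on the classes -/
noncomputable def gfun (h : ℤ[X]) (Q s q : ℕ) (b : ℤ) (M : ℕ) : ZMod M → ℂ := fun r =>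
  if r.val ≡ s [MOD Q] then ee (((h.eval (r.val : ℤ) : ℤ) : ℝ) * ((b : ℝ) / q)) else 0

lemma gfun_norm (h : ℤ[X]) (Q s q : ℕ) (b : ℤ) (M : ℕ) (r : ZMod M) : ‖gfun h Q s q b M r‖ ≤ 1 := by
  unfold gfun
  split_ifs
  · rw [norm_ee]
  · simp

lemma gfun_nat (h : ℤ[X]) (Q s q : ℕ) (b : ℤ) (hq : 1 ≤ q) (n : ℕ) :
    gfun h Q s q b (Q * q) (n : ZMod (Q * q)) =
      if n ≡ s [MOD Q] then ee (((h.eval (n : ℤ) : ℤ) : ℝ) * ((b : ℝ) / q)) else 0 := by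
  unfold gfun
  rw [ZMod.val_natCast]
  have h0 : n % (Q * q) ≡ n [MOD Q * q] := Nat.mod_modEq n _
  have h1 : n % (Q * q) ≡ n [MOD Q] := h0.of_mul_right q
  have h2 : n % (Q * q) ≡ n [MOD q] := h0.of_mul_left Q
  have h3 : (n % (Q * q) ≡ s [MOD Q]) ↔ (n ≡ s [MOD Q]) := ⟨fun h => h1.symm.trans h, fun h => h1.trans h⟩
  by_cases hs : n ≡ s [MOD Q]
  · rw [if_pos hs, if_pos (h3.2 hs)]
    have h4 : (q : ℤ) ∣ h.eval ((n % (Q * q) : ℕ) : ℤ) - h.eval (n : ℤ) := by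
      refine dvd_trans ?_ (sub_dvd_eval_sub ((n % (Q * q) : ℕ) : ℤ) (n : ℤ) h)
      exact Nat.modEq_iff_dvd.1 h2.symm
    obtain ⟨e, he⟩ := h4
    have h5 : h.eval ((n % (Q * q) : ℕ) : ℤ) = h.eval (n : ℤ) + q * e := by linarith
    rw [h5]
    have hq0 : (q : ℝ) ≠ 0 := by positivity
    have h6 : (((h.eval (n : ℤ) + q * e : ℤ)) : ℝ) * ((b : ℝ) / q) =
        ((h.eval (n : ℤ) : ℤ) : ℝ) * ((b : ℝ) / q) + ((e * b : ℤ) : ℝ) := by
      push_cast; field_simp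
    rw [h6, ee_add, ee_int, mul_one]
  · rw [if_neg hs, if_neg (fun h' => hs (h3.1 h'))]

/-- evaluation at a rational point -/
lemma SS_rat (h : ℤ[X]) (Q s q : ℕ) (b : ℤ) (hq : 1 ≤ q) (N : ℕ) :
    SS h Q s N ((b : ℝ) / q) = ∑ n ∈ Ioc N (2 * N), (Λ n : ℂ) * gfun h Q s q b (Q * q) (n : ZMod (Q * q)) := by
  unfold SS
  apply sum_congr rfl; intro n _
  rw [gfun_nat h Q s q b hq]

lemma SS_near (h : ℤ[X]) (Q s q : ℕ) (b : ℤ) (hq : 1 ≤ q) (N : ℕ) (θ : ℝ) :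
    SS h Q s N θ = ∑ n ∈ Ioc N (2 * N), ee (((h.eval (n : ℤ) : ℤ) : ℝ) * (θ - (b : ℝ) / q)) *
      ((Λ n : ℂ) * gfun h Q s q b (Q * q) (n : ZMod (Q * q))) := by
  unfold SS
  apply sum_congr rfl; intro n _
  rw [gfun_nat h Q s q b hq]
  split_ifs
  · have e : ((h.eval (n : ℤ) : ℤ) : ℝ) * θ = ((h.eval (n : ℤ) : ℤ) : ℝ) * (θ - (b : ℝ) / q) + ((h.eval (n : ℤ) : ℤ) : ℝ) * ((b : ℝ) / q) := by ring
    rw [e, ee_add]; ring
  · ring

lemma sum_Ioc_range (N M : ℕ) (f : ℕ → ℂ) : ∑ n ∈ Ioc N (N + M), f n = ∑ i ∈ range M, f (N + 1 + i) := by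
  symm
  apply sum_bij (fun (i : ℕ) _ => N + 1 + i)
  · intro n hn; rw [mem_range] at hn; rw [mem_Ioc]; omega
  · intro x _ y _ h; omega
  · intro l hl
    rw [mem_Ioc] at hl
    exact ⟨l - (N + 1), by rw [mem_range]; omega, by omega⟩
  · intro n _; rfl

/-- **Major arcs.** -/
theorem major (h : ℤ[X]) (hd : 1 ≤ h.natDegree) (Q s : ℕ) (hQ : 1 ≤ Q) (E : ℕ) : ∃ N₀ : ℕ, ∀ N : ℕ, N₀ ≤ N →
    ∀ (q : ℕ) [NeZero (Q * q)], 1 ≤ q → (q : ℝ) ≤ Real.log N ^ E → ∀ (b : ℤ) (θ : ℝ),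
    |θ - (b : ℝ) / q| ≤ Real.log N ^ E / (N : ℝ) ^ h.natDegree →
    ‖SS h Q s N θ‖ ≤ ‖kapg (Q * q) (gfun h Q s q b (Q * q))‖ * N + N / Real.log N := by
  obtain ⟨Ch, hCh0, hCh⟩ := var_poly h hd
  obtain ⟨N1, hN1⟩ := sw_int (E + 2) (E + 1)
  obtain ⟨N2, hN2⟩ := eventually_atTop.1 (ev_log ((Q : ℝ) + 3 * (1 + 2 * Real.pi * Ch) + 1))
  refine ⟨max N1 (max N2 1), fun N hN q _ hq hqL b θ hθ => ?_⟩
  have hNpos : 1 ≤ N := by omega
  have hN0 : (0 : ℝ) < N := by exact_mod_cast hNpos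
  have hL := hN2 N (by omega)
  have hpi := Real.pi_pos
  have hc0 : 0 ≤ 3 * (1 + 2 * Real.pi * Ch) := by positivity
  have hQ0 : (0 : ℝ) ≤ Q := Nat.cast_nonneg _
  have hsw := hN1 N (by omega) (Q * q) (by
    push_cast
    rw [pow_succ, mul_comm]
    exact mul_le_mul hqL (by linarith) hQ0 (pow_nonneg (by linarith) _)) (gfun h Q s q b (Q * q)) (gfun_norm h Q s q b (Q * q))
  set κ := kapg (Q * q) (gfun h Q s q b (Q * q)) with hκ
  set g := gfun h Q s q b (Q * q) with hg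
  generalize Real.log N = Lg at *
  have hLg1 : 1 ≤ Lg := by linarith
  have hLg0 : 0 < Lg := by linarith
  set w : ℕ → ℂ := fun i => ee (((h.eval ((N + 1 + i : ℕ) : ℤ) : ℤ) : ℝ) * (θ - (b : ℝ) / q)) with hw
  set a : ℕ → ℂ := fun i => (Λ (N + 1 + i) : ℂ) * g ((N + 1 + i : ℕ) : ZMod (Q * q)) - κ with ha
  have h1 : SS h Q s N θ = ∑ i ∈ range N, w i * a i + κ * ∑ i ∈ range N, w i := by
    rw [SS_near h Q s q b hq, two_mul, sum_Ioc_range, mul_sum, ← sum_add_distrib]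
    apply sum_congr rfl; intro i _
    rw [hw, ha]; ring
  have hB : ∀ j, j ≤ N → ‖∑ i ∈ range j, a i‖ ≤ 3 * N / Lg ^ (E + 2) := by
    intro j hj
    have h2 := hsw (N + j) (by omega) (by omega)
    rw [sum_Ioc_range] at h2
    have h3 : ∑ i ∈ range j, a i = ∑ i ∈ range j, (Λ (N + 1 + i) : ℂ) * g ((N + 1 + i : ℕ) : ZMod (Q * q)) - κ * (((N + j : ℕ) : ℂ) - N) := by
      rw [ha, sum_sub_distrib, sum_const, card_range, nsmul_eq_mul]; push_cast; ring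
    rw [h3]; exact h2
  have hV : ∑ i ∈ range N, ‖w (i + 1) - w i‖ ≤ 2 * Real.pi * Ch * Lg ^ E := by
    have h2 : ∀ i ∈ range N, ‖w (i + 1) - w i‖ ≤ 2 * Real.pi * ((Lg ^ E / (N : ℝ) ^ h.natDegree) * (Ch * (N : ℝ) ^ (h.natDegree - 1))) := by
      intro i hi
      rw [mem_range] at hi
      refine (ee_sub_le _ _).trans ?_
      apply mul_le_mul_of_nonneg_left _ (by positivity)
      rw [← sub_mul, abs_mul, mul_comm]
      apply mul_le_mul hθ _ (abs_nonneg _) (by positivity)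
      have h3 := hCh N (N + 1 + i) hNpos (by omega) (by omega)
      exact h3
    refine (sum_le_sum h2).trans ?_
    rw [sum_const, card_range, nsmul_eq_mul]
    obtain ⟨d, hd'⟩ : ∃ d, h.natDegree = d + 1 := ⟨h.natDegree - 1, by omega⟩
    rw [hd', Nat.add_sub_cancel]
    apply le_of_eq
    field_simp
    ring
  have h4 := abel_bound a w N _ _ hB (fun i => by rw [hw]; exact (norm_ee _).le) hV
  rw [h1]
  refine (norm_add_le _ _).trans ?_
  have h5 : ‖κ * ∑ i ∈ range N, w i‖ ≤ ‖κ‖ * N := by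
    rw [norm_mul]
    apply mul_le_mul_of_nonneg_left _ (norm_nonneg _)
    refine (norm_sum_le _ _).trans ?_
    have : ∀ i ∈ range N, ‖w i‖ = 1 := fun i _ => by rw [hw]; exact norm_ee _
    rw [sum_congr rfl this]; simp
  have h6 : 3 * (N : ℝ) / Lg ^ (E + 2) * (1 + 2 * Real.pi * Ch * Lg ^ E) ≤ N / Lg := by
    have h7 : 1 + 2 * Real.pi * Ch * Lg ^ E ≤ (1 + 2 * Real.pi * Ch) * Lg ^ E := by
      have := one_le_pow₀ hLg1 (n := E)
      linarith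
    calc 3 * (N : ℝ) / Lg ^ (E + 2) * (1 + 2 * Real.pi * Ch * Lg ^ E) ≤
          3 * (N : ℝ) / Lg ^ (E + 2) * ((1 + 2 * Real.pi * Ch) * Lg ^ E) := mul_le_mul_of_nonneg_left h7 (by positivity)
      _ = (3 * (1 + 2 * Real.pi * Ch)) * (N / Lg ^ 2) := by rw [pow_add]; field_simp
      _ ≤ Lg * (N / Lg ^ 2) := mul_le_mul_of_nonneg_right (by linarith) (by positivity)
      _ = N / Lg := by field_simp
  linarith

/-- choice of a scale -/
lemma choose_N (E : ℕ) (P : ℕ → Prop) (hP : ∀ᶠ N in atTop, P N) : ∃ R₀ : ℕ, ∀ q : ℕ, R₀ ≤ q → ∃ N : ℕ, P N ∧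
    (q : ℝ) ≤ Real.log N ^ (E + 1) ∧ Real.log N ^ E < q := by
  obtain ⟨N1, hN1⟩ := eventually_atTop.1 hP
  refine ⟨(N1 + 2 ^ E + 2) ^ (E + 1), fun q hq => ?_⟩
  set t : ℝ := (q : ℝ) ^ ((1 : ℝ) / ((E + 1 : ℕ) : ℝ)) with ht
  have ht0 : 0 ≤ t := by positivity
  have htq : t ^ (E + 1) = q := by
    rw [ht, ← Real.rpow_natCast, ← Real.rpow_mul (Nat.cast_nonneg q), one_div, inv_mul_cancel₀ (by positivity), Real.rpow_one]
  have htlow : ((N1 + 2 ^ E + 2 : ℕ) : ℝ) ≤ t := by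
    have h1 : ((N1 + 2 ^ E + 2 : ℕ) : ℝ) ^ (E + 1) ≤ t ^ (E + 1) := by
      rw [htq]; exact_mod_cast hq
    exact le_of_pow_le_pow_left₀ (by omega) ht0 h1
  push_cast at htlow
  have h2E : (0 : ℝ) < 2 ^ E := by positivity
  have hN1' : (0 : ℝ) ≤ N1 := Nat.cast_nonneg _
  have hexp := Real.add_one_le_exp t
  have hexp1 : 1 ≤ Real.exp t := by linarith
  set N := ⌈Real.exp t⌉₊ with hN
  have hNlow : Real.exp t ≤ N := Nat.le_ceil _
  have hNup : (N : ℝ) < Real.exp t + 1 := Nat.ceil_lt_add_one (by positivity)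
  have hN0 : (0 : ℝ) < N := by linarith
  have hlog1 : t ≤ Real.log N := by
    rw [Real.le_log_iff_exp_le hN0]; exact hNlow
  have hlog2 : Real.log N ≤ t + 1 := by
    rw [Real.log_le_iff_le_exp hN0, Real.exp_add]
    have h3 := Real.add_one_le_exp (1 : ℝ)
    have h4 : Real.exp t * 2 ≤ Real.exp t * Real.exp 1 := mul_le_mul_of_nonneg_left (by linarith) (by positivity)
    linarith
  refine ⟨N, hN1 N ?_, ?_, ?_⟩
  · have : (N1 : ℝ) ≤ N := by linarith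
    exact_mod_cast this
  · rw [← htq]; exact pow_le_pow_left₀ ht0 hlog1 _
  · have ht1 : 1 ≤ t := by linarith
    have hl0 : 0 ≤ Real.log N := ht0.trans hlog1
    calc Real.log N ^ E ≤ (2 * t) ^ E := pow_le_pow_left₀ hl0 (by linarith) E
      _ = 2 ^ E * t ^ E := by rw [mul_pow]
      _ < t * t ^ E := mul_lt_mul_of_pos_right (by linarith) (by positivity)
      _ = q := by rw [← htq]; ring

/-- decay of the complete sums over reduced classes -/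
theorem kap_small (h : ℤ[X]) (hd : 1 ≤ h.natDegree) (Q s : ℕ) (hQ : 1 ≤ Q) (ε : ℝ) (hε : 0 < ε) :
    ∃ R₀ : ℕ, ∀ (q : ℕ) [NeZero (Q * q)], R₀ ≤ q → 1 ≤ q → ∀ b : ℤ, IsCoprime b (q : ℤ) →
    ‖kapg (Q * q) (gfun h Q s q b (Q * q))‖ ≤ ε := by
  obtain ⟨E, N1, hmin⟩ := minorS h hd Q s hQ
  obtain ⟨N2, hsw⟩ := sw_int 1 (E + 2)
  obtain ⟨R₀, hR₀⟩ := choose_N E (fun N => N1 ≤ N ∧ N2 ≤ N ∧ 1 ≤ N ∧ (Q : ℝ) + 4 / ε + 1 ≤ Real.log N ∧
      (Real.log N) ^ (2 * E + 2) ≤ N) (by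
    filter_upwards [eventually_ge_atTop N1, eventually_ge_atTop N2, eventually_ge_atTop 1, ev_log ((Q : ℝ) + 4 / ε + 1),
      ev_logpow (2 * E + 2)] with N h1 h2 h3 h4 h5
    exact ⟨h1, h2, h3, h4, h5⟩)
  refine ⟨R₀, fun q _ hq hq1 b hb => ?_⟩
  obtain ⟨N, ⟨hN1, hN2, hN3, hN4, hN5⟩, hN6, hN7⟩ := hR₀ q hq
  have hN0 : (0 : ℝ) < N := by exact_mod_cast hN3
  have h4ε : 0 < 4 / ε := by positivity
  have hQ0 : (0 : ℝ) ≤ Q := Nat.cast_nonneg _
  have hq0 : (0 : ℝ) < q := by exact_mod_cast hq1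
  have hm := hmin N hN1 ((b : ℝ) / q)
  have hs := hsw N hN2 (Q * q) (by
    push_cast
    rw [show E + 2 = (E + 1) + 1 by ring, pow_succ, mul_comm]
    exact mul_le_mul hN6 (by linarith) hQ0 (pow_nonneg (by linarith) _)) (gfun h Q s q b (Q * q)) (gfun_norm h Q s q b (Q * q))
    (2 * N) (by omega) le_rfl
  rw [← SS_rat h Q s q b hq1] at hs
  generalize Real.log N = Lg at *
  have hLg1 : 1 ≤ Lg := by linarith
  have hLg0 : 0 < Lg := by linarith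
  have hSS : ‖SS h Q s N ((b : ℝ) / q)‖ ≤ (N : ℝ) / Lg := by
    by_contra hcon
    obtain ⟨r, hr1, hr2, z, hz⟩ := hm (not_le.1 hcon)
    have hNk : (N : ℝ) ≤ (N : ℝ) ^ h.natDegree := le_self_pow₀ (by exact_mod_cast hN3) (by omega)
    have h1 : |(r : ℝ) * (b / q) - z| ≤ Lg ^ E / N := hz.trans (div_le_div_of_nonneg_left (by positivity) hN0 hNk)
    have h2 : |(r : ℝ) * b - z * q| < 1 := by
      have e : (r : ℝ) * b - z * q = q * ((r : ℝ) * (b / q) - z) := by field_simp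
      rw [e, abs_mul, abs_of_pos hq0]
      calc (q : ℝ) * |(r : ℝ) * (b / q) - z| ≤ Lg ^ (E + 1) * (Lg ^ E / N) := mul_le_mul hN6 h1 (abs_nonneg _) (by positivity)
        _ = Lg ^ (2 * E + 1) / N := by rw [← mul_div_assoc, ← pow_add]; congr 2; omega
        _ < 1 := by
          rw [div_lt_one hN0]
          refine lt_of_lt_of_le ?_ hN5
          have : Lg ^ (2 * E + 2) = Lg ^ (2 * E + 1) * Lg := by rw [← pow_succ]
          rw [this]
          exact lt_mul_of_one_lt_right (by positivity) (by linarith)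
    have h3 : (r : ℤ) * b - z * q = 0 := by
      have : |(r : ℤ) * b - z * q| < 1 := by
        have h4 : ((|(r : ℤ) * b - z * q| : ℤ) : ℝ) < 1 := by push_cast; exact h2
        exact_mod_cast h4
      exact Int.abs_lt_one_iff.1 this
    have h5 : (q : ℤ) ∣ (r : ℤ) * b := ⟨z, by linarith⟩
    have h6 : (q : ℤ) ∣ (r : ℤ) := hb.symm.dvd_of_dvd_mul_right h5
    have h7 : q ≤ r := Nat.le_of_dvd hr1 (by exact_mod_cast h6)
    have h8 : (q : ℝ) ≤ Lg ^ E := (by exact_mod_cast h7 : (q : ℝ) ≤ r).trans hr2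
    linarith
  have h1 : ‖kapg (Q * q) (gfun h Q s q b (Q * q)) * (((2 * N : ℕ) : ℂ) - N)‖ ≤ 4 * (N / Lg) := by
    have e : kapg (Q * q) (gfun h Q s q b (Q * q)) * (((2 * N : ℕ) : ℂ) - N) = SS h Q s N ((b : ℝ) / q) -
      (SS h Q s N ((b : ℝ) / q) - kapg (Q * q) (gfun h Q s q b (Q * q)) * (((2 * N : ℕ) : ℂ) - N)) := by ring
    rw [e]
    refine (norm_sub_le _ _).trans ?_
    rw [pow_one] at hs
    have e2 : 3 * (N : ℝ) / Lg = 3 * (N / Lg) := by ring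
    linarith
  have h2 : (((2 * N : ℕ) : ℂ) - N) = (N : ℂ) := by push_cast; ring
  rw [h2, norm_mul, Complex.norm_natCast] at h1
  have h3 : ‖kapg (Q * q) (gfun h Q s q b (Q * q))‖ ≤ 4 / Lg := by
    rw [← mul_div_assoc, le_div_iff₀ hLg0] at h1
    rw [le_div_iff₀ hLg0]
    have : (‖kapg (Q * q) (gfun h Q s q b (Q * q))‖ * Lg) * N ≤ 4 * N := by linarith
    exact le_of_mul_le_mul_right this hN0
  refine h3.trans ?_
  rw [div_le_iff₀ hLg0]
  have h4 : 4 / ε ≤ Lg := by linarith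
  rw [div_le_iff₀ hε] at h4
  linarith

/-- **Equidistribution of polynomial values at primes of a class.** -/
theorem equi_prime (h : ℤ[X]) (hd : 1 ≤ h.natDegree) (Q s : ℕ) (hQ : 1 ≤ Q) (ε : ℝ) (hε : 0 < ε) :
    ∃ E R₀ N₀ : ℕ, ∀ N : ℕ, N₀ ≤ N → ∀ θ : ℝ, ε * N < ‖SS h Q s N θ‖ →
    ∃ q : ℕ, 1 ≤ q ∧ q ≤ R₀ ∧ ∃ b : ℤ, |θ - (b : ℝ) / q| ≤ Real.log N ^ E / (N : ℝ) ^ h.natDegree := by
  obtain ⟨E, N1, hmin⟩ := minorS h hd Q s hQ
  obtain ⟨N2, hmaj⟩ := major h hd Q s hQ E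
  obtain ⟨R₀, hR₀⟩ := kap_small h hd Q s hQ (ε / 2) (by linarith)
  obtain ⟨N3, hN3⟩ := eventually_atTop.1 (ev_log (4 / ε + 1))
  refine ⟨E, R₀, max N1 (max N2 (max N3 1)), fun N hN θ hS => ?_⟩
  have hN0 : (0 : ℝ) < N := by exact_mod_cast (by omega : 0 < N)
  have h4ε : 0 < 4 / ε := by positivity
  have hLg := hN3 N (by omega)
  have hm := hmin N (by omega) θ
  have hM := hmaj N (by omega)
  generalize Real.log N = Lg at *
  have hLg1 : 1 ≤ Lg := by linarith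
  have hLg0 : 0 < Lg := by linarith
  have hNL : (N : ℝ) / Lg ≤ ε / 4 * N := by
    rw [div_le_iff₀ hLg0]
    have h5 : 4 / ε ≤ Lg := by linarith
    rw [div_le_iff₀ hε] at h5
    have : (N : ℝ) * 4 ≤ N * (Lg * ε) := mul_le_mul_of_nonneg_left h5 hN0.le
    linarith
  have hεN : 0 < ε * N := by positivity
  obtain ⟨r, hr1, hr2, z, hz⟩ := hm (by linarith)
  have hr0 : (0 : ℝ) < r := by exact_mod_cast hr1
  set x : ℚ := (z : ℚ) / r with hx
  have hxr : ((x.num : ℝ)) / (x.den : ℝ) = (z : ℝ) / r := by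
    have h1 : ((x : ℚ) : ℝ) = (x.num : ℝ) / (x.den : ℝ) := by
      conv_lhs => rw [← Rat.num_div_den x]
      push_cast; rfl
    rw [← h1, hx]; push_cast; rfl
  have hden : x.den ≤ r := by
    have h1 : ((x.den : ℕ) : ℤ) ∣ (r : ℤ) := by
      rw [hx]
      have h2 := Rat.den_dvd z r
      rw [Rat.divInt_eq_div, Int.cast_natCast] at h2
      exact h2
    exact Nat.le_of_dvd hr1 (by exact_mod_cast h1)
  have hden1 : 1 ≤ x.den := x.den_pos
  have hdiff : |θ - (x.num : ℝ) / (x.den : ℝ)| ≤ Lg ^ E / (N : ℝ) ^ h.natDegree := by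
    rw [hxr]
    have e : θ - (z : ℝ) / r = (r * θ - z) / r := by field_simp
    rw [e, abs_div, abs_of_pos hr0]
    have hr1' : (1 : ℝ) ≤ r := by exact_mod_cast hr1
    exact (div_le_self (abs_nonneg _) hr1').trans hz
  have hne : NeZero (Q * x.den) := ⟨(Nat.mul_pos hQ hden1).ne'⟩
  refine ⟨x.den, hden1, ?_, x.num, hdiff⟩
  by_contra hcon
  have h1 := hM x.den hden1 ((by exact_mod_cast hden : (x.den : ℝ) ≤ r).trans hr2) x.num θ hdiff
  have hcop : IsCoprime x.num (x.den : ℤ) := by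
    rw [Int.isCoprime_iff_gcd_eq_one]
    have := x.reduced
    simpa [Int.gcd, Nat.Coprime] using this
  have h2 := hR₀ x.den (by omega) hden1 x.num hcop
  have h3 : ‖kapg (Q * x.den) (gfun h Q s x.den x.num (Q * x.den))‖ * N ≤ ε / 2 * N :=
    mul_le_mul_of_nonneg_right h2 hN0.le
  linarith

end Pool.Agent.V11293.E70
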