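import Mathlib
import Pool.Agent.V11293.E70.Major2
import Pool.Agent.V11293.E70.IntCase

/-! Richness for the values of a polynomial at primes. -/

namespace Pool.Agent.V11293.E70
open Finset Filter Topology Polynomial
open Pool.Agent.Helper602.MK (ee)
open Pool.Agent.Helper602.MK.N_J5b (ee_add ee_zero ee_conj norm_ee ee_int ee_nat_mul ee_eq_one_iff ee_eq normsq_sum)
open scoped ArithmeticFunction.vonMangoldt

lemma ev_sqrt (C δ : ℝ) (hδ : 0 < δ) : ∀ᶠ N : ℕ in atTop, C * √(2 * (N : ℝ)) ≤ δ * N := by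
  have h1 : Tendsto (fun N : ℕ => √(N : ℝ)) atTop atTop := Real.tendsto_sqrt_atTop.comp tendsto_natCast_atTop_atTop
  filter_upwards [h1.eventually_ge_atTop (|C| * 2 / δ)] with N hN
  rw [div_le_iff₀ hδ] at hN
  have hs : √(N : ℝ) * √(N : ℝ) = N := Real.mul_self_sqrt (Nat.cast_nonneg N)
  have hs0 : 0 ≤ √(N : ℝ) := Real.sqrt_nonneg _
  have h2 : √(2 * (N : ℝ)) ≤ 2 * √(N : ℝ) := by
    rw [Real.sqrt_mul (by norm_num)]
    apply mul_le_mul_of_nonneg_right _ hs0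
    rw [Real.sqrt_le_left (by norm_num)]; norm_num
  calc C * √(2 * (N : ℝ)) ≤ |C| * √(2 * (N : ℝ)) := mul_le_mul_of_nonneg_right (le_abs_self C) (Real.sqrt_nonneg _)
    _ ≤ |C| * (2 * √(N : ℝ)) := mul_le_mul_of_nonneg_left h2 (abs_nonneg _)
    _ = (|C| * 2) * √(N : ℝ) := by ring
    _ ≤ (√(N : ℝ) * δ) * √(N : ℝ) := mul_le_mul_of_nonneg_right hN hs0
    _ = δ * (√(N : ℝ) * √(N : ℝ)) := by ring
    _ = δ * N := by rw [hs]

/-- the contribution of the integers that are not primes or are zeros of `h` -/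
lemma err_small (h : ℤ[X]) (hh : h ≠ 0) (δ : ℝ) (hδ : 0 < δ) : ∀ᶠ N : ℕ in atTop,
    ∑ n ∈ (Ioc N (2 * N)).filter (fun n : ℕ => ¬ (n.Prime ∧ h.eval (n : ℤ) ≠ 0)), Λ n ≤ δ * N := by
  obtain ⟨C, hC⟩ := Chebyshev.psi_sub_theta_le_mul_sqrt
  filter_upwards [ev_sqrt C (δ / 2) (by linarith), ev_logpow 2, ev_log (4 * h.natDegree / δ + 1), eventually_ge_atTop 1]
    with N h1 h2 h3 h4
  have hN0 : (0 : ℝ) < N := by exact_mod_cast h4
  have hdδ : (0 : ℝ) ≤ 4 * h.natDegree / δ := by positivity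
  have hsplit : ∑ n ∈ (Ioc N (2 * N)).filter (fun n : ℕ => ¬ (n.Prime ∧ h.eval (n : ℤ) ≠ 0)), Λ n ≤
      ∑ n ∈ (Ioc 0 (2 * N)).filter (fun n : ℕ => ¬ n.Prime), Λ n +
      ∑ n ∈ (Ioc N (2 * N)).filter (fun n : ℕ => h.eval (n : ℤ) = 0), Λ n := by
    have hsub : (Ioc N (2 * N)).filter (fun n : ℕ => ¬ (n.Prime ∧ h.eval (n : ℤ) ≠ 0)) ⊆
        (Ioc 0 (2 * N)).filter (fun n : ℕ => ¬ n.Prime) ∪ (Ioc N (2 * N)).filter (fun n : ℕ => h.eval (n : ℤ) = 0) := by
      intro n hn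
      rw [mem_filter, mem_Ioc] at hn
      rw [mem_union, mem_filter, mem_filter, mem_Ioc, mem_Ioc]
      by_cases hp : n.Prime
      · right
        refine ⟨hn.1, ?_⟩
        by_contra h0
        exact hn.2 ⟨hp, h0⟩
      · left; exact ⟨⟨by omega, hn.1.2⟩, hp⟩
    refine (sum_le_sum_of_subset_of_nonneg hsub (fun _ _ _ => ArithmeticFunction.vonMangoldt_nonneg)).trans ?_
    have h5 := sum_union_inter (s₁ := (Ioc 0 (2 * N)).filter (fun n : ℕ => ¬ n.Prime))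
      (s₂ := (Ioc N (2 * N)).filter (fun n : ℕ => h.eval (n : ℤ) = 0)) (f := fun n => Λ n)
    have h6 : 0 ≤ ∑ n ∈ (Ioc 0 (2 * N)).filter (fun n : ℕ => ¬ n.Prime) ∩ (Ioc N (2 * N)).filter (fun n : ℕ => h.eval (n : ℤ) = 0), Λ n :=
      sum_nonneg fun _ _ => ArithmeticFunction.vonMangoldt_nonneg
    linarith
  have hnp : ∑ n ∈ (Ioc 0 (2 * N)).filter (fun n : ℕ => ¬ n.Prime), Λ n ≤ δ / 2 * N := by
    have h5 := Chebyshev.psi_sub_theta_eq_sum_not_prime ((2 * N : ℕ) : ℝ)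
    rw [Nat.floor_natCast] at h5
    rw [← h5]
    refine (hC _).trans ?_
    push_cast; exact h1
  have hz : ∑ n ∈ (Ioc N (2 * N)).filter (fun n : ℕ => h.eval (n : ℤ) = 0), Λ n ≤ δ / 2 * N := by
    have hcard : ((Ioc N (2 * N)).filter (fun n : ℕ => h.eval (n : ℤ) = 0)).card ≤ h.natDegree := by
      refine le_trans (card_le_card ?_) (card_zeros h hh (2 * N + 1))
      intro n hn
      rw [mem_filter, mem_Ioc] at hn
      rw [mem_filter, mem_range]
      exact ⟨by omega, hn.2⟩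
    have hlog : ∀ n ∈ (Ioc N (2 * N)).filter (fun n : ℕ => h.eval (n : ℤ) = 0), Λ n ≤ 2 * Real.log N := by
      intro n hn
      rw [mem_filter, mem_Ioc] at hn
      refine ArithmeticFunction.vonMangoldt_le_log.trans ?_
      have hn2 : (n : ℝ) ≤ 2 * N := by exact_mod_cast hn.1.2
      have hn0 : (0 : ℝ) < n := by exact_mod_cast (by omega : 0 < n)
      refine (Real.log_le_log hn0 hn2).trans ?_
      rw [Real.log_mul (by norm_num) hN0.ne']
      have hl2 : Real.log 2 ≤ 1 := by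
        have := Real.log_le_sub_one_of_pos (show (0 : ℝ) < 2 by norm_num)
        linarith
      linarith
    have hL0 : 0 ≤ Real.log N := by linarith
    calc ∑ n ∈ (Ioc N (2 * N)).filter (fun n : ℕ => h.eval (n : ℤ) = 0), Λ n ≤
          ∑ _n ∈ (Ioc N (2 * N)).filter (fun n : ℕ => h.eval (n : ℤ) = 0), 2 * Real.log N := sum_le_sum hlog
      _ = (((Ioc N (2 * N)).filter (fun n : ℕ => h.eval (n : ℤ) = 0)).card : ℝ) * (2 * Real.log N) := by
          rw [sum_const, nsmul_eq_mul]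
      _ ≤ h.natDegree * (2 * Real.log N) := mul_le_mul_of_nonneg_right (by exact_mod_cast hcard) (by linarith)
      _ ≤ δ / 2 * (Real.log N) ^ 2 := by
          have h5 : 4 * (h.natDegree : ℝ) / δ ≤ Real.log N := by linarith
          rw [div_le_iff₀ hδ] at h5
          have h6 := mul_le_mul_of_nonneg_right h5 hL0
          nlinarith
      _ ≤ δ / 2 * N := mul_le_mul_of_nonneg_left h2 (by linarith)
  linarith

lemma class_mass_lower (Q s : ℕ) (hQ : 1 ≤ Q) (hs : s.Coprime Q) : ∀ᶠ N : ℕ in atTop,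
    (N : ℝ) / (2 * Q) ≤ ∑ n ∈ (Ioc N (2 * N)).filter (fun n : ℕ => n ≡ s [MOD Q]), Λ n := by
  classical
  have hne : NeZero Q := ⟨by omega⟩
  obtain ⟨N1, hN1⟩ := sw_int 1 1
  filter_upwards [eventually_ge_atTop N1, ev_log ((6 : ℝ) * Q + 1), eventually_ge_atTop 1] with N h1 h2 h3
  have hN0 : (0 : ℝ) < N := by exact_mod_cast h3
  have hQ0 : (0 : ℝ) < Q := by exact_mod_cast hQ
  have hsw := hN1 N h1 Q (by rw [pow_one]; linarith) (fun r => if r = (s : ZMod Q) then (1 : ℂ) else 0) (by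
    intro r; split_ifs <;> simp) (2 * N) (by omega) le_rfl
  have hκ : kapg Q (fun r => if r = (s : ZMod Q) then (1 : ℂ) else 0) = 1 / (Nat.totient Q : ℂ) := by
    unfold kapg
    have : ∑ u : (ZMod Q)ˣ, (if (u : ZMod Q) = (s : ZMod Q) then (1 : ℂ) else 0) = 1 := by
      rw [sum_eq_single (ZMod.unitOfCoprime s hs)]
      · rw [if_pos (ZMod.coe_unitOfCoprime s hs)]
      · intro u _ hu
        rw [if_neg]
        intro h
        apply hu
        apply Units.ext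
        rw [h, ZMod.coe_unitOfCoprime]
      · intro h; exact absurd (mem_univ _) h
    rw [this, mul_one]
  have hsum : ∑ d ∈ Ioc N (2 * N), (Λ d : ℂ) * (if (d : ZMod Q) = (s : ZMod Q) then (1 : ℂ) else 0) =
      ((∑ n ∈ (Ioc N (2 * N)).filter (fun n : ℕ => n ≡ s [MOD Q]), Λ n : ℝ) : ℂ) := by
    rw [sum_filter]
    push_cast
    apply sum_congr rfl; intro n _
    by_cases h : n ≡ s [MOD Q]
    · rw [if_pos h, if_pos ((ZMod.natCast_eq_natCast_iff n s Q).2 h), mul_one]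
    · rw [if_neg h, if_neg (fun h' => h ((ZMod.natCast_eq_natCast_iff n s Q).1 h')), mul_zero, Complex.ofReal_zero]
  rw [hκ, hsum] at hsw
  set T := ∑ n ∈ (Ioc N (2 * N)).filter (fun n : ℕ => n ≡ s [MOD Q]), Λ n with hT
  have hφ : (0 : ℝ) < Nat.totient Q := by exact_mod_cast Nat.totient_pos.2 hQ
  have hφQ : (Nat.totient Q : ℝ) ≤ Q := by exact_mod_cast Nat.totient_le Q
  have h5 : ((T : ℂ) - 1 / (Nat.totient Q : ℂ) * (((2 * N : ℕ) : ℂ) - N)) = ((T - N / (Nat.totient Q : ℝ) : ℝ) : ℂ) := by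
    push_cast; ring
  rw [h5, Complex.norm_real, Real.norm_eq_abs, pow_one] at hsw
  have h6 := (abs_le.1 hsw).1
  have h7 : (N : ℝ) / Q ≤ N / (Nat.totient Q : ℝ) := div_le_div_of_nonneg_left hN0.le hφ hφQ
  have h8 : 3 * (N : ℝ) / Real.log N ≤ N / (2 * Q) := by
    rw [div_le_div_iff₀ (by linarith) (by positivity)]
    have : 6 * (Q : ℝ) ≤ Real.log N := by linarith
    nlinarith
  have h9 : (N : ℝ) / Q = 2 * (N / (2 * Q)) := by field_simp
  linarith

theorem prime_rich (h : ℤ[X]) (hd : 1 ≤ h.natDegree) (Q : ℕ) (hQ : 1 ≤ Q) (s : ℕ) (hs : s.Coprime Q) :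
    Rich {x | ∃ p : ℕ, p.Prime ∧ x = h.eval (p : ℤ)} Q (h.eval (s : ℤ)) := by
  classical
  have hh0 : h ≠ 0 := by
    intro h0; rw [h0, natDegree_zero] at hd; omega
  apply rich_of_family
  intro ε hε
  have hQ0 : (0 : ℝ) < Q := by exact_mod_cast hQ
  set ε' : ℝ := ε / (8 * Q) with hε'
  have hε'0 : 0 < ε' := by positivity
  obtain ⟨E, R₀, N₀, hequi⟩ := equi_prime h hd Q s hQ ε' hε'0
  set R : ℕ := Q * R₀.factorial with hR
  have hR1 : 1 ≤ R := Nat.mul_pos hQ (Nat.factorial_pos _)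
  refine ⟨R, hR1, ⟨_, hR⟩, fun L₀ => ?_⟩
  set L := L₀ + 1 with hL
  have hL1 : 1 ≤ L := by omega
  have hmin0 : 0 < min (ε / (16 * Q)) (1 / (8 * (Q : ℝ))) := by positivity
  obtain ⟨N, hN₀, herr, hmass, hlogp, hlog, hN1⟩ := (((eventually_ge_atTop N₀).and ((err_small h hh0 _ hmin0).and
    ((class_mass_lower Q s hQ hs).and ((ev_logpow (E + 1)).and ((ev_log (10 * R * L + 1)).and (eventually_ge_atTop 1)))))).exists)
  have hN0 : (0 : ℝ) < N := by exact_mod_cast hN1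
  set I := (Ioc N (2 * N)).filter (fun n : ℕ => n ≡ s [MOD Q] ∧ (n.Prime ∧ h.eval (n : ℤ) ≠ 0)) with hI
  set Err := ∑ n ∈ (Ioc N (2 * N)).filter (fun n : ℕ => ¬ (n.Prime ∧ h.eval (n : ℤ) ≠ 0)), Λ n with hErr
  have herr1 : Err ≤ ε / (16 * Q) * N := herr.trans (mul_le_mul_of_nonneg_right (min_le_left _ _) hN0.le)
  have herr2 : Err ≤ 1 / (8 * Q) * N := herr.trans (mul_le_mul_of_nonneg_right (min_le_right _ _) hN0.le)
  -- decomposition of sums over the class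
  have hdec : ∀ F : ℕ → ℂ, (∀ n, ‖F n‖ ≤ 1) →
      ‖∑ n ∈ (Ioc N (2 * N)).filter (fun n : ℕ => n ≡ s [MOD Q]), (Λ n : ℂ) * F n - ∑ n ∈ I, (Λ n : ℂ) * F n‖ ≤ Err := by
    intro F hF
    have h1 : I = ((Ioc N (2 * N)).filter (fun n : ℕ => n ≡ s [MOD Q])).filter (fun n : ℕ => n.Prime ∧ h.eval (n : ℤ) ≠ 0) := by
      rw [filter_filter]
    rw [h1, ← sum_filter_add_sum_filter_not ((Ioc N (2 * N)).filter (fun n : ℕ => n ≡ s [MOD Q])) (fun n : ℕ => n.Prime ∧ h.eval (n : ℤ) ≠ 0),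
      add_sub_cancel_left]
    refine (norm_sum_le _ _).trans ?_
    calc ∑ n ∈ ((Ioc N (2 * N)).filter (fun n : ℕ => n ≡ s [MOD Q])).filter (fun n : ℕ => ¬ (n.Prime ∧ h.eval (n : ℤ) ≠ 0)), ‖(Λ n : ℂ) * F n‖
        ≤ ∑ n ∈ ((Ioc N (2 * N)).filter (fun n : ℕ => n ≡ s [MOD Q])).filter (fun n : ℕ => ¬ (n.Prime ∧ h.eval (n : ℤ) ≠ 0)), Λ n := by
          apply sum_le_sum; intro n _
          rw [norm_mul, Complex.norm_real, Real.norm_of_nonneg ArithmeticFunction.vonMangoldt_nonneg]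
          exact mul_le_of_le_one_right ArithmeticFunction.vonMangoldt_nonneg (hF n)
      _ ≤ Err := by
          apply sum_le_sum_of_subset_of_nonneg
          · intro n hn
            rw [mem_filter, mem_filter] at hn
            rw [mem_filter]; exact ⟨hn.1.1, hn.2⟩
          · intro _ _ _; exact ArithmeticFunction.vonMangoldt_nonneg
  have hmassI : (N : ℝ) / (4 * Q) ≤ ∑ n ∈ I, Λ n := by
    have h1 := hdec (fun _ => 1) (fun _ => by simp)
    simp only [mul_one] at h1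
    have h2 : (∑ n ∈ (Ioc N (2 * N)).filter (fun n : ℕ => n ≡ s [MOD Q]), (Λ n : ℂ) - ∑ n ∈ I, (Λ n : ℂ)) =
        ((∑ n ∈ (Ioc N (2 * N)).filter (fun n : ℕ => n ≡ s [MOD Q]), Λ n - ∑ n ∈ I, Λ n : ℝ) : ℂ) := by push_cast; rfl
    rw [h2, Complex.norm_real, Real.norm_eq_abs] at h1
    have h3 := (abs_le.1 h1).2
    have h4 : (N : ℝ) / (2 * Q) = 4 * (1 / (8 * Q) * N) := by field_simp; norm_num
    have h5 : (N : ℝ) / (4 * Q) = 2 * (1 / (8 * Q) * N) := by field_simp; norm_num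
    have h6 : 0 ≤ 1 / (8 * (Q : ℝ)) * N := by positivity
    linarith
  refine ⟨L, by omega, I, fun n => Λ n, fun n => h.eval (n : ℤ), fun _ _ => ArithmeticFunction.vonMangoldt_nonneg, ?_, ?_, ?_⟩
  · have : 0 < (N : ℝ) / (4 * Q) := by positivity
    linarith
  · intro n hn
    rw [hI, mem_filter] at hn
    obtain ⟨_, hn1, hn2, hn3⟩ := hn
    refine ⟨⟨n, hn2, rfl⟩, hn3, ?_⟩
    exact (Nat.modEq_iff_dvd.1 hn1.symm).trans (sub_dvd_eval_sub (n : ℤ) (s : ℤ) h)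
  · intro θ
    by_cases hlarge : ‖∑ n ∈ I, (Λ n : ℂ) * ee (((h.eval (n : ℤ) : ℤ) : ℝ) * θ)‖ ≤ ε * ∑ n ∈ I, Λ n
    · left; exact hlarge
    right
    push Not at hlarge
    have h1 := hdec (fun n => ee (((h.eval (n : ℤ) : ℤ) : ℝ) * θ)) (fun n => (norm_ee _).le)
    have h2 : SS h Q s N θ = ∑ n ∈ (Ioc N (2 * N)).filter (fun n : ℕ => n ≡ s [MOD Q]), (Λ n : ℂ) * ee (((h.eval (n : ℤ) : ℤ) : ℝ) * θ) := by
      unfold SS
      rw [sum_filter]
      apply sum_congr rfl; intro n _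
      split_ifs <;> simp
    rw [← h2] at h1
    have h3 : ‖∑ n ∈ I, (Λ n : ℂ) * ee (((h.eval (n : ℤ) : ℤ) : ℝ) * θ)‖ ≤ ‖SS h Q s N θ‖ + Err := by
      have e : ∑ n ∈ I, (Λ n : ℂ) * ee (((h.eval (n : ℤ) : ℤ) : ℝ) * θ) = SS h Q s N θ -
        (SS h Q s N θ - ∑ n ∈ I, (Λ n : ℂ) * ee (((h.eval (n : ℤ) : ℤ) : ℝ) * θ)) := by ring
      rw [e]
      refine (norm_sub_le _ _).trans ?_
      linarith
    have h4 : ε * (N / (4 * Q)) ≤ ε * ∑ n ∈ I, Λ n := mul_le_mul_of_nonneg_left hmassI hε.le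
    have h5 : ε * ((N : ℝ) / (4 * Q)) = 4 * (ε / (16 * Q) * N) := by field_simp; norm_num
    have h6 : ε' * N = 2 * (ε / (16 * Q) * N) := by rw [hε']; field_simp; norm_num
    have h7 : 0 < ε / (16 * (Q : ℝ)) * N := by positivity
    obtain ⟨q, hq1, hq2, b, hb⟩ := hequi N hN₀ θ (by linarith)
    obtain ⟨e, he⟩ := Nat.dvd_factorial hq1 hq2
    have hq0 : (0 : ℝ) < q := by exact_mod_cast hq1
    apply DD_large R L hL1 θ (Q * e * b)
    have h8 : (R : ℝ) * θ - ((Q * e * b : ℤ) : ℝ) = R * (θ - b / q) := by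
      rw [hR, he]; push_cast; field_simp
    rw [h8, abs_mul, abs_of_nonneg (Nat.cast_nonneg R)]
    have hNk : (N : ℝ) ≤ (N : ℝ) ^ h.natDegree := le_self_pow₀ (by exact_mod_cast hN1) (by omega)
    have hR0 : (0 : ℝ) ≤ R := Nat.cast_nonneg _
    have hL0 : (0 : ℝ) ≤ L := Nat.cast_nonneg _
    have hRL : 0 ≤ 10 * (R : ℝ) * L := by positivity
    have hlog0 : 0 ≤ Real.log N := by linarith
    have h9 : |θ - (b : ℝ) / q| ≤ Real.log N ^ E / N := hb.trans (div_le_div_of_nonneg_left (by positivity) hN0 hNk)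
    calc (R : ℝ) * |θ - b / q| * L ≤ R * (Real.log N ^ E / N) * L := by gcongr
      _ = (10 * R * L) * Real.log N ^ E / N / 10 := by ring
      _ ≤ Real.log N * Real.log N ^ E / N / 10 := by
          apply div_le_div_of_nonneg_right _ (by norm_num)
          apply div_le_div_of_nonneg_right _ hN0.le
          exact mul_le_mul_of_nonneg_right (by linarith) (by positivity)
      _ ≤ 1 / 10 := by
          apply div_le_div_of_nonneg_right _ (by norm_num)
          rw [div_le_one hN0, mul_comm, ← pow_succ]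
          exact hlogp

/-- local structure for the values at primes -/
theorem prime_locRich (h : ℤ[X]) (hd : 1 ≤ h.natDegree) : LocRich {x | ∃ p : ℕ, p.Prime ∧ x = h.eval (p : ℤ)} := by
  intro m hm
  refine ⟨∑ p ∈ range (m + 1), (h.eval (p : ℤ)).natAbs, ?_⟩
  rintro _ ⟨p, hp, rfl⟩ _
  by_cases hpm : p ∣ m
  · left
    have h1 : p ∈ range (m + 1) := by
      rw [mem_range]
      have := Nat.le_of_dvd hm hpm
      omega
    have h2 : (h.eval (p : ℤ)).natAbs ≤ ∑ p ∈ range (m + 1), (h.eval (p : ℤ)).natAbs :=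
      single_le_sum (f := fun p : ℕ => (h.eval (p : ℤ)).natAbs) (fun _ _ => Nat.zero_le _) h1
    rw [Int.abs_eq_natAbs]
    exact_mod_cast h2
  · right
    intro Q hQ hmQ
    have hne : NeZero m := ⟨by omega⟩
    have hcop : p.Coprime m := (Nat.Prime.coprime_iff_not_dvd hp).2 hpm
    obtain ⟨p', hp'Q, hp', hp'm⟩ := Nat.forall_exists_prime_gt_and_eq_mod (q := m) (a := (p : ZMod m))
      ((ZMod.isUnit_iff_coprime p m).2 hcop) Q
    have hcopQ : p'.Coprime Q := by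
      rw [Nat.Prime.coprime_iff_not_dvd hp']
      intro hd'
      have := Nat.le_of_dvd hQ hd'
      omega
    refine ⟨h.eval (p' : ℤ), prime_rich h hd Q hQ p' hcopQ, ?_⟩
    have h1 : (p' : ℕ) ≡ p [MOD m] := (ZMod.natCast_eq_natCast_iff p' p m).1 hp'm
    exact (Nat.modEq_iff_dvd.1 h1.symm).trans (sub_dvd_eval_sub (p' : ℤ) (p : ℤ) h)

end Pool.Agent.V11293.E70
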